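import Mathlib

/-!
The integrals `∫₀^∞ k^j e^{-ak} sin(kr) dk` in closed form, through the recursion polynomials `q`.
-/

open MeasureTheory Real Set Filter Topology

namespace Pool.Agent.Lib.MP_b06be4_an

/-- `q j y`: with `y = a²/(a²+r²)`, `∫₀^∞ k^j e^{-ak} sin(kr) dk = j! r q j y / a^{j+2}` -/
def q : ℕ → ℝ → ℝ
  | 0, y => y
  | 1, y => 2 * y ^ 2
  | (j + 2), y => 2 * y * q (j + 1) y - y * q j y

lemma q_zero (y : ℝ) : q 0 y = y := rfl
lemma q_one (y : ℝ) : q 1 y = 2 * y ^ 2 := rfl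
lemma q_rec (j : ℕ) (y : ℝ) : q (j + 2) y = 2 * y * q (j + 1) y - y * q j y := rfl

lemma q_at_one (j : ℕ) : q j 1 = j + 1 := by
  induction j using Nat.twoStepInduction with
  | zero => simp [q]
  | one => simp [q]; norm_num
  | more n h1 h2 => rw [q_rec, h1, h2]; push_cast; ring

lemma integrableOn_pow_mul_exp (j : ℕ) {a : ℝ} (ha : 0 < a) :
    IntegrableOn (fun k : ℝ => k ^ j * Real.exp (-(a * k))) (Ioi 0) := by
  have h := integrableOn_rpow_mul_exp_neg_mul_rpow (p := 1) (s := (j:ℝ)) (b := a)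
    (by have : (0:ℝ) ≤ j := by positivity
        linarith) one_pos ha
  refine h.congr_fun (fun k hk => ?_) measurableSet_Ioi
  simp only [Real.rpow_natCast, Real.rpow_one, neg_mul]

lemma norm_cexp_aux (z : ℂ) (j : ℕ) {k : ℝ} (hk : 0 ≤ k) :
    ‖(k:ℂ) ^ j * Complex.exp (-(z * k))‖ = k ^ j * Real.exp (-(z.re * k)) := by
  rw [norm_mul, norm_pow, Complex.norm_exp, Complex.norm_real, Real.norm_eq_abs, abs_of_nonneg hk]
  simp

lemma integrableOn_cpow_mul_cexp (j : ℕ) {z : ℂ} (hz : 0 < z.re) :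
    IntegrableOn (fun k : ℝ => (k:ℂ) ^ j * Complex.exp (-(z * k))) (Ioi 0) := by
  refine (integrableOn_pow_mul_exp j hz).mono' ?_ ?_
  · exact (by fun_prop : Continuous fun k : ℝ => (k:ℂ) ^ j * Complex.exp (-(z * k))).aestronglyMeasurable
  · filter_upwards [ae_restrict_mem measurableSet_Ioi] with k hk
    exact (norm_cexp_aux z j (le_of_lt hk)).le

lemma tendsto_aux (j : ℕ) {z : ℂ} (hz : 0 < z.re) :
    Tendsto (fun k : ℝ => (k:ℂ) ^ j * Complex.exp (-(z * k))) atTop (𝓝 0) := by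
  rw [tendsto_zero_iff_norm_tendsto_zero]
  have h1 : Tendsto (fun k : ℝ => k ^ j * Real.exp (-(z.re * k))) atTop (𝓝 0) := by
    have h2 := (Real.tendsto_pow_mul_exp_neg_atTop_nhds_zero j).comp
      (tendsto_id.const_mul_atTop hz)
    have h3 := h2.const_mul ((z.re⁻¹) ^ j)
    rw [mul_zero] at h3
    refine h3.congr fun k => ?_
    simp only [Function.comp, id]
    rw [← mul_assoc, ← mul_pow]
    congr 2
    field_simp
  refine h1.congr' ?_
  filter_upwards [eventually_ge_atTop 0] with k hk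
  exact (norm_cexp_aux z j hk).symm

lemma integral_cpow_mul_cexp (j : ℕ) {z : ℂ} (hz : 0 < z.re) :
    ∫ k in Ioi (0:ℝ), (k:ℂ) ^ j * Complex.exp (-(z * k)) = (j.factorial : ℂ) / z ^ (j + 1) := by
  have hz0 : z ≠ 0 := by rintro rfl; simp at hz
  induction j with
  | zero =>
    have h1 : ∀ k ∈ Ici (0:ℝ), HasDerivAt (fun k : ℝ => -(Complex.exp (-(z * k))) / z)
        ((k:ℂ) ^ 0 * Complex.exp (-(z * k))) k := by
      intro k _
      have h2 : HasDerivAt (fun k : ℝ => -(z * (k:ℂ))) (-(z * 1)) k :=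
        ((Complex.ofRealCLM.hasDerivAt (x := k)).const_mul z).neg
      have h3 := ((h2.cexp).neg).div_const z
      refine h3.congr_deriv ?_
      rw [pow_zero, one_mul, mul_one, mul_neg, neg_neg, mul_div_assoc, div_self hz0, mul_one]
    have h4 := integral_Ioi_of_hasDerivAt_of_tendsto' h1 (integrableOn_cpow_mul_cexp 0 hz)
      (m := 0) (by
        have := (tendsto_aux 0 hz).neg.div_const z
        simpa using this)
    rw [h4]
    simp
    field_simp
  | succ j ih =>
    have h1 : ∀ k ∈ Ici (0:ℝ), HasDerivAt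
        (fun k : ℝ => -((k:ℂ) ^ (j + 1) * Complex.exp (-(z * k))) / z)
        ((k:ℂ) ^ (j + 1) * Complex.exp (-(z * k)) -
          ((j:ℂ) + 1) / z * ((k:ℂ) ^ j * Complex.exp (-(z * k)))) k := by
      intro k _
      have h0 : HasDerivAt (fun k : ℝ => (k:ℂ)) 1 k := Complex.ofRealCLM.hasDerivAt (x := k)
      have h2 : HasDerivAt (fun k : ℝ => -(z * (k:ℂ))) (-(z * 1)) k := (h0.const_mul z).neg
      have h5 : HasDerivAt (fun k : ℝ => (k:ℂ) ^ (j + 1)) (((j + 1 : ℕ) : ℂ) * (k:ℂ) ^ j * 1) k :=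
        h0.fun_pow (j + 1)
      have h3 := ((h5.fun_mul h2.cexp).fun_neg).div_const z
      refine h3.congr_deriv ?_
      push_cast
      generalize Complex.exp (-(z * (k:ℂ))) = E
      rw [pow_succ]
      field_simp
      ring
    have hi := (integrableOn_cpow_mul_cexp (j + 1) hz)
    have hi2 := (integrableOn_cpow_mul_cexp j hz).const_mul (((j:ℂ) + 1) / z)
    have h4 := integral_Ioi_of_hasDerivAt_of_tendsto' h1 (hi.sub hi2)
      (m := 0) (by
        have := (tendsto_aux (j + 1) hz).neg.div_const z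
        simpa using this)
    rw [integral_sub hi hi2, integral_const_mul, ih] at h4
    simp only [Complex.ofReal_zero, ne_eq, Nat.add_eq_zero_iff, one_ne_zero, and_false,
      not_false_eq_true, zero_pow, mul_zero, neg_zero, Complex.exp_zero, zero_mul, zero_div,
      sub_zero] at h4
    have h6 := sub_eq_zero.mp h4
    rw [h6, Nat.factorial_succ, pow_succ z (j + 1)]
    push_cast
    field_simp

/-- imaginary parts of the powers of `1/(a - i r)` -/
lemma im_inv_pow (a r : ℝ) (ha : 0 < a) (j : ℕ) :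
    ((((a:ℂ) - r * Complex.I)⁻¹) ^ (j + 1)).im =
      r * q j (a ^ 2 / (a ^ 2 + r ^ 2)) / a ^ (j + 2) := by
  have hD : 0 < a ^ 2 + r ^ 2 := by positivity
  set D : ℝ := a ^ 2 + r ^ 2 with hDdef
  set w : ℂ := ((a:ℂ) - r * Complex.I)⁻¹ with hw
  have hns : Complex.normSq ((a:ℂ) - r * Complex.I) = D := by
    rw [Complex.normSq_apply]; simp [hDdef]; ring
  have hre : w.re = a / D := by
    rw [hw, Complex.inv_re, hns]; simp
  have him : w.im = r / D := by
    rw [hw, Complex.inv_im, hns]; simp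
  have hsq : w ^ 2 = ((2 * a / D : ℝ) : ℂ) * w - ((1 / D : ℝ) : ℂ) := by
    apply Complex.ext
    · rw [sq, Complex.mul_re, Complex.sub_re, Complex.re_ofReal_mul, Complex.ofReal_re, hre, him]
      field_simp
      rw [hDdef]; ring
    · rw [sq, Complex.mul_im, Complex.sub_im, Complex.im_ofReal_mul, Complex.ofReal_im, hre, him]
      field_simp
      ring
  induction j using Nat.twoStepInduction with
  | zero =>
    rw [zero_add, pow_one, him, q_zero]
    field_simp
  | one =>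
    rw [hsq, Complex.sub_im, Complex.im_ofReal_mul, Complex.ofReal_im, him, q_one]
    field_simp
    ring
  | more n h1 h2 =>
    have h3 : w ^ (n + 2 + 1) = ((2 * a / D : ℝ) : ℂ) * w ^ (n + 1 + 1) -
        ((1 / D : ℝ) : ℂ) * w ^ (n + 1) := by
      have : w ^ (n + 2 + 1) = w ^ 2 * w ^ (n + 1) := by ring
      rw [this, hsq]; ring
    rw [h3, Complex.sub_im, Complex.im_ofReal_mul, Complex.im_ofReal_mul, h1, h2, q_rec]
    generalize q (n + 1) (a ^ 2 / D) = Q1
    generalize q n (a ^ 2 / D) = Q0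
    have e1 : a ^ (n + 2 + 2) = a ^ (n + 2) * a ^ 2 := by ring
    have e2 : a ^ (n + 1 + 2) = a ^ (n + 2) * a := by ring
    rw [e1, e2]
    have : a ^ (n + 2) ≠ 0 := by positivity
    field_simp

lemma integral_pow_mul_exp_mul_sin (a r : ℝ) (ha : 0 < a) (j : ℕ) :
    ∫ k in Ioi (0:ℝ), k ^ j * Real.exp (-(a * k)) * Real.sin (k * r) =
      (j.factorial : ℝ) * (r * q j (a ^ 2 / (a ^ 2 + r ^ 2)) / a ^ (j + 2)) := by
  have hz : 0 < ((a:ℂ) - r * Complex.I).re := by simpa using ha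
  have h1 := integral_cpow_mul_cexp j hz
  have h2 := congrArg Complex.im h1
  have h3 : (∫ k in Ioi (0:ℝ), (k:ℂ) ^ j * Complex.exp (-(((a:ℂ) - r * Complex.I) * k))).im =
      ∫ k in Ioi (0:ℝ), ((k:ℂ) ^ j * Complex.exp (-(((a:ℂ) - r * Complex.I) * k))).im := by
    exact (integral_im (integrableOn_cpow_mul_cexp j hz)).symm
  rw [h3] at h2
  have h4 : ∀ k : ℝ, ((k:ℂ) ^ j * Complex.exp (-(((a:ℂ) - r * Complex.I) * k))).im =
      k ^ j * Real.exp (-(a * k)) * Real.sin (k * r) := by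
    intro k
    rw [← Complex.ofReal_pow, Complex.im_ofReal_mul, Complex.exp_im]
    have e1 : (-(((a:ℂ) - r * Complex.I) * k)).re = -(a * k) := by simp
    have e2 : (-(((a:ℂ) - r * Complex.I) * k)).im = k * r := by simp; ring
    rw [e1, e2]; ring
  simp_rw [h4] at h2
  rw [h2, div_eq_mul_inv, ← inv_pow, ← im_inv_pow a r ha j]
  have : ((j.factorial : ℕ) : ℂ) = ((j.factorial : ℝ) : ℂ) := by push_cast; rfl
  rw [this, Complex.im_ofReal_mul]

lemma integral_pow_mul_exp (a : ℝ) (ha : 0 < a) (j : ℕ) :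
    ∫ k in Ioi (0:ℝ), k ^ j * Real.exp (-(a * k)) = (j.factorial : ℝ) / a ^ (j + 1) := by
  have hz : 0 < (a:ℂ).re := by simpa using ha
  have h1 := integral_cpow_mul_cexp j hz
  have h2 : ∫ k in Ioi (0:ℝ), (k:ℂ) ^ j * Complex.exp (-((a:ℂ) * k)) =
      ((∫ k in Ioi (0:ℝ), k ^ j * Real.exp (-(a * k)) : ℝ) : ℂ) := by
    have h5 := integral_complex_ofReal (f := fun k : ℝ => k ^ j * Real.exp (-(a * k)))
      (μ := volume.restrict (Ioi (0:ℝ)))
    rw [← h5]
    congr 1
    ext k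
    push_cast
    rfl
  rw [h2] at h1
  have h3 : (((j.factorial : ℝ) / a ^ (j + 1) : ℝ) : ℂ) = (j.factorial : ℂ) / (a:ℂ) ^ (j + 1) := by
    push_cast; rfl
  rw [← h3] at h1
  exact_mod_cast h1

/-- unified form: `∫₀^∞ k^{j+1} sinc(kr) e^{-ak} dk = j! q_j(y) / a^{j+2}` -/
lemma integral_sinc (a r : ℝ) (ha : 0 < a) (hr : 0 ≤ r) (j : ℕ) :
    ∫ k in Ioi (0:ℝ), k ^ (j + 1) * Real.exp (-(a * k)) * Real.sinc (k * r) =
      (j.factorial : ℝ) * q j (a ^ 2 / (a ^ 2 + r ^ 2)) / a ^ (j + 2) := by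
  rcases hr.eq_or_lt with h | h
  · subst h
    simp only [mul_zero, Real.sinc_zero, mul_one]
    rw [integral_pow_mul_exp a ha]
    have : a ^ 2 / (a ^ 2 + 0 ^ 2) = 1 := by
      rw [zero_pow two_ne_zero, add_zero, div_self (by positivity)]
    rw [this, q_at_one, Nat.factorial_succ]
    push_cast
    ring
  · have h1 : ∀ k ∈ Ioi (0:ℝ), k ^ (j + 1) * Real.exp (-(a * k)) * Real.sinc (k * r) =
        (1 / r) * (k ^ j * Real.exp (-(a * k)) * Real.sin (k * r)) := by
      intro k hk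
      have hk' : (0:ℝ) < k := hk
      rw [Real.sinc_of_ne_zero (by positivity)]
      field_simp
      ring
    rw [setIntegral_congr_fun measurableSet_Ioi h1, integral_const_mul,
      integral_pow_mul_exp_mul_sin a r ha]
    field_simp

end Pool.Agent.Lib.MP_b06be4_an
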