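import Pool.Agent.Lib.MP_b06be4_an.Sphere
import Pool.Agent.Lib.MP_b06be4_an.Integral

/-!
The general linear-programming type lower bound for the Riesz 2-energy.
-/

open MeasureTheory Real Set Filter Topology

namespace Pool.Agent.Lib.MP_b06be4_an

/-- weight polynomial -/
noncomputable def RR (m : ℕ) (ρ : ℕ → ℝ) (κ : ℝ) : ℝ :=
  ∑ j ∈ Finset.range m, ρ j * κ ^ j / (j.factorial : ℝ)

/-- its transform -/
noncomputable def HH (m : ℕ) (ρ : ℕ → ℝ) (y : ℝ) : ℝ :=
  ∑ j ∈ Finset.range m, ρ j * q j y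

lemma continuous_q (j : ℕ) : Continuous (q j) := by
  induction j using Nat.twoStepInduction with
  | zero => exact continuous_id
  | one => exact (by fun_prop : Continuous fun y : ℝ => 2 * y ^ 2)
  | more n h1 h2 =>
    have : q (n + 2) = fun y => 2 * y * q (n + 1) y - y * q n y := by
      funext y; exact q_rec n y
    rw [this]
    fun_prop

lemma continuous_HH (m : ℕ) (ρ : ℕ → ℝ) : Continuous (HH m ρ) := by
  unfold HH
  exact continuous_finsetSum _ fun j _ => continuous_const.mul (continuous_q j)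

lemma continuous_RR (m : ℕ) (ρ : ℕ → ℝ) : Continuous (RR m ρ) := by
  unfold RR
  fun_prop

lemma integrableOn_RR (m : ℕ) (ρ : ℕ → ℝ) {a : ℝ} (ha : 0 < a) (i : ℕ) :
    IntegrableOn (fun k : ℝ => k ^ i * (RR m ρ (a * k) * Real.exp (-(a * k)))) (Ioi 0) := by
  have h1 : (fun k : ℝ => k ^ i * (RR m ρ (a * k) * Real.exp (-(a * k)))) =
      fun k : ℝ => ∑ j ∈ Finset.range m,
        (ρ j * a ^ j / (j.factorial : ℝ)) * (k ^ (j + i) * Real.exp (-(a * k))) := by
    funext k
    unfold RR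
    rw [Finset.sum_mul, Finset.mul_sum]
    refine Finset.sum_congr rfl fun j _ => ?_
    rw [mul_pow, pow_add]; ring
  rw [h1]
  exact integrable_finsetSum _ fun j _ => (integrableOn_pow_mul_exp (j + i) ha).const_mul _

lemma integrableOn_RR_sinc (m : ℕ) (ρ : ℕ → ℝ) {a : ℝ} (ha : 0 < a) (r : ℝ) :
    IntegrableOn (fun k : ℝ => k * Real.sinc (k * r) *
      (RR m ρ (a * k) * Real.exp (-(a * k)))) (Ioi 0) := by
  have h := (integrableOn_RR m ρ ha 1).norm
  refine h.mono' ?_ ?_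
  · have hR := continuous_RR m ρ
    have hs := Real.continuous_sinc
    exact (by fun_prop : Continuous fun k : ℝ => k * Real.sinc (k * r) *
      (RR m ρ (a * k) * Real.exp (-(a * k)))).aestronglyMeasurable
  · refine Filter.Eventually.of_forall fun k => ?_
    rw [norm_mul, norm_mul, norm_mul (k ^ 1), pow_one]
    have h1 : ‖Real.sinc (k * r)‖ ≤ 1 := by
      rw [Real.norm_eq_abs]; exact Real.abs_sinc_le_one _
    have h2 : 0 ≤ ‖k‖ := norm_nonneg _
    have h3 : 0 ≤ ‖RR m ρ (a * k) * Real.exp (-(a * k))‖ := norm_nonneg _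
    calc ‖k‖ * ‖Real.sinc (k * r)‖ * ‖RR m ρ (a * k) * Real.exp (-(a * k))‖
        ≤ ‖k‖ * 1 * ‖RR m ρ (a * k) * Real.exp (-(a * k))‖ := by gcongr
      _ = _ := by ring

lemma integral_RR_sinc (m : ℕ) (ρ : ℕ → ℝ) {a : ℝ} (ha : 0 < a) {r : ℝ} (hr : 0 ≤ r) :
    ∫ k in Ioi (0:ℝ), k * Real.sinc (k * r) * (RR m ρ (a * k) * Real.exp (-(a * k))) =
      HH m ρ (a ^ 2 / (a ^ 2 + r ^ 2)) / a ^ 2 := by
  have h1 : (fun k : ℝ => k * Real.sinc (k * r) * (RR m ρ (a * k) * Real.exp (-(a * k)))) =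
      fun k : ℝ => ∑ j ∈ Finset.range m,
        (ρ j * a ^ j / (j.factorial : ℝ)) *
          (k ^ (j + 1) * Real.exp (-(a * k)) * Real.sinc (k * r)) := by
    funext k
    unfold RR
    rw [Finset.sum_mul, Finset.mul_sum]
    refine Finset.sum_congr rfl fun j _ => ?_
    rw [mul_pow, pow_add]; ring
  have hint : ∀ j, IntegrableOn
      (fun k : ℝ => k ^ (j + 1) * Real.exp (-(a * k)) * Real.sinc (k * r)) (Ioi 0) := by
    intro j
    have h := (integrableOn_pow_mul_exp (j + 1) ha).norm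
    refine h.mono' ?_ ?_
    · have hs := Real.continuous_sinc
      exact (by fun_prop : Continuous fun k : ℝ =>
        k ^ (j + 1) * Real.exp (-(a * k)) * Real.sinc (k * r)).aestronglyMeasurable
    · refine Filter.Eventually.of_forall fun k => ?_
      rw [norm_mul]
      have h1 : ‖Real.sinc (k * r)‖ ≤ 1 := by
        rw [Real.norm_eq_abs]; exact Real.abs_sinc_le_one _
      exact mul_le_of_le_one_right (norm_nonneg _) h1
  rw [h1, integral_finsetSum _ fun j _ => (hint j).const_mul _]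
  unfold HH
  rw [Finset.sum_div]
  refine Finset.sum_congr rfl fun j _ => ?_
  rw [integral_const_mul, integral_sinc a r ha hr]
  have : (j.factorial : ℝ) ≠ 0 := by positivity
  rw [pow_add a j 2]
  field_simp

/-- the mean value term, by Fubini -/
lemma integral_RR_sinc_sq (m : ℕ) (ρ : ℕ → ℝ) {a : ℝ} (ha : 0 < a) :
    ∫ k in Ioi (0:ℝ), k * Real.sinc k ^ 2 * (RR m ρ (a * k) * Real.exp (-(a * k))) =
      ∫ r in (0:ℝ)..2, r / 2 * (HH m ρ (a ^ 2 / (a ^ 2 + r ^ 2)) / a ^ 2) := by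
  have h1 : ∀ k ∈ Ioi (0:ℝ), k * Real.sinc k ^ 2 * (RR m ρ (a * k) * Real.exp (-(a * k))) =
      ∫ r in (0:ℝ)..2, r / 2 *
        (k * Real.sinc (k * r) * (RR m ρ (a * k) * Real.exp (-(a * k)))) := by
    intro k hk
    have hk' : (0:ℝ) < k := hk
    have h2 : ∀ r : ℝ, HasDerivAt (fun r => (1 - Real.cos (k * r)) / (2 * k) *
        (RR m ρ (a * k) * Real.exp (-(a * k))))
        (r / 2 * (k * Real.sinc (k * r) * (RR m ρ (a * k) * Real.exp (-(a * k))))) r := by
      intro r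
      have h3 : HasDerivAt (fun r => 1 - Real.cos (k * r)) (Real.sin (k * r) * k) r := by
        have h4 : HasDerivAt (fun r : ℝ => k * r) (k * 1) r := (hasDerivAt_id r).const_mul k
        have h5 := (h4.cos).const_sub 1
        refine h5.congr_deriv ?_
        ring
      have h6 := ((h3.div_const (2 * k)).mul_const (RR m ρ (a * k) * Real.exp (-(a * k))))
      refine h6.congr_deriv ?_
      have h7 : r * (k * Real.sinc (k * r)) = Real.sin (k * r) := by
        by_cases hr : r = 0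
        · subst hr; simp
        · rw [Real.sinc_of_ne_zero (by positivity)]
          field_simp
      rw [← h7]
      field_simp
    have hc : Continuous fun r : ℝ => r / 2 *
        (k * Real.sinc (k * r) * (RR m ρ (a * k) * Real.exp (-(a * k)))) := by
      have hs := Real.continuous_sinc
      fun_prop
    rw [intervalIntegral.integral_eq_sub_of_hasDerivAt (fun r _ => h2 r)
      (hc.intervalIntegrable _ _)]
    rw [mul_zero, Real.cos_zero, sub_self, zero_div, zero_mul, sub_zero, Real.sinc_of_ne_zero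
      hk'.ne']
    have h8 : Real.cos (k * 2) = 1 - 2 * Real.sin k ^ 2 := by
      rw [mul_comm, Real.cos_two_mul, Real.cos_sq']; ring
    rw [h8]
    field_simp
    ring
  rw [setIntegral_congr_fun measurableSet_Ioi h1]
  rw [← intervalIntegral_integral_swap (a := 0) (b := 2) (μ := volume.restrict (Ioi (0:ℝ)))
    (f := fun r k => r / 2 *
        (k * Real.sinc (k * r) * (RR m ρ (a * k) * Real.exp (-(a * k)))))]
  · apply intervalIntegral.integral_congr
    intro r hr
    rw [uIcc_of_le (by norm_num)] at hr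
    simp only
    rw [integral_const_mul, integral_RR_sinc m ρ ha hr.1]
  · have h9 : Integrable (fun p : ℝ × ℝ => ‖p.2 ^ 1 * (RR m ρ (a * p.2) * Real.exp (-(a * p.2)))‖)
        ((volume.restrict (uIoc 0 2)).prod (volume.restrict (Ioi (0:ℝ)))) := by
      have : IsFiniteMeasure (volume.restrict (uIoc (0:ℝ) 2)) := by
        rw [uIoc_of_le (by norm_num : (0:ℝ) ≤ 2)]; infer_instance
      exact ((integrableOn_RR m ρ ha 1).norm).comp_snd _
    refine h9.mono' ?_ ?_
    · have hR := continuous_RR m ρ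
      have hs := Real.continuous_sinc
      exact (by fun_prop : Continuous fun p : ℝ × ℝ => p.1 / 2 *
        (p.2 * Real.sinc (p.2 * p.1) *
          (RR m ρ (a * p.2) * Real.exp (-(a * p.2))))).aestronglyMeasurable
    · have h10 : ∀ᵐ p : ℝ × ℝ ∂((volume.restrict (uIoc 0 2)).prod (volume.restrict (Ioi (0:ℝ)))),
          p.1 ∈ uIoc (0:ℝ) 2 := by
        rw [Measure.prod_restrict]
        filter_upwards [ae_restrict_mem (measurableSet_uIoc.prod measurableSet_Ioi)] with p hp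
        exact hp.1
      filter_upwards [h10] with p hp
      rw [uIoc_of_le (by norm_num : (0:ℝ) ≤ 2)] at hp
      simp only [Function.uncurry]
      rw [norm_mul, norm_mul, norm_mul, norm_mul (p.2 ^ 1), pow_one]
      have h1 : ‖Real.sinc (p.2 * p.1)‖ ≤ 1 := by
        rw [Real.norm_eq_abs]; exact Real.abs_sinc_le_one _
      have h2 : ‖p.1 / 2‖ ≤ 1 := by
        rw [Real.norm_eq_abs, abs_of_pos (by linarith [hp.1])]
        linarith [hp.2]
      have h3 : 0 ≤ ‖p.2‖ := norm_nonneg _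
      have h4 : 0 ≤ ‖RR m ρ (a * p.2) * Real.exp (-(a * p.2))‖ := norm_nonneg _
      have h5 : 0 ≤ ‖Real.sinc (p.2 * p.1)‖ := norm_nonneg _
      calc ‖p.1 / 2‖ * (‖p.2‖ * ‖Real.sinc (p.2 * p.1)‖ *
            ‖RR m ρ (a * p.2) * Real.exp (-(a * p.2))‖)
          ≤ 1 * (‖p.2‖ * 1 * ‖RR m ρ (a * p.2) * Real.exp (-(a * p.2))‖) := by gcongr
        _ = _ := by ring

/-- positivity of the weight gives the energy inequality for the transform -/
lemma HH_sum_ge (m : ℕ) (ρ : ℕ → ℝ) (hR : ∀ κ, 0 ≤ κ → 0 ≤ RR m ρ κ) {a : ℝ} (ha : 0 < a)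
    {N : ℕ} (x : Fin N → E3) (hx : ∀ i, ‖x i‖ = 1) :
    (N:ℝ) ^ 2 * ∫ r in (0:ℝ)..2, r / 2 * (HH m ρ (a ^ 2 / (a ^ 2 + r ^ 2)) / a ^ 2) ≤
      ∑ i, ∑ j, HH m ρ (a ^ 2 / (a ^ 2 + ‖x i - x j‖ ^ 2)) / a ^ 2 := by
  rw [← integral_RR_sinc_sq m ρ ha]
  have h1 : ∀ i j, HH m ρ (a ^ 2 / (a ^ 2 + ‖x i - x j‖ ^ 2)) / a ^ 2 =
      ∫ k in Ioi (0:ℝ), k * Real.sinc (k * ‖x i - x j‖) *
        (RR m ρ (a * k) * Real.exp (-(a * k))) := fun i j =>
    (integral_RR_sinc m ρ ha (norm_nonneg _)).symm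
  simp_rw [h1]
  rw [← integral_const_mul]
  have h2 : ∑ i, ∑ j, ∫ k in Ioi (0:ℝ), k * Real.sinc (k * ‖x i - x j‖) *
        (RR m ρ (a * k) * Real.exp (-(a * k))) =
      ∫ k in Ioi (0:ℝ), ∑ i, ∑ j, k * Real.sinc (k * ‖x i - x j‖) *
        (RR m ρ (a * k) * Real.exp (-(a * k))) := by
    rw [integral_finsetSum _ fun i _ => integrable_finsetSum _ fun j _ =>
      integrableOn_RR_sinc m ρ ha _]
    refine Finset.sum_congr rfl fun i _ => ?_
    rw [integral_finsetSum _ fun j _ => integrableOn_RR_sinc m ρ ha _]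
  rw [h2]
  apply setIntegral_mono_on
  · have h3 := (integrableOn_RR_sinc m ρ ha 1)
    have h4 : IntegrableOn (fun k : ℝ => (N:ℝ) ^ 2 * (k * Real.sinc k ^ 2 *
      (RR m ρ (a * k) * Real.exp (-(a * k))))) (Ioi 0) := by
      refine Integrable.const_mul ?_ _
      refine (h3.norm).mono' ?_ ?_
      · have hR := continuous_RR m ρ
        have hs := Real.continuous_sinc
        exact (by fun_prop : Continuous fun k : ℝ => k * Real.sinc k ^ 2 *
          (RR m ρ (a * k) * Real.exp (-(a * k)))).aestronglyMeasurable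
      · refine Filter.Eventually.of_forall fun k => ?_
        rw [mul_one]
        have e1 : k * Real.sinc k ^ 2 * (RR m ρ (a * k) * Real.exp (-(a * k))) =
          Real.sinc k * (k * Real.sinc k * (RR m ρ (a * k) * Real.exp (-(a * k)))) := by ring
        rw [e1, norm_mul]
        have h1 : ‖Real.sinc k‖ ≤ 1 := by
          rw [Real.norm_eq_abs]; exact Real.abs_sinc_le_one _
        exact mul_le_of_le_one_left (norm_nonneg _) h1
    exact h4
  · exact integrable_finsetSum _ fun i _ => integrable_finsetSum _ fun j _ =>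
      integrableOn_RR_sinc m ρ ha _
  · exact measurableSet_Ioi
  · intro k hk
    have hk' : (0:ℝ) < k := hk
    have h5 := sinc_sum_ge x hx k hk'.le
    have h6 : 0 ≤ k * (RR m ρ (a * k) * Real.exp (-(a * k))) := by
      have := hR (a * k) (by positivity)
      positivity
    calc (N:ℝ) ^ 2 * (k * Real.sinc k ^ 2 * (RR m ρ (a * k) * Real.exp (-(a * k))))
        = ((N:ℝ) ^ 2 * Real.sinc k ^ 2) * (k * (RR m ρ (a * k) * Real.exp (-(a * k)))) := by ring
      _ ≤ (∑ i, ∑ j, Real.sinc (k * ‖x i - x j‖)) *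
          (k * (RR m ρ (a * k) * Real.exp (-(a * k)))) := by gcongr
      _ = _ := by
          rw [Finset.sum_mul]
          refine Finset.sum_congr rfl fun i _ => ?_
          rw [Finset.sum_mul]
          refine Finset.sum_congr rfl fun j _ => ?_
          ring

/-- `T(y) ≤ -log(1-y)` -/
lemma T_le (s T : ℝ → ℝ) (hT : ∀ y, HasDerivAt T (s y) y) (hT0 : T 0 = 0)
    (hs : ∀ y, 0 ≤ y → y ≤ 1 → (1 - y) * s y ≤ 1) {y : ℝ} (hy0 : 0 ≤ y) (hy1 : y < 1) :
    T y ≤ -Real.log (1 - y) := by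
  have h1 : AntitoneOn (fun t => T t + Real.log (1 - t)) (Icc 0 y) := by
    apply antitoneOn_of_deriv_nonpos (convex_Icc _ _)
    · apply ContinuousOn.add
      · exact fun t _ => (hT t).continuousAt.continuousWithinAt
      · apply ContinuousOn.log
        · fun_prop
        · intro t ht; linarith [ht.2]
    · intro t ht
      rw [interior_Icc] at ht
      have : HasDerivAt (fun t => T t + Real.log (1 - t)) (s t + (-1) / (1 - t)) t :=
        (hT t).add (((hasDerivAt_id t).const_sub 1).log (by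
          simp only [id]; linarith [ht.2]))
      exact this.differentiableAt.differentiableWithinAt
    · intro t ht
      rw [interior_Icc] at ht
      have hpos : 0 < 1 - t := by linarith [ht.2]
      have : HasDerivAt (fun t => T t + Real.log (1 - t)) (s t + (-1) / (1 - t)) t :=
        (hT t).add (((hasDerivAt_id t).const_sub 1).log (by
          simp only [id]; linarith [ht.2]))
      rw [this.deriv]
      have h2 := hs t ht.1.le (by linarith [ht.2])
      have h3 : s t ≤ 1 / (1 - t) := by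
        rw [le_div_iff₀ hpos]; linarith
      have : (-1) / (1 - t) = -(1 / (1 - t)) := by ring
      rw [this]; linarith
  have h4 := h1 (left_mem_Icc.mpr hy0) (right_mem_Icc.mpr hy0) hy0
  simp only [sub_zero, Real.log_one, add_zero, hT0] at h4
  linarith

/-- lower bound for the mean value -/
lemma mean_ge (m : ℕ) (ρ : ℕ → ℝ) (s T : ℝ → ℝ) (hsc : Continuous s)
    (hT : ∀ y, HasDerivAt T (s y) y) (hT0 : T 0 = 0)
    (hs : ∀ y, 0 ≤ y → y ≤ 1 → (1 - y) * s y ≤ 1)
    (hH : ∀ y, HH m ρ y = y + y ^ 2 * s y) {a : ℝ} (ha : 0 < a) :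
    (Real.log (4 / a ^ 2) + T 1) / 4 ≤
      ∫ r in (0:ℝ)..2, r / 2 * (HH m ρ (a ^ 2 / (a ^ 2 + r ^ 2)) / a ^ 2) := by
  have ha2 : 0 < a ^ 2 := by positivity
  have h1 : ∀ r : ℝ, HasDerivAt
      (fun r => (Real.log (a ^ 2 + r ^ 2) - T (a ^ 2 / (a ^ 2 + r ^ 2))) / 4)
      (r / 2 * (HH m ρ (a ^ 2 / (a ^ 2 + r ^ 2)) / a ^ 2)) r := by
    intro r
    have hD : a ^ 2 + r ^ 2 ≠ 0 := by positivity
    have h2 : HasDerivAt (fun r : ℝ => a ^ 2 + r ^ 2) (2 * r) r := by
      have := (hasDerivAt_pow 2 r).const_add (a ^ 2)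
      simpa using this
    have h3 := h2.log hD
    have h4 : HasDerivAt (fun r : ℝ => a ^ 2 / (a ^ 2 + r ^ 2))
        ((0 * (a ^ 2 + r ^ 2) - a ^ 2 * (2 * r)) / (a ^ 2 + r ^ 2) ^ 2) r :=
      (hasDerivAt_const r (a ^ 2)).div h2 hD
    have h5 := (hT (a ^ 2 / (a ^ 2 + r ^ 2))).comp r h4
    have h6 := (h3.sub h5).div_const 4
    refine h6.congr_deriv ?_
    rw [hH]
    generalize s (a ^ 2 / (a ^ 2 + r ^ 2)) = σ
    field_simp
    ring
  have hc : Continuous fun r : ℝ => r / 2 * (HH m ρ (a ^ 2 / (a ^ 2 + r ^ 2)) / a ^ 2) := by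
    have hHc := continuous_HH m ρ
    have : Continuous fun r : ℝ => a ^ 2 / (a ^ 2 + r ^ 2) :=
      continuous_const.div (by fun_prop) (fun r => by positivity)
    fun_prop
  rw [intervalIntegral.integral_eq_sub_of_hasDerivAt (fun r _ => h1 r)
      (hc.intervalIntegrable _ _)]
  have e0 : a ^ 2 / (a ^ 2 + 0 ^ 2) = 1 := by
    rw [zero_pow two_ne_zero, add_zero, div_self ha2.ne']
  rw [e0]
  set y4 := a ^ 2 / (a ^ 2 + 2 ^ 2) with hy4
  have hy4pos : 0 ≤ y4 := by positivity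
  have hy4lt : y4 < 1 := by rw [hy4, div_lt_one (by positivity)]; linarith
  have h7 := T_le s T hT hT0 hs hy4pos hy4lt
  have h8 : 1 - y4 = 4 / (a ^ 2 + 2 ^ 2) := by
    rw [hy4]; field_simp; ring
  rw [h8, Real.log_div (by norm_num) (by positivity)] at h7
  rw [Real.log_div (by norm_num) ha2.ne']
  have e1 : a ^ 2 + (0:ℝ) ^ 2 = a ^ 2 := by ring
  rw [e1]
  generalize Real.log (a ^ 2 + 2 ^ 2) = L4 at *
  generalize T y4 = T4 at *
  linarith

/-- **General bound.** -/
theorem energy_ge (m : ℕ) (ρ : ℕ → ℝ) (s T : ℝ → ℝ) (hsc : Continuous s)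
    (hT : ∀ y, HasDerivAt T (s y) y) (hT0 : T 0 = 0)
    (hs : ∀ y, 0 ≤ y → y ≤ 1 → (1 - y) * s y ≤ 1)
    (hH : ∀ y, HH m ρ y = y + y ^ 2 * s y)
    (hR : ∀ κ, 0 ≤ κ → 0 ≤ RR m ρ κ) (hS : 0 < 1 + s 1)
    {N : ℕ} (hN : 1 ≤ N) (x : Fin N → E3) (hx : ∀ i, ‖x i‖ = 1) (hinj : Function.Injective x) :
    (N:ℝ) ^ 2 / 4 * (Real.log N + T 1 - 1 - Real.log (1 + s 1)) ≤
      ∑ i, ∑ j, if i = j then (0:ℝ) else 1 / ‖x i - x j‖ ^ 2 := by
  have hN0 : (0:ℝ) < N := by exact_mod_cast hN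
  set S := 1 + s 1 with hSdef
  set a : ℝ := Real.sqrt (4 * S / N) with hadef
  have hquot : 0 < 4 * S / N := by positivity
  have ha : 0 < a := Real.sqrt_pos.mpr hquot
  have ha2 : a ^ 2 = 4 * S / N := Real.sq_sqrt hquot.le
  have ha2pos : 0 < a ^ 2 := by positivity
  have h1 := HH_sum_ge m ρ hR ha x hx
  have h2 := mean_ge m ρ s T hsc hT hT0 hs hH ha
  have h3 : ∀ i j, HH m ρ (a ^ 2 / (a ^ 2 + ‖x i - x j‖ ^ 2)) / a ^ 2 ≤
      (if i = j then (0:ℝ) else 1 / ‖x i - x j‖ ^ 2) + (if i = j then S / a ^ 2 else 0) := by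
    intro i j
    by_cases hij : i = j
    · subst hij
      rw [if_pos rfl, if_pos rfl, sub_self, norm_zero, hH]
      have e0 : a ^ 2 / (a ^ 2 + 0 ^ 2) = 1 := by
        rw [zero_pow two_ne_zero, add_zero, div_self ha2pos.ne']
      rw [e0, hSdef]
      simp
    · rw [if_neg hij, if_neg hij, add_zero, hH]
      have hr : 0 < ‖x i - x j‖ := by
        rw [norm_pos_iff, sub_ne_zero]
        exact fun h => hij (hinj h)
      set r := ‖x i - x j‖ with hrdef
      have hD : 0 < a ^ 2 + r ^ 2 := by positivity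
      set y := a ^ 2 / (a ^ 2 + r ^ 2) with hy
      have hy0 : 0 < y := by positivity
      have hy1 : y ≤ 1 := by rw [hy, div_le_one hD]; nlinarith
      have h4 := hs y hy0.le hy1
      have h5 : 1 - y = r ^ 2 / (a ^ 2 + r ^ 2) := by rw [hy]; field_simp; ring
      -- H(y)(1-y) ≤ y
      have h6 : (y + y ^ 2 * s y) * (1 - y) ≤ y := by
        nlinarith [mul_le_mul_of_nonneg_left h4 (sq_nonneg y)]
      rw [div_le_div_iff₀ ha2pos (by positivity)]
      rw [h5] at h6
      have h7 : (y + y ^ 2 * s y) * r ^ 2 ≤ y * (a ^ 2 + r ^ 2) := by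
        have := mul_le_mul_of_nonneg_right h6 hD.le
        calc (y + y ^ 2 * s y) * r ^ 2
            = (y + y ^ 2 * s y) * (r ^ 2 / (a ^ 2 + r ^ 2)) * (a ^ 2 + r ^ 2) := by
              field_simp
          _ ≤ _ := this
      have h8 : y * (a ^ 2 + r ^ 2) = a ^ 2 := by rw [hy]; field_simp
      linarith
  have h4 : ∑ i, ∑ j, HH m ρ (a ^ 2 / (a ^ 2 + ‖x i - x j‖ ^ 2)) / a ^ 2 ≤
      (∑ i, ∑ j, if i = j then (0:ℝ) else 1 / ‖x i - x j‖ ^ 2) + N * (S / a ^ 2) := by
    calc _ ≤ ∑ i, ∑ j, ((if i = j then (0:ℝ) else 1 / ‖x i - x j‖ ^ 2) +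
          (if i = j then S / a ^ 2 else 0)) :=
          Finset.sum_le_sum fun i _ => Finset.sum_le_sum fun j _ => h3 i j
      _ = _ := by
          simp_rw [Finset.sum_add_distrib]
          congr 1
          simp
  have h5 : (N:ℝ) ^ 2 * ((Real.log (4 / a ^ 2) + T 1) / 4) ≤
      (∑ i, ∑ j, if i = j then (0:ℝ) else 1 / ‖x i - x j‖ ^ 2) + N * (S / a ^ 2) :=
    (mul_le_mul_of_nonneg_left h2 (by positivity)).trans (h1.trans h4)
  have h6 : 4 / a ^ 2 = N / S := by rw [ha2]; field_simp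
  have h7 : (N:ℝ) * (S / a ^ 2) = (N:ℝ) ^ 2 / 4 := by rw [ha2]; field_simp
  rw [h6, h7, Real.log_div hN0.ne' hS.ne'] at h5
  linarith

end Pool.Agent.Lib.MP_b06be4_an
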