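import Pool.Agent.Lib.MP_b06be4_an.Points

/-!
Adding two polar caps made of rows with `1, 3, 5, …` points.
-/

open Real Finset

namespace Pool.Agent.Lib.MP_b06be4_an.Upper

/-- Number of points per row. -/
def Mcap (K B : ℕ) (M' : ℕ → ℕ) (b : ℕ) : ℕ :=
  if b < K then 2 * b + 1 else if b < K + B then M' (b - K) else 2 * (K + B + K - 1 - b) + 1

/-- Number of rows. -/
def pcap (K B : ℕ) (p' : ℕ → ℕ) (b : ℕ) : ℕ :=
  if b < K then 1 else if b < K + B then p' (b - K) else 1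

variable {K B : ℕ} {M' p' : ℕ → ℕ}

theorem Mcap_low {b : ℕ} (hb : b < K) : Mcap K B M' b = 2 * b + 1 := by simp [Mcap, hb]
theorem pcap_low {b : ℕ} (hb : b < K) : pcap K B p' b = 1 := by simp [pcap, hb]
theorem Mcap_mid {b : ℕ} (hb : b < B) : Mcap K B M' (K + b) = M' b := by
  simp [Mcap, hb]
theorem pcap_mid {b : ℕ} (hb : b < B) : pcap K B p' (K + b) = p' b := by
  simp [pcap, hb]
theorem Mcap_high {j : ℕ} : Mcap K B M' (K + B + j) = 2 * (K - 1 - j) + 1 := by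
  unfold Mcap
  rw [if_neg (by omega), if_neg (by omega)]
  congr 2
  omega
theorem pcap_high {j : ℕ} : pcap K B p' (K + B + j) = 1 := by
  unfold pcap
  rw [if_neg (by omega), if_neg (by omega)]

theorem Pc_succ (M p : ℕ → ℕ) (b : ℕ) : Pc M p (b + 1) = Pc M p b + p b * M b := by
  unfold Pc; rw [Finset.sum_range_succ]

theorem Pc_low {b : ℕ} (hb : b ≤ K) : Pc (Mcap K B M') (pcap K B p') b = b ^ 2 := by
  induction b with
  | zero => simp [Pc]
  | succ b ih =>
    rw [Pc_succ, ih (by omega), Mcap_low (by omega), pcap_low (by omega)]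
    ring

theorem Pc_mid {b : ℕ} (hb : b ≤ B) :
    Pc (Mcap K B M') (pcap K B p') (K + b) = K ^ 2 + Pc M' p' b := by
  induction b with
  | zero => rw [add_zero, Pc_low le_rfl]; simp [Pc]
  | succ b ih =>
    rw [← add_assoc, Pc_succ, ih (by omega), Mcap_mid (by omega), pcap_mid (by omega), Pc_succ]
    ring

theorem Pc_high {j : ℕ} (hj : j ≤ K) :
    Pc (Mcap K B M') (pcap K B p') (K + B + j) + (K - j) ^ 2 = 2 * K ^ 2 + Pc M' p' B := by
  induction j with
  | zero => rw [add_zero, Pc_mid le_rfl]; simp; ring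
  | succ j ih =>
    have h1 := ih (by omega)
    rw [← add_assoc, Pc_succ, Mcap_high, pcap_high]
    obtain ⟨d, rfl⟩ : ∃ d, K = j + 1 + d := ⟨K - (j + 1), by omega⟩
    have e1 : j + 1 + d - j = d + 1 := by omega
    have e2 : j + 1 + d - (j + 1) = d := by omega
    have e3 : j + 1 + d - 1 - j = d := by omega
    rw [e1] at h1
    rw [e2, e3]
    linarith [h1, (by ring : (d + 1) ^ 2 = d ^ 2 + 2 * d + 1)]

theorem Pc_total : Pc (Mcap K B M') (pcap K B p') (K + B + K) = 2 * K ^ 2 + Pc M' p' B := by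
  have h1 := Pc_high (B := B) (M' := M') (p' := p') (le_refl K)
  simpa using h1

theorem sum_odd (K : ℕ) : ∑ k ∈ range K, (2 * (k:ℝ) + 1) = (K:ℝ) ^ 2 := by
  induction K with
  | zero => simp
  | succ K ih => rw [Finset.sum_range_succ, ih]; push_cast; ring

/-- Height of the row `i` of the band `b` of the middle part. -/
noncomputable def zm (K : ℕ) (M' p' : ℕ → ℕ) (N : ℝ) (b i : ℕ) : ℝ :=
  -1 + 2 * ((K:ℝ) ^ 2 + Pc M' p' b) / N + (2 * i + 1) * M' b / N

theorem polar_bounds {N z : ℝ} {k : ℕ} (hN : 0 < N) (hz : N * (1 - z ^ 2) = (2 * (k:ℝ) ^ 2 +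
    2 * k + 1) * (2 - (2 * (k:ℝ) ^ 2 + 2 * k + 1) / N)) (hk : 2 * (k:ℝ) ^ 2 + 2 * k + 1 ≤ N) :
    N * (1 / 2) * (1 - z ^ 2) ≤ (2 * (k:ℝ) + 1) ^ 2 ∧
      (2 * (k:ℝ) + 1) ^ 2 ≤ N * 2 * (1 - z ^ 2) := by
  have hk0 : (0:ℝ) ≤ k := Nat.cast_nonneg k
  have h1 : (2 * (k:ℝ) ^ 2 + 2 * k + 1) / N ≤ 1 := by rwa [div_le_one hN]
  have h2 : 0 ≤ (2 * (k:ℝ) ^ 2 + 2 * k + 1) / N := by positivity
  have h3 : 0 < 2 * (k:ℝ) ^ 2 + 2 * k + 1 := by positivity
  constructor
  · have h4 : N * (1 / 2) * (1 - z ^ 2) = 1 / 2 * (N * (1 - z ^ 2)) := by ring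
    rw [h4, hz]
    nlinarith [mul_nonneg h3.le h2]
  · have h4 : N * 2 * (1 - z ^ 2) = 2 * (N * (1 - z ^ 2)) := by ring
    rw [h4, hz]
    nlinarith [mul_le_mul_of_nonneg_left h1 h3.le]

theorem conf_caps (K B : ℕ) (M' p' : ℕ → ℕ) (hN : 0 < 2 * K ^ 2 + Pc M' p' B)
    (hM : ∀ b < B, 0 < M' b) {a c : ℝ} (ha : 0 < a) {N : ℝ}
    (hNN : N = ((2 * K ^ 2 + Pc M' p' B : ℕ) : ℝ))
    (hlow : ∀ b < B, ∀ i < p' b, ∀ i' < p' b,
      N * a * (1 - zm K M' p' N b i * zm K M' p' N b i') ≤ (M' b : ℝ) ^ 2)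
    (hup : ∀ b < B, ∀ i < p' b, ∀ i' < p' b, (M' b : ℝ) ^ 2 ≤ N * c *
      (Real.sqrt (1 - (zm K M' p' N b i) ^ 2) * Real.sqrt (1 - (zm K M' p' N b i') ^ 2))) :
    Conf (2 * K ^ 2 + Pc M' p' B) (1 + (K:ℝ) ^ 2 * (N / 2) *
      (2 / 3 + Real.log N + Real.log 2) + ∑ b ∈ range B, (M' b : ℝ) * (N / 4) *
      (p' b * (c / 3 + Real.log (N / (4 * a))) + 2 * ∑ i ∈ range (p' b), GG a c i)) := by
  set M := Mcap K B M' with hMdef
  set p := pcap K B p' with hpdef
  have htot : Pc M p (K + B + K) = 2 * K ^ 2 + Pc M' p' B := Pc_total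
  have hNc : (Pc M p (K + B + K) : ℝ) = N := by rw [htot, hNN]
  have hN0 : 0 < N := by rw [hNN]; exact_mod_cast hN
  have hN2 : N = 2 * (K:ℝ) ^ 2 + (Pc M' p' B : ℝ) := by rw [hNN]; push_cast; ring
  have hPB : (0:ℝ) ≤ (Pc M' p' B : ℝ) := Nat.cast_nonneg _
  set a' : ℕ → ℝ := fun b => if b < K then 1 / 2 else if b < K + B then a else 1 / 2 with ha'
  set c' : ℕ → ℝ := fun b => if b < K then 2 else if b < K + B then c else 2 with hc'
  have hcase : ∀ b < K + B + K, b < K ∨ (∃ b' < B, b = K + b') ∨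
      (∃ j < K, b = K + B + j) := by
    intro b hb
    by_cases h1 : b < K
    · exact Or.inl h1
    · by_cases h2 : b < K + B
      · exact Or.inr (Or.inl ⟨b - K, by omega, by omega⟩)
      · exact Or.inr (Or.inr ⟨b - (K + B), by omega, by omega⟩)
  have a'low : ∀ b < K, a' b = 1 / 2 := fun b hb => by simp [ha', hb]
  have c'low : ∀ b < K, c' b = 2 := fun b hb => by simp [hc', hb]
  have a'mid : ∀ b < B, a' (K + b) = a := fun b hb => by simp [ha', hb]
  have c'mid : ∀ b < B, c' (K + b) = c := fun b hb => by simp [hc', hb]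
  have a'high : ∀ j, a' (K + B + j) = 1 / 2 := fun j => by
    simp only [ha']; rw [if_neg (by omega), if_neg (by omega)]
  have c'high : ∀ j, c' (K + B + j) = 2 := fun j => by
    simp only [hc']; rw [if_neg (by omega), if_neg (by omega)]
  have hM1 : ∀ b < K + B + K, 0 < M b := by
    intro b hb
    rcases hcase b hb with h1 | ⟨b', h1, rfl⟩ | ⟨j, h1, rfl⟩
    · rw [hMdef, Mcap_low h1]; omega
    · rw [hMdef, Mcap_mid h1]; exact hM b' h1
    · rw [hMdef, Mcap_high]; omega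
  have ha1 : ∀ b < K + B + K, 0 < a' b := by
    intro b hb
    rcases hcase b hb with h1 | ⟨b', h1, rfl⟩ | ⟨j, h1, rfl⟩
    · rw [a'low b h1]; norm_num
    · rw [a'mid b' h1]; exact ha
    · rw [a'high]; norm_num
  -- heights
  have zlow : ∀ b < K, zr M p N b 0 = -1 + (2 * (b:ℝ) ^ 2 + 2 * b + 1) / N := by
    intro b hb
    unfold zr Zb
    rw [hMdef, hpdef, Pc_low hb.le, Mcap_low hb]
    push_cast
    ring
  have zmid : ∀ b < B, ∀ i, zr M p N (K + b) i = zm K M' p' N b i := by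
    intro b hb i
    unfold zr Zb zm
    rw [hMdef, hpdef, Pc_mid hb.le, Mcap_mid hb]
    push_cast
    ring
  have zhigh : ∀ j < K, zr M p N (K + B + j) 0 =
      1 - (2 * ((K - 1 - j : ℕ):ℝ) ^ 2 + 2 * ((K - 1 - j : ℕ):ℝ) + 1) / N := by
    intro j hj
    obtain ⟨d, rfl⟩ : ∃ d, K = j + 1 + d := ⟨K - (j + 1), by omega⟩
    have e3 : j + 1 + d - 1 - j = d := by omega
    have h1 := Pc_high (B := B) (M' := M') (p' := p') (show j ≤ j + 1 + d by omega)
    have e4 : j + 1 + d - j = d + 1 := by omega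
    rw [e4] at h1
    have h2 : (Pc M p (j + 1 + d + B + j) : ℝ) = N - ((d:ℝ) + 1) ^ 2 := by
      have h3 : ((Pc (Mcap (j + 1 + d) B M') (pcap (j + 1 + d) B p') (j + 1 + d + B + j) +
        (d + 1) ^ 2 : ℕ) : ℝ) = N := by rw [h1, hNN]
      push_cast at h3
      rw [hMdef, hpdef]
      linarith
    unfold zr Zb
    rw [h2, hMdef, Mcap_high, e3]
    push_cast
    field_simp
    ring
  have hkN : ∀ k < K, 2 * (k:ℝ) ^ 2 + 2 * k + 1 ≤ N := by
    intro k hk
    have hk' : (k:ℝ) + 1 ≤ K := by exact_mod_cast hk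
    have hk0 : (0:ℝ) ≤ k := Nat.cast_nonneg k
    rw [hN2]
    nlinarith
  have hzz : ∀ k : ℕ, N * (1 - (-1 + (2 * (k:ℝ) ^ 2 + 2 * k + 1) / N) ^ 2) = (2 * (k:ℝ) ^ 2 +
      2 * k + 1) * (2 - (2 * (k:ℝ) ^ 2 + 2 * k + 1) / N) := by
    intro k
    field_simp
    ring
  have hzz' : ∀ k : ℕ, N * (1 - (1 - (2 * (k:ℝ) ^ 2 + 2 * k + 1) / N) ^ 2) = (2 * (k:ℝ) ^ 2 +
      2 * k + 1) * (2 - (2 * (k:ℝ) ^ 2 + 2 * k + 1) / N) := by
    intro k
    field_simp
    ring
  have hsq : ∀ x : ℝ, 0 ≤ 1 - x ^ 2 → Real.sqrt (1 - x ^ 2) * Real.sqrt (1 - x ^ 2) =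
      1 - x ^ 2 := fun x hx => Real.mul_self_sqrt hx
  have hlow1 : ∀ b < K + B + K, ∀ i < p b, ∀ i' < p b,
      (Pc M p (K + B + K) : ℝ) * a' b * (1 - zr M p (Pc M p (K + B + K)) b i *
        zr M p (Pc M p (K + B + K)) b i') ≤ (M b : ℝ) ^ 2 := by
    intro b hb i hi i' hi'
    rw [hNc]
    rcases hcase b hb with h1 | ⟨b', h1, rfl⟩ | ⟨j, h1, rfl⟩
    · rw [hpdef, pcap_low h1] at hi hi'
      obtain rfl : i = 0 := by omega
      obtain rfl : i' = 0 := by omega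
      rw [a'low b h1, zlow b h1, hMdef, Mcap_low h1, ← sq]
      push_cast
      exact (polar_bounds hN0 (hzz b) (hkN b h1)).1
    · rw [hpdef, pcap_mid h1] at hi hi'
      rw [a'mid b' h1, zmid b' h1, zmid b' h1, hMdef, Mcap_mid h1]
      exact hlow b' h1 i hi i' hi'
    · rw [hpdef, pcap_high] at hi hi'
      obtain rfl : i = 0 := by omega
      obtain rfl : i' = 0 := by omega
      rw [a'high, zhigh j h1, hMdef, Mcap_high, ← sq]
      have := (polar_bounds hN0 (hzz' (K - 1 - j)) (hkN (K - 1 - j) (by omega))).1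
      push_cast at this ⊢
      exact this
  have hup1 : ∀ b < K + B + K, ∀ i < p b, ∀ i' < p b,
      (M b : ℝ) ^ 2 ≤ (Pc M p (K + B + K) : ℝ) * c' b *
      (Real.sqrt (1 - (zr M p (Pc M p (K + B + K)) b i) ^ 2) *
        Real.sqrt (1 - (zr M p (Pc M p (K + B + K)) b i') ^ 2)) := by
    intro b hb i hi i' hi'
    have hMb := hM1 b hb
    have hzmem := zr_mem hN0 hNc.symm hb hMb hi
    rw [hNc]
    rcases hcase b hb with h1 | ⟨b', h1, rfl⟩ | ⟨j, h1, rfl⟩
    · rw [hpdef, pcap_low h1] at hi hi'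
      obtain rfl : i = 0 := by omega
      obtain rfl : i' = 0 := by omega
      rw [hsq _ (by nlinarith [hzmem.1, hzmem.2])]
      rw [c'low b h1, zlow b h1, hMdef, Mcap_low h1]
      push_cast
      exact (polar_bounds hN0 (hzz b) (hkN b h1)).2
    · rw [hpdef, pcap_mid h1] at hi hi'
      rw [c'mid b' h1, zmid b' h1, zmid b' h1, hMdef, Mcap_mid h1]
      exact hup b' h1 i hi i' hi'
    · rw [hpdef, pcap_high] at hi hi'
      obtain rfl : i = 0 := by omega
      obtain rfl : i' = 0 := by omega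
      rw [hsq _ (by nlinarith [hzmem.1, hzmem.2])]
      rw [c'high, zhigh j h1, hMdef, Mcap_high]
      have := (polar_bounds hN0 (hzz' (K - 1 - j)) (hkN (K - 1 - j) (by omega))).2
      push_cast at this ⊢
      exact this
  have hmain := conf_of_bands (M := M) (p := p) (n := K + B + K) (by rw [htot]; exact hN) hM1
    a' c' ha1 hlow1 hup1
  rw [htot, ← hNN] at hmain
  refine hmain.mono (le_of_eq ?_)
  rw [Finset.sum_range_add, Finset.sum_range_add]
  have hG0 : GG (1 / 2) 2 0 = Real.log 2 := by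
    unfold GG HH
    rw [Finset.range_zero, Finset.sum_empty, Nat.cast_zero, zero_add, one_div, Real.log_inv]
    ring
  have hlogN : Real.log (N / (4 * (1 / 2))) = Real.log N - Real.log 2 := by
    rw [show (4:ℝ) * (1 / 2) = 2 by norm_num, Real.log_div hN0.ne' (by norm_num)]
  have s1 : ∑ x ∈ range K, (M x : ℝ) * (N / 4) *
      ((p x : ℝ) * (c' x / 3 + Real.log (N / (4 * a' x))) +
        2 * ∑ i ∈ range (p x), GG (a' x) (c' x) i) =
      (K:ℝ) ^ 2 * (N / 4) * (2 / 3 + Real.log N + Real.log 2) := by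
    have e : ∀ x ∈ range K, (M x : ℝ) * (N / 4) *
      ((p x : ℝ) * (c' x / 3 + Real.log (N / (4 * a' x))) +
        2 * ∑ i ∈ range (p x), GG (a' x) (c' x) i) =
      (2 * (x:ℝ) + 1) * ((N / 4) * (2 / 3 + Real.log N + Real.log 2)) := by
      intro x hx
      have hx' := mem_range.1 hx
      rw [a'low x hx', c'low x hx', hMdef, hpdef, Mcap_low hx', pcap_low hx', hlogN,
        Finset.range_one, Finset.sum_singleton, hG0]
      push_cast
      ring
    rw [Finset.sum_congr rfl e, ← Finset.sum_mul, sum_odd]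
    ring
  have s3 : ∑ x ∈ range K, (M (K + B + x) : ℝ) * (N / 4) *
      ((p (K + B + x) : ℝ) * (c' (K + B + x) / 3 + Real.log (N / (4 * a' (K + B + x)))) +
        2 * ∑ i ∈ range (p (K + B + x)), GG (a' (K + B + x)) (c' (K + B + x)) i) =
      (K:ℝ) ^ 2 * (N / 4) * (2 / 3 + Real.log N + Real.log 2) := by
    have e : ∀ x ∈ range K, (M (K + B + x) : ℝ) * (N / 4) *
      ((p (K + B + x) : ℝ) * (c' (K + B + x) / 3 + Real.log (N / (4 * a' (K + B + x)))) +
        2 * ∑ i ∈ range (p (K + B + x)), GG (a' (K + B + x)) (c' (K + B + x)) i) =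
      (2 * ((K - 1 - x : ℕ):ℝ) + 1) * ((N / 4) * (2 / 3 + Real.log N + Real.log 2)) := by
      intro x hx
      rw [a'high x, c'high x, hMdef, hpdef, Mcap_high, pcap_high, hlogN,
        Finset.range_one, Finset.sum_singleton, hG0]
      push_cast
      ring
    rw [Finset.sum_congr rfl e, ← Finset.sum_mul,
      Finset.sum_range_reflect (fun x : ℕ => 2 * (x:ℝ) + 1) K, sum_odd]
    ring
  have s2 : ∑ x ∈ range B, (M (K + x) : ℝ) * (N / 4) *
      ((p (K + x) : ℝ) * (c' (K + x) / 3 + Real.log (N / (4 * a' (K + x)))) +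
        2 * ∑ i ∈ range (p (K + x)), GG (a' (K + x)) (c' (K + x)) i) =
      ∑ b ∈ range B, (M' b : ℝ) * (N / 4) *
      (p' b * (c / 3 + Real.log (N / (4 * a))) + 2 * ∑ i ∈ range (p' b), GG a c i) := by
    refine Finset.sum_congr rfl fun x hx => ?_
    have hx' := mem_range.1 hx
    rw [a'mid x hx', c'mid x hx', hMdef, hpdef, Mcap_mid hx', pcap_mid hx']
  rw [s1, s2, s3]
  ring

end Pool.Agent.Lib.MP_b06be4_an.Upper
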