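import Pool.Agent.Lib.MP_b06be4_an.RowPair

/-!
Configurations made of bands of equally spaced rows with the same number of points in each row.
-/

open Real Finset

namespace Pool.Agent.Lib.MP_b06be4_an.Upper

/-- Number of points in the first `b` bands. -/
def Pc (M p : ℕ → ℕ) (b : ℕ) : ℕ := ∑ c ∈ range b, p c * M c

/-- Height of the lower boundary of band `b`. -/
noncomputable def Zb (M p : ℕ → ℕ) (N : ℝ) (b : ℕ) : ℝ := -1 + 2 * Pc M p b / N

/-- Height of row `i` of band `b`. -/
noncomputable def zr (M p : ℕ → ℕ) (N : ℝ) (b i : ℕ) : ℝ :=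
  Zb M p N b + (2 * i + 1) * M b / N

variable {M p : ℕ → ℕ} {N : ℝ}

theorem Zb_zero : Zb M p N 0 = -1 := by simp [Zb, Pc]

theorem Zb_succ (b : ℕ) : Zb M p N (b + 1) = Zb M p N b + 2 * p b * M b / N := by
  unfold Zb Pc
  rw [Finset.sum_range_succ]
  push_cast
  ring

theorem Zb_mono (hN : 0 < N) : Monotone (Zb M p N) := by
  apply monotone_nat_of_le_succ
  intro b
  rw [Zb_succ]
  have : 0 ≤ 2 * (p b : ℝ) * M b / N := by positivity
  linarith

theorem Zb_last {n : ℕ} (hN : 0 < N) (h : N = Pc M p n) : Zb M p N n = 1 := by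
  unfold Zb
  rw [← h]
  field_simp
  norm_num

theorem zr_gt (hN : 0 < N) {b : ℕ} (hM : 0 < M b) (i : ℕ) : Zb M p N b < zr M p N b i := by
  have hM' : (0:ℝ) < M b := by exact_mod_cast hM
  have : 0 < (2 * (i:ℝ) + 1) * M b / N := by positivity
  unfold zr
  linarith

theorem zr_lt (hN : 0 < N) {b : ℕ} (hM : 0 < M b) {i : ℕ} (hi : i < p b) :
    zr M p N b i < Zb M p N (b + 1) := by
  have hM' : (0:ℝ) < M b := by exact_mod_cast hM
  have hi' : (i:ℝ) + 1 ≤ p b := by exact_mod_cast hi
  rw [Zb_succ]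
  unfold zr
  have : (2 * (i:ℝ) + 1) * M b / N < 2 * p b * M b / N := by
    apply div_lt_div_of_pos_right _ hN
    nlinarith
  linarith

theorem zr_mem {n : ℕ} (hN : 0 < N) (h : N = Pc M p n) {b i : ℕ} (hb : b < n) (hM : 0 < M b)
    (hi : i < p b) : zr M p N b i ∈ Set.Ioo (-1:ℝ) 1 := by
  constructor
  · have h1 := Zb_mono (M := M) (p := p) hN (Nat.zero_le b)
    rw [Zb_zero] at h1
    exact lt_of_le_of_lt h1 (zr_gt hN hM i)
  · have h1 := Zb_mono (M := M) (p := p) hN (Nat.succ_le_of_lt hb)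
    rw [Zb_last hN h] at h1
    exact lt_of_lt_of_le (zr_lt hN hM hi) h1

/-- The basic comparison used for telescoping. -/
theorem log_tele {u w : ℝ} (hu : 0 < u) (hw : u < w) :
    2 * (u / w) ≤ Real.log (w + u) - Real.log (w - u) := by
  have hw0 : 0 < w := hu.trans hw
  have hx : |u / w| < 1 := by
    rw [abs_of_pos (by positivity), div_lt_one hw0]
    exact hw
  have h1 := Real.hasSum_log_sub_log_of_abs_lt_one hx
  have h2 := h1.summable.sum_le_tsum (range 1) (fun i _ => by positivity)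
  rw [h1.tsum_eq] at h2
  simp only [range_one, sum_singleton, Nat.cast_zero, mul_zero, zero_add, div_one, mul_one,
    pow_one] at h2
  have h3 : Real.log (w + u) - Real.log (w - u) = Real.log (1 + u / w) - Real.log (1 - u / w) := by
    have e1 : w + u = w * (1 + u / w) := by field_simp
    have e2 : w - u = w * (1 - u / w) := by field_simp
    rw [e1, e2, Real.log_mul hw0.ne' (by positivity), Real.log_mul hw0.ne'
      (by have := (abs_lt.1 hx).2; linarith)]
    ring
  rw [h3]
  exact h2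

/-- One band below the height `z`. -/
theorem band_below (hN : 0 < N) {c : ℕ} (hM : 0 < M c) {z : ℝ} (hz : Zb M p N (c + 1) < z) :
    ∑ i ∈ range (p c), (M c : ℝ) / (2 * (z - zr M p N c i)) ≤
      N / 4 * (Real.log (z - Zb M p N c) - Real.log (z - Zb M p N (c + 1))) := by
  have hM' : (0:ℝ) < M c := by exact_mod_cast hM
  have h1 : ∀ i ∈ range (p c), (M c : ℝ) / (2 * (z - zr M p N c i)) ≤
      N / 4 * (Real.log (z - Zb M p N c - 2 * (i:ℕ) * M c / N) -
        Real.log (z - Zb M p N c - 2 * ((i + 1 : ℕ) : ℝ) * M c / N)) := by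
    intro i hi
    rw [mem_range] at hi
    have hi' : (i:ℝ) + 1 ≤ p c := by exact_mod_cast hi
    rw [Zb_succ] at hz
    have h2 : 2 * ((i:ℝ) + 1) * M c / N ≤ 2 * p c * M c / N := by gcongr
    have h3 : (M c : ℝ) / N < z - zr M p N c i := by
      unfold zr
      have : (2 * (i:ℝ) + 1) * M c / N + M c / N = 2 * ((i:ℝ) + 1) * M c / N := by ring
      linarith
    have h4 := log_tele (by positivity : 0 < (M c : ℝ) / N) h3
    have e1 : z - zr M p N c i + M c / N = z - Zb M p N c - 2 * (i:ℕ) * M c / N := by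
      unfold zr; ring
    have e2 : z - zr M p N c i - M c / N = z - Zb M p N c - 2 * ((i + 1 : ℕ) : ℝ) * M c / N := by
      unfold zr; push_cast; ring
    rw [e1, e2] at h4
    have hpos : 0 < z - zr M p N c i := lt_trans (by positivity) h3
    calc (M c : ℝ) / (2 * (z - zr M p N c i)) = N / 4 * (2 * (M c / N / (z - zr M p N c i))) := by
          field_simp
          ring
      _ ≤ _ := by gcongr
  refine (Finset.sum_le_sum h1).trans ?_
  rw [← Finset.mul_sum, Finset.sum_range_sub' (fun i : ℕ =>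
    Real.log (z - Zb M p N c - 2 * (i:ℝ) * M c / N)) (p c)]
  rw [Zb_succ]
  have e1 : z - Zb M p N c - 2 * ((0:ℕ):ℝ) * M c / N = z - Zb M p N c := by simp
  have e2 : z - (Zb M p N c + 2 * p c * M c / N) = z - Zb M p N c - 2 * p c * M c / N := by ring
  rw [e1, e2]

/-- One band above the height `z`. -/
theorem band_above (hN : 0 < N) {c : ℕ} (hM : 0 < M c) {z : ℝ} (hz : z < Zb M p N c) :
    ∑ i ∈ range (p c), (M c : ℝ) / (2 * (zr M p N c i - z)) ≤
      N / 4 * (Real.log (Zb M p N (c + 1) - z) - Real.log (Zb M p N c - z)) := by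
  have hM' : (0:ℝ) < M c := by exact_mod_cast hM
  have h1 : ∀ i ∈ range (p c), (M c : ℝ) / (2 * (zr M p N c i - z)) ≤
      N / 4 * (Real.log (Zb M p N c + 2 * ((i + 1 : ℕ) : ℝ) * M c / N - z) -
        Real.log (Zb M p N c + 2 * (i:ℕ) * M c / N - z)) := by
    intro i hi
    have h3 : (M c : ℝ) / N < zr M p N c i - z := by
      unfold zr
      have : (2 * (i:ℝ) + 1) * M c / N = 2 * (i:ℝ) * M c / N + M c / N := by ring
      have h5 : 0 ≤ 2 * (i:ℝ) * M c / N := by positivity
      linarith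
    have h4 := log_tele (by positivity : 0 < (M c : ℝ) / N) h3
    have e1 : zr M p N c i - z - M c / N = Zb M p N c + 2 * (i:ℕ) * M c / N - z := by
      unfold zr; ring
    have e2 : zr M p N c i - z + M c / N =
        Zb M p N c + 2 * ((i + 1 : ℕ) : ℝ) * M c / N - z := by
      unfold zr; push_cast; ring
    rw [e1, e2] at h4
    have hpos : 0 < zr M p N c i - z := lt_trans (by positivity) h3
    calc (M c : ℝ) / (2 * (zr M p N c i - z)) = N / 4 * (2 * (M c / N / (zr M p N c i - z))) := by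
          field_simp
          ring
      _ ≤ _ := by gcongr
  refine (Finset.sum_le_sum h1).trans ?_
  rw [← Finset.mul_sum, Finset.sum_range_sub (fun i : ℕ =>
    Real.log (Zb M p N c + 2 * (i:ℝ) * M c / N - z)) (p c)]
  rw [Zb_succ]
  have e1 : Zb M p N c + 2 * ((0:ℕ):ℝ) * M c / N - z = Zb M p N c - z := by simp
  rw [e1]

/-- All bands below band `b`. -/
theorem bands_below (hN : 0 < N) {b : ℕ} (hM : ∀ c < b, 0 < M c) {z : ℝ}
    (hz : Zb M p N b < z) :
    ∑ c ∈ range b, ∑ i ∈ range (p c), (M c : ℝ) / (2 * (z - zr M p N c i)) ≤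
      N / 4 * (Real.log (1 + z) - Real.log (z - Zb M p N b)) := by
  have h1 : ∀ c ∈ range b, ∑ i ∈ range (p c), (M c : ℝ) / (2 * (z - zr M p N c i)) ≤
      N / 4 * (Real.log (z - Zb M p N c) - Real.log (z - Zb M p N (c + 1))) := by
    intro c hc
    rw [mem_range] at hc
    exact band_below hN (hM c hc) (lt_of_le_of_lt (Zb_mono hN (Nat.succ_le_of_lt hc)) hz)
  refine (Finset.sum_le_sum h1).trans ?_
  rw [← Finset.mul_sum, Finset.sum_range_sub' (fun c : ℕ => Real.log (z - Zb M p N c)) b,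
    Zb_zero]
  have e1 : z - -1 = 1 + z := by ring
  rw [e1]

/-- All bands above band `b`. -/
theorem bands_above (hN : 0 < N) {n b : ℕ} (h : N = Pc M p n) (hb : b < n)
    (hM : ∀ c < n, 0 < M c) {z : ℝ} (hz : z < Zb M p N (b + 1)) :
    ∑ c ∈ Ico (b + 1) n, ∑ i ∈ range (p c), (M c : ℝ) / (2 * (zr M p N c i - z)) ≤
      N / 4 * (Real.log (1 - z) - Real.log (Zb M p N (b + 1) - z)) := by
  have h1 : ∀ c ∈ Ico (b + 1) n, ∑ i ∈ range (p c), (M c : ℝ) / (2 * (zr M p N c i - z)) ≤
      N / 4 * (Real.log (Zb M p N (c + 1) - z) - Real.log (Zb M p N c - z)) := by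
    intro c hc
    rw [mem_Ico] at hc
    exact band_above hN (hM c hc.2) (lt_of_lt_of_le hz (Zb_mono hN hc.1))
  refine (Finset.sum_le_sum h1).trans ?_
  rw [← Finset.mul_sum, Finset.sum_Ico_sub (fun c : ℕ => Real.log (Zb M p N c - z)) hb,
    Zb_last hN h]

/-- The local sum. -/
noncomputable def HH (a c : ℝ) (m : ℕ) : ℝ := ∑ k ∈ range m, FF a c (k + 1) / ((k + 1 : ℕ) : ℝ)

/-- The local sum minus the logarithm. -/
noncomputable def GG (a c : ℝ) (m : ℕ) : ℝ := HH a c m - Real.log (m + 1 / 2)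

/-- The point `j` of the row `i` in the band `b`. -/
noncomputable def XX (M p : ℕ → ℕ) (N : ℝ) (θ : ℕ → ℝ) (b i j : ℕ) : EuclideanSpace ℝ (Fin 3) :=
  pt (θ b + π * i / M b + 2 * π * j / M b) (zr M p N b i)

/-- Energy between two bands. -/
noncomputable def TT (M p : ℕ → ℕ) (N : ℝ) (θ : ℕ → ℝ) (b c : ℕ) : ℝ :=
  ∑ i ∈ range (p b), ∑ j ∈ range (M b), ∑ i' ∈ range (p c), ∑ j' ∈ range (M c),
    1 / ‖XX M p N θ b i j - XX M p N θ c i' j'‖ ^ 2

theorem TT_comm (θ : ℕ → ℝ) (b c : ℕ) : TT M p N θ b c = TT M p N θ c b := by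
  unfold TT
  have h1 : ∀ (i j i' j' : ℕ), 1 / ‖XX M p N θ b i j - XX M p N θ c i' j'‖ ^ 2 =
      1 / ‖XX M p N θ c i' j' - XX M p N θ b i j‖ ^ 2 := by
    intro i j i' j'
    rw [norm_sub_rev]
  calc ∑ i ∈ range (p b), ∑ j ∈ range (M b), ∑ i' ∈ range (p c), ∑ j' ∈ range (M c),
        1 / ‖XX M p N θ b i j - XX M p N θ c i' j'‖ ^ 2
      = ∑ i ∈ range (p b), ∑ i' ∈ range (p c), ∑ j ∈ range (M b), ∑ j' ∈ range (M c),
        1 / ‖XX M p N θ b i j - XX M p N θ c i' j'‖ ^ 2 := by
        refine Finset.sum_congr rfl fun i _ => ?_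
        rw [Finset.sum_comm]
    _ = ∑ i ∈ range (p b), ∑ i' ∈ range (p c), ∑ j' ∈ range (M c), ∑ j ∈ range (M b),
        1 / ‖XX M p N θ c i' j' - XX M p N θ b i j‖ ^ 2 := by
        refine Finset.sum_congr rfl fun i _ => Finset.sum_congr rfl fun i' _ => ?_
        rw [Finset.sum_comm]
        refine Finset.sum_congr rfl fun j _ => Finset.sum_congr rfl fun j' _ => ?_
        rw [h1]
    _ = ∑ i' ∈ range (p c), ∑ i ∈ range (p b), ∑ j' ∈ range (M c), ∑ j ∈ range (M b),
        1 / ‖XX M p N θ c i' j' - XX M p N θ b i j‖ ^ 2 := by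
        rw [Finset.sum_comm]
    _ = _ := by
        refine Finset.sum_congr rfl fun i' _ => ?_
        rw [Finset.sum_comm]

theorem sum_symm_eq (f : ℕ → ℕ → ℝ) (hf : ∀ a b, f a b = f b a) (n : ℕ) :
    ∑ a ∈ range n, ∑ b ∈ range n, f a b =
      ∑ a ∈ range n, f a a + 2 * ∑ a ∈ range n, ∑ b ∈ range a, f a b := by
  induction n with
  | zero => simp
  | succ n ih =>
    rw [Finset.sum_range_succ, Finset.sum_range_succ (fun a => f a a),
      Finset.sum_range_succ (fun a => ∑ b ∈ range a, f a b)]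
    simp_rw [Finset.sum_range_succ _ n]
    rw [Finset.sum_add_distrib, ih]
    have : ∑ x ∈ range n, f x n = ∑ x ∈ range n, f n x :=
      Finset.sum_congr rfl fun x _ => hf x n
    rw [this]
    ring

/-- The averaged interaction between two bands. -/
noncomputable def JJ (M p : ℕ → ℕ) (N : ℝ) (b c : ℕ) : ℝ :=
  ∑ i ∈ range (p b), ∑ i' ∈ range (p c), (M b : ℝ) * M c / (2 * (zr M p N b i - zr M p N c i'))

/-- Existence of rotations. -/
theorem exists_theta (n : ℕ) (hN : 0 < N) (h : N = Pc M p n) (hM : ∀ b < n, 0 < M b)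
    {ε : ℝ} (hε : 0 < ε) :
    ∃ θ : ℕ → ℝ, ∀ b < n, ∑ c ∈ range b, TT M p N θ b c ≤ (1 + ε) * ∑ c ∈ range b,
      JJ M p N b c := by
  have key : ∀ k ≤ n, ∃ θ : ℕ → ℝ, ∀ b < k, ∑ c ∈ range b, TT M p N θ b c ≤
      (1 + ε) * ∑ c ∈ range b, JJ M p N b c := by
    intro k
    induction k with
    | zero => intro _; exact ⟨fun _ => 0, fun b hb => absurd hb (Nat.not_lt_zero b)⟩
    | succ k ih =>
      intro hk
      obtain ⟨θ, hθ⟩ := ih (by omega)
      have hkn : k < n := by omega
      set S : Finset (Σ _ : ℕ, ((ℕ × ℕ) × (ℕ × ℕ))) := (range k).sigma (fun c =>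
        ((range (p k) ×ˢ range (M k)) ×ˢ (range (p c) ×ˢ range (M c)))) with hS
      set D : (Σ _ : ℕ, ((ℕ × ℕ) × (ℕ × ℕ))) → ℝ := fun s =>
        2 * Real.sqrt (1 - (zr M p N k s.2.1.1) ^ 2) *
          Real.sqrt (1 - (zr M p N s.1 s.2.2.1) ^ 2) with hDdef
      set t : (Σ _ : ℕ, ((ℕ × ℕ) × (ℕ × ℕ))) → ℝ := fun s =>
        Real.artanh (zr M p N k s.2.1.1) - Real.artanh (zr M p N s.1 s.2.2.1) with htdef
      set φ : (Σ _ : ℕ, ((ℕ × ℕ) × (ℕ × ℕ))) → ℝ := fun s =>
        (π * s.2.1.1 / M k + 2 * π * s.2.1.2 / M k) -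
          (θ s.1 + π * s.2.2.1 / M s.1 + 2 * π * s.2.2.2 / M s.1) with hφdef
      have hmemS : ∀ s ∈ S, s.1 < k ∧ s.2.1.1 < p k ∧ s.2.2.1 < p s.1 := by
        intro s hs
        rw [hS, Finset.mem_sigma, Finset.mem_product, Finset.mem_product, Finset.mem_product] at hs
        simp only [mem_range] at hs
        exact ⟨hs.1, hs.2.1.1, hs.2.2.1⟩
      have hz1 : ∀ s ∈ S, zr M p N k s.2.1.1 ∈ Set.Ioo (-1:ℝ) 1 := fun s hs =>
        zr_mem hN h hkn (hM k hkn) (hmemS s hs).2.1
      have hz2 : ∀ s ∈ S, zr M p N s.1 s.2.2.1 ∈ Set.Ioo (-1:ℝ) 1 := fun s hs =>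
        zr_mem hN h (lt_trans (hmemS s hs).1 hkn) (hM _ (lt_trans (hmemS s hs).1 hkn))
          (hmemS s hs).2.2
      have hlt : ∀ s ∈ S, zr M p N s.1 s.2.2.1 < zr M p N k s.2.1.1 := by
        intro s hs
        have h1 := zr_lt hN (hM _ (lt_trans (hmemS s hs).1 hkn)) (hmemS s hs).2.2
        have h2 := Zb_mono (M := M) (p := p) hN (Nat.succ_le_of_lt (hmemS s hs).1)
        have h3 := zr_gt (M := M) (p := p) hN (hM k hkn) s.2.1.1
        exact lt_of_lt_of_le h1 (h2.trans h3.le)
      have hsq1 : ∀ s ∈ S, 0 < Real.sqrt (1 - (zr M p N k s.2.1.1) ^ 2) := by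
        intro s hs
        have := hz1 s hs
        exact Real.sqrt_pos.2 (by nlinarith [this.1, this.2])
      have hsq2 : ∀ s ∈ S, 0 < Real.sqrt (1 - (zr M p N s.1 s.2.2.1) ^ 2) := by
        intro s hs
        have := hz2 s hs
        exact Real.sqrt_pos.2 (by nlinarith [this.1, this.2])
      have hD : ∀ s ∈ S, 0 < D s := by
        intro s hs
        have := hsq1 s hs
        have := hsq2 s hs
        positivity
      have hDs : ∀ s ∈ S, D s * Real.sinh (t s) =
          2 * (zr M p N k s.2.1.1 - zr M p N s.1 s.2.2.1) := by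
        intro s hs
        rw [← tau_sinh (hz1 s hs) (hz2 s hs)]
        ring
      have ht : ∀ s ∈ S, 0 < t s := by
        intro s hs
        have h1 := hDs s hs
        have h2 := hlt s hs
        have h3 := hD s hs
        have h4 : 0 < D s * Real.sinh (t s) := by rw [h1]; linarith
        exact Real.sinh_pos_iff.1 (pos_of_mul_pos_right h4 h3.le)
      obtain ⟨θs, hθs⟩ := exists_rotation S D t φ hD ht hε
      refine ⟨Function.update θ k θs, ?_⟩
      intro b hb
      rcases Nat.lt_succ_iff_lt_or_eq.1 hb with hb' | rfl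
      · have e1 : ∀ c ∈ range b, TT M p N (Function.update θ k θs) b c = TT M p N θ b c := by
          intro c hc
          rw [mem_range] at hc
          unfold TT XX
          rw [Function.update_of_ne (by omega), Function.update_of_ne (by omega)]
        rw [Finset.sum_congr rfl e1]
        exact hθ b hb'
      · have e1 : ∑ c ∈ range b, TT M p N (Function.update θ b θs) b c =
            ∑ s ∈ S, 1 / (D s * (Real.cosh (t s) - Real.cos (θs + φ s))) := by
          rw [hS, Finset.sum_sigma]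
          refine Finset.sum_congr rfl fun c hc => ?_
          have hc' := mem_range.1 hc
          rw [Finset.sum_product, Finset.sum_product]
          unfold TT
          refine Finset.sum_congr rfl fun i hi => Finset.sum_congr rfl fun j hj => ?_
          rw [Finset.sum_product]
          refine Finset.sum_congr rfl fun i' hi' => Finset.sum_congr rfl fun j' hj' => ?_
          have hmem : (⟨c, ((i, j), (i', j'))⟩ : (Σ _ : ℕ, ((ℕ × ℕ) × (ℕ × ℕ)))) ∈ S := by
            rw [hS, Finset.mem_sigma]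
            exact ⟨hc, Finset.mem_product.2 ⟨Finset.mem_product.2 ⟨hi, hj⟩,
              Finset.mem_product.2 ⟨hi', hj'⟩⟩⟩
          unfold XX
          rw [Function.update_self, Function.update_of_ne (by omega),
            dist_sq_tau (hz1 _ hmem) (hz2 _ hmem)]
          congr 4
          simp only [hφdef]
          ring
        have e2 : ∑ c ∈ range b, JJ M p N b c = ∑ s ∈ S, 1 / (D s * Real.sinh (t s)) := by
          rw [Finset.sum_congr rfl (fun s hs => by rw [hDs s hs] :
            ∀ s ∈ S, 1 / (D s * Real.sinh (t s)) =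
              1 / (2 * (zr M p N b s.2.1.1 - zr M p N s.1 s.2.2.1)))]
          rw [hS, Finset.sum_sigma]
          refine Finset.sum_congr rfl fun c hc => ?_
          rw [Finset.sum_product, Finset.sum_product]
          unfold JJ
          refine Finset.sum_congr rfl fun i hi => ?_
          simp only [Finset.sum_const, Finset.card_range, nsmul_eq_mul, Finset.sum_product]
          rw [Finset.mul_sum]
          refine Finset.sum_congr rfl fun i' hi' => ?_
          ring
        rw [e1, e2]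
        exact hθs
  exact key n le_rfl

end Pool.Agent.Lib.MP_b06be4_an.Upper
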