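import Pool.Agent.Lib.MP_b06be4_an.Config

/-!
Energy of a banded configuration.
-/

open Real Finset

namespace Pool.Agent.Lib.MP_b06be4_an.Upper

variable {M p : ℕ → ℕ} {N : ℝ}

theorem sum_split (f : ℕ → ℝ) {i p : ℕ} (hi : i < p) :
    ∑ k ∈ range p, f k = ∑ k ∈ range i, f k + f i + ∑ k ∈ range (p - 1 - i), f (i + 1 + k) := by
  rw [← Finset.sum_range_succ f i, show p - 1 - i = p - (i + 1) by omega,
    ← Finset.sum_Ico_eq_sum_range f (i + 1) p, Finset.sum_range_add_sum_Ico f (by omega)]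

theorem band_self {n : ℕ} (hN : 0 < N) (h : N = Pc M p n) {b : ℕ} (hb : b < n) (hM : 0 < M b)
    {a c : ℝ} (ha : 0 < a)
    (hlow : ∀ i < p b, ∀ i' < p b, N * a * (1 - zr M p N b i * zr M p N b i') ≤ (M b : ℝ) ^ 2)
    (hup : ∀ i < p b, ∀ i' < p b, (M b : ℝ) ^ 2 ≤ N * c *
      (Real.sqrt (1 - (zr M p N b i) ^ 2) * Real.sqrt (1 - (zr M p N b i') ^ 2)))
    (θ : ℕ → ℝ) :
    TT M p N θ b b ≤ ∑ i ∈ range (p b), (M b : ℝ) * (N / 4) *
      (c / 3 + HH a c i + HH a c (p b - 1 - i)) := by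
  have hM' : (0:ℝ) < M b := by exact_mod_cast hM
  unfold TT
  refine Finset.sum_le_sum fun i hi => ?_
  have hi' : i < p b := mem_range.1 hi
  rw [Finset.sum_comm]
  have hz : ∀ i < p b, zr M p N b i ∈ Set.Ioo (-1:ℝ) 1 := fun i hi => zr_mem hN h hb hM hi
  -- rows below
  have hbelow : ∀ i' ∈ range i, ∑ j ∈ range (M b), ∑ j' ∈ range (M b),
      1 / ‖XX M p N θ b i j - XX M p N θ b i' j'‖ ^ 2 ≤
      (M b : ℝ) * (N / 4) * (FF a c (i - 1 - i' + 1) / ((i - 1 - i' + 1 : ℕ) : ℝ)) := by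
    intro i' hi'2
    have hlt : i' < i := mem_range.1 hi'2
    have hsub : i - 1 - i' + 1 = i - i' := by omega
    rw [hsub]
    have hcast : ((i - i' : ℕ) : ℝ) = i - i' := by
      rw [Nat.cast_sub hlt.le]
    have hi3 : i' < p b := by omega
    apply row_row_le hM (by omega) hN ha (hz i hi') (hz i' hi3) _ (hlow i hi' i' hi3)
      (hup i hi' i' hi3)
    · rw [hcast]
      field_simp
      ring
    · rw [hcast]
      unfold zr
      ring
  -- rows above
  have habove : ∀ k ∈ range (p b - 1 - i), ∑ j ∈ range (M b), ∑ j' ∈ range (M b),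
      1 / ‖XX M p N θ b i j - XX M p N θ b (i + 1 + k) j'‖ ^ 2 ≤
      (M b : ℝ) * (N / 4) * (FF a c (k + 1) / ((k + 1 : ℕ) : ℝ)) := by
    intro k hk
    have hk' := mem_range.1 hk
    have hi3 : i + 1 + k < p b := by omega
    rw [Finset.sum_comm]
    simp_rw [norm_sub_rev (XX M p N θ b i _)]
    apply row_row_le hM (by omega) hN ha (hz _ hi3) (hz i hi') _ (hlow _ hi3 i hi')
      (hup _ hi3 i hi')
    · push_cast
      field_simp
      ring
    · unfold zr
      push_cast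
      ring
  have hself : ∑ j ∈ range (M b), ∑ j' ∈ range (M b),
      1 / ‖XX M p N θ b i j - XX M p N θ b i j'‖ ^ 2 ≤ (M b : ℝ) * (N / 4) * (c / 3) := by
    apply row_self_le hM hN (hz i hi')
    have h1 := hup i hi' i hi'
    rwa [Real.mul_self_sqrt (by have := hz i hi'; nlinarith [this.1, this.2])] at h1
  have hsplit : ∑ i' ∈ range (p b), ∑ j ∈ range (M b), ∑ j' ∈ range (M b),
      1 / ‖XX M p N θ b i j - XX M p N θ b i' j'‖ ^ 2 =
      ∑ i' ∈ range i, ∑ j ∈ range (M b), ∑ j' ∈ range (M b),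
        1 / ‖XX M p N θ b i j - XX M p N θ b i' j'‖ ^ 2 +
      ∑ j ∈ range (M b), ∑ j' ∈ range (M b),
        1 / ‖XX M p N θ b i j - XX M p N θ b i j'‖ ^ 2 +
      ∑ k ∈ range (p b - 1 - i), ∑ j ∈ range (M b), ∑ j' ∈ range (M b),
        1 / ‖XX M p N θ b i j - XX M p N θ b (i + 1 + k) j'‖ ^ 2 := by
    exact sum_split _ hi'
  have hgoal : ∑ y ∈ range (p b), ∑ x ∈ range (M b), ∑ j' ∈ range (M b),
      1 / ‖XX M p N θ b i x - XX M p N θ b y j'‖ ^ 2 ≤
      (M b : ℝ) * (N / 4) * (c / 3 + HH a c i + HH a c (p b - 1 - i)) := by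
    rw [hsplit]
    have h1 := Finset.sum_le_sum hbelow
    have h2 := Finset.sum_le_sum habove
    have h3 : ∑ i' ∈ range i, (M b : ℝ) * (N / 4) *
        (FF a c (i - 1 - i' + 1) / ((i - 1 - i' + 1 : ℕ) : ℝ)) =
        (M b : ℝ) * (N / 4) * HH a c i := by
      rw [← Finset.mul_sum]
      congr 1
      exact Finset.sum_range_reflect (fun k => FF a c (k + 1) / ((k + 1 : ℕ) : ℝ)) i
    have h4 : ∑ k ∈ range (p b - 1 - i), (M b : ℝ) * (N / 4) *
        (FF a c (k + 1) / ((k + 1 : ℕ) : ℝ)) =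
        (M b : ℝ) * (N / 4) * HH a c (p b - 1 - i) := by
      rw [← Finset.mul_sum]; rfl
    rw [h3] at h1
    rw [h4] at h2
    linarith
  exact hgoal

/-- The contribution of a row. -/
theorem row_total {n : ℕ} (hN : 0 < N) (h : N = Pc M p n) {b : ℕ} (hb : b < n) (hM : 0 < M b)
    {a : ℝ} (ha : 0 < a) {i : ℕ} (hi : i < p b)
    (hlow : N * a * (1 - zr M p N b i * zr M p N b i) ≤ (M b : ℝ) ^ 2) :
    (Real.log (1 + zr M p N b i) - Real.log (zr M p N b i - Zb M p N b)) +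
    (Real.log (1 - zr M p N b i) - Real.log (Zb M p N (b + 1) - zr M p N b i)) ≤
    Real.log (N / (4 * a)) - Real.log (i + 1 / 2) -
      Real.log (((p b - 1 - i : ℕ) : ℝ) + 1 / 2) := by
  have hM' : (0:ℝ) < M b := by exact_mod_cast hM
  have hz := zr_mem hN h hb hM hi
  set z := zr M p N b i with hzdef
  have hcast : ((p b - 1 - i : ℕ) : ℝ) = p b - 1 - i := by
    rw [Nat.cast_sub (by omega), Nat.cast_sub (by omega)]
    push_cast
    ring
  have hi' : (i:ℝ) + 1 ≤ p b := by exact_mod_cast hi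
  have e1 : z - Zb M p N b = (2 * M b / N) * (i + 1 / 2) := by
    rw [hzdef]; unfold zr; ring
  have e2 : Zb M p N (b + 1) - z = (2 * M b / N) * (((p b - 1 - i : ℕ) : ℝ) + 1 / 2) := by
    rw [hzdef, Zb_succ, hcast]; unfold zr; ring
  have hu : 0 < 2 * (M b : ℝ) / N := by positivity
  have hi0 : (0:ℝ) < (i:ℝ) + 1 / 2 := by positivity
  have hi1 : (0:ℝ) < ((p b - 1 - i : ℕ) : ℝ) + 1 / 2 := by positivity
  have hz0 : 0 < 1 + z := by linarith [hz.1]
  have hz1 : 0 < 1 - z := by linarith [hz.2]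
  rw [e1, e2, Real.log_mul hu.ne' hi0.ne', Real.log_mul hu.ne' hi1.ne']
  have h1 : Real.log (1 + z) + Real.log (1 - z) - 2 * Real.log (2 * M b / N) ≤
      Real.log (N / (4 * a)) := by
    rw [← Real.log_mul hz0.ne' hz1.ne']
    have h2 : 2 * Real.log (2 * M b / N) = Real.log ((2 * M b / N) ^ 2) := by
      rw [Real.log_pow]; push_cast; ring
    rw [h2, ← Real.log_div (by positivity) (by positivity)]
    apply Real.log_le_log (by positivity)
    rw [div_le_div_iff₀ (by positivity) (by positivity)]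
    have h3 : N * ((2 * (M b : ℝ) / N) ^ 2) = 4 * (M b : ℝ) ^ 2 / N := by
      field_simp; ring
    rw [h3, le_div_iff₀ hN]
    nlinarith
  linarith

theorem exists_small (X : ℝ) : ∃ ε : ℝ, 0 < ε ∧ 2 * ε * X ≤ 1 := by
  refine ⟨1 / (2 * (|X| + 1)), by positivity, ?_⟩
  have h1 : X ≤ |X| := le_abs_self X
  have h2 : 2 * (1 / (2 * (|X| + 1))) * X = X / (|X| + 1) := by field_simp
  rw [h2, div_le_one (by positivity)]
  linarith

theorem energy_le {n : ℕ} (hN : 0 < N) (h : N = Pc M p n) (hM : ∀ b < n, 0 < M b)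
    (a c : ℕ → ℝ) (ha : ∀ b < n, 0 < a b)
    (hlow : ∀ b < n, ∀ i < p b, ∀ i' < p b,
      N * a b * (1 - zr M p N b i * zr M p N b i') ≤ (M b : ℝ) ^ 2)
    (hup : ∀ b < n, ∀ i < p b, ∀ i' < p b, (M b : ℝ) ^ 2 ≤ N * c b *
      (Real.sqrt (1 - (zr M p N b i) ^ 2) * Real.sqrt (1 - (zr M p N b i') ^ 2))) :
    ∃ θ : ℕ → ℝ, ∑ b ∈ range n, ∑ b' ∈ range n, TT M p N θ b b' ≤
      1 + ∑ b ∈ range n, (M b : ℝ) * (N / 4) * (p b * (c b / 3 + Real.log (N / (4 * a b))) +
        2 * ∑ i ∈ range (p b), GG (a b) (c b) i) := by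
  obtain ⟨X, hX⟩ : ∃ X : ℝ, X = ∑ b ∈ range n, ∑ b' ∈ range b, JJ M p N b b' := ⟨_, rfl⟩
  obtain ⟨ε, hε, hε1⟩ := exists_small X
  obtain ⟨θ, hθ⟩ := exists_theta n hN h hM hε
  refine ⟨θ, ?_⟩
  rw [sum_symm_eq _ (TT_comm θ)]
  have h1 : ∑ b ∈ range n, ∑ b' ∈ range b, TT M p N θ b b' ≤ (1 + ε) * X := by
    rw [hX, Finset.mul_sum]
    exact Finset.sum_le_sum fun b hb => hθ b (mem_range.1 hb)
  have h2 : ∑ b ∈ range n, TT M p N θ b b ≤ ∑ b ∈ range n, ∑ i ∈ range (p b),
      (M b : ℝ) * (N / 4) * (c b / 3 + HH (a b) (c b) i + HH (a b) (c b) (p b - 1 - i)) := by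
    refine Finset.sum_le_sum fun b hb => ?_
    have hb' := mem_range.1 hb
    exact band_self hN h hb' (hM b hb') (ha b hb') (hlow b hb') (hup b hb') θ
  have h3 : X ≤ ∑ b ∈ range n, ∑ i ∈ range (p b), (M b : ℝ) * (N / 4) *
      (Real.log (1 + zr M p N b i) - Real.log (zr M p N b i - Zb M p N b)) := by
    rw [hX]
    refine Finset.sum_le_sum fun b hb => ?_
    have hb' := mem_range.1 hb
    have e : ∑ b' ∈ range b, JJ M p N b b' = ∑ i ∈ range (p b), (M b : ℝ) *
        ∑ b' ∈ range b, ∑ i' ∈ range (p b'),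
          (M b' : ℝ) / (2 * (zr M p N b i - zr M p N b' i')) := by
      unfold JJ
      rw [Finset.sum_comm]
      refine Finset.sum_congr rfl fun i _ => ?_
      rw [Finset.mul_sum]
      refine Finset.sum_congr rfl fun b' _ => ?_
      rw [Finset.mul_sum]
      refine Finset.sum_congr rfl fun i' _ => ?_
      ring
    rw [e]
    refine Finset.sum_le_sum fun i hi => ?_
    have h4 := bands_below (M := M) (p := p) hN (b := b) (fun c hc => hM c (hc.trans hb'))
      (zr_gt hN (hM b hb') i)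
    rw [mul_assoc]
    exact mul_le_mul_of_nonneg_left h4 (Nat.cast_nonneg _)
  have h4 : X ≤ ∑ b ∈ range n, ∑ i ∈ range (p b), (M b : ℝ) * (N / 4) *
      (Real.log (1 - zr M p N b i) - Real.log (Zb M p N (b + 1) - zr M p N b i)) := by
    have e0 : X = ∑ b ∈ range n, ∑ c ∈ Ico (b + 1) n, JJ M p N c b := by
      have e1 := Finset.sum_Ico_Ico_comm' 0 n (fun i j => JJ M p N j i)
      simp only [Nat.Ico_zero_eq_range] at e1
      rw [hX, e1]
    rw [e0]
    refine Finset.sum_le_sum fun b hb => ?_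
    have hb' := mem_range.1 hb
    have e : ∑ c ∈ Ico (b + 1) n, JJ M p N c b = ∑ i ∈ range (p b), (M b : ℝ) *
        ∑ b' ∈ Ico (b + 1) n, ∑ i' ∈ range (p b'),
          (M b' : ℝ) / (2 * (zr M p N b' i' - zr M p N b i)) := by
      unfold JJ
      calc ∑ c ∈ Ico (b + 1) n, ∑ i' ∈ range (p c), ∑ i ∈ range (p b),
            (M c : ℝ) * M b / (2 * (zr M p N c i' - zr M p N b i))
          = ∑ c ∈ Ico (b + 1) n, ∑ i ∈ range (p b), ∑ i' ∈ range (p c),
            (M c : ℝ) * M b / (2 * (zr M p N c i' - zr M p N b i)) := by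
            refine Finset.sum_congr rfl fun c _ => ?_
            rw [Finset.sum_comm]
        _ = _ := by
            rw [Finset.sum_comm]
            refine Finset.sum_congr rfl fun i _ => ?_
            rw [Finset.mul_sum]
            refine Finset.sum_congr rfl fun b' _ => ?_
            rw [Finset.mul_sum]
            refine Finset.sum_congr rfl fun i' _ => ?_
            ring
    rw [e]
    refine Finset.sum_le_sum fun i hi => ?_
    have h4 := bands_above (M := M) (p := p) hN h hb' hM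
      (zr_lt hN (hM b hb') (mem_range.1 hi))
    rw [mul_assoc]
    exact mul_le_mul_of_nonneg_left h4 (Nat.cast_nonneg _)
  have h5 : ∑ b ∈ range n, ∑ i ∈ range (p b), (M b : ℝ) * (N / 4) *
        (c b / 3 + HH (a b) (c b) i + HH (a b) (c b) (p b - 1 - i)) +
      (∑ b ∈ range n, ∑ i ∈ range (p b), (M b : ℝ) * (N / 4) *
        (Real.log (1 + zr M p N b i) - Real.log (zr M p N b i - Zb M p N b)) +
      ∑ b ∈ range n, ∑ i ∈ range (p b), (M b : ℝ) * (N / 4) *
        (Real.log (1 - zr M p N b i) - Real.log (Zb M p N (b + 1) - zr M p N b i))) ≤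
      ∑ b ∈ range n, (M b : ℝ) * (N / 4) * (p b * (c b / 3 + Real.log (N / (4 * a b))) +
        2 * ∑ i ∈ range (p b), GG (a b) (c b) i) := by
    rw [← Finset.sum_add_distrib, ← Finset.sum_add_distrib]
    refine Finset.sum_le_sum fun b hb => ?_
    have hb' := mem_range.1 hb
    rw [← Finset.sum_add_distrib, ← Finset.sum_add_distrib]
    have h6 : ∑ i ∈ range (p b), GG (a b) (c b) (p b - 1 - i) =
        ∑ i ∈ range (p b), GG (a b) (c b) i := Finset.sum_range_reflect _ _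
    have h7 : (M b : ℝ) * (N / 4) * (p b * (c b / 3 + Real.log (N / (4 * a b))) +
        2 * ∑ i ∈ range (p b), GG (a b) (c b) i) = ∑ i ∈ range (p b), (M b : ℝ) * (N / 4) *
        ((c b / 3 + Real.log (N / (4 * a b))) + (GG (a b) (c b) i +
          GG (a b) (c b) (p b - 1 - i))) := by
      rw [← Finset.mul_sum, Finset.sum_add_distrib, Finset.sum_add_distrib (f := fun i =>
        GG (a b) (c b) i), h6, Finset.sum_const, Finset.card_range, nsmul_eq_mul]
      ring
    rw [h7]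
    refine Finset.sum_le_sum fun i hi => ?_
    have hi' := mem_range.1 hi
    have h8 := row_total hN h hb' (hM b hb') (ha b hb') hi' (hlow b hb' i hi' i hi')
    rw [← mul_add, ← mul_add]
    apply mul_le_mul_of_nonneg_left _ (by positivity)
    unfold GG
    linarith
  nlinarith

end Pool.Agent.Lib.MP_b06be4_an.Upper
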