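import Pool.Agent.Lib.MP_b06be4_an.Series

/-!
The limit of the energies of the banded configurations.
-/

open Real Finset Filter Topology

namespace Pool.Agent.Lib.MP_b06be4_an.Upper

/-- Width of a band. -/
noncomputable def Del (κ : ℝ) (B : ℕ) : ℝ := 2 * (1 - 2 * κ ^ 2) / B
/-- Limit height of the boundary of a band. -/
noncomputable def zt (κ : ℝ) (B b : ℕ) : ℝ := -1 + 2 * κ ^ 2 + b * Del κ B
/-- Limit of the number of points per row. -/
noncomputable def mm (κ al : ℝ) (B b : ℕ) : ℝ := Real.sqrt (al * (1 - (zt κ B b) ^ 2))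
/-- Limit of the number of rows. -/
noncomputable def rr (κ al : ℝ) (B b : ℕ) : ℝ := Del κ B / (2 * mm κ al B b)
/-- Number of polar rows. -/
noncomputable def KL (κ : ℝ) (L : ℕ) : ℕ := ⌊κ * L⌋₊
/-- Number of points per row. -/
noncomputable def ML (κ al : ℝ) (B L b : ℕ) : ℕ := ⌊mm κ al B b * L⌋₊
/-- Number of rows per band. -/
noncomputable def pL (κ al : ℝ) (B L b : ℕ) : ℕ := ⌊rr κ al B b * L⌋₊
/-- Total number of points. -/
noncomputable def NL (κ al : ℝ) (B L : ℕ) : ℕ :=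
  2 * (KL κ L) ^ 2 + Pc (ML κ al B L) (pL κ al B L) B

theorem floor_tendsto {x : ℝ} (hx : 0 ≤ x) :
    Tendsto (fun L : ℕ => ((⌊x * L⌋₊ : ℕ) : ℝ) / (L : ℝ)) atTop (𝓝 x) :=
  (tendsto_nat_floor_mul_div_atTop hx).comp tendsto_natCast_atTop_atTop

theorem floor_atTop {x : ℝ} (hx : 0 < x) :
    Tendsto (fun L : ℕ => ⌊x * (L:ℝ)⌋₊) atTop atTop :=
  tendsto_nat_floor_atTop.comp (tendsto_natCast_atTop_atTop.const_mul_atTop hx)

section

variable {κ al : ℝ} {B : ℕ}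

theorem Del_pos (hκ : 2 * κ ^ 2 < 1) (hB : 0 < B) : 0 < Del κ B := by
  have : (0:ℝ) < B := by exact_mod_cast hB
  unfold Del
  apply div_pos _ this
  linarith

theorem zt_ge (hκ : 2 * κ ^ 2 < 1) (hB : 0 < B) (b : ℕ) : -1 + 2 * κ ^ 2 ≤ zt κ B b := by
  have h1 := Del_pos hκ hB
  have h2 : 0 ≤ (b:ℝ) * Del κ B := by positivity
  unfold zt
  linarith

theorem zt_le (hκ : 2 * κ ^ 2 < 1) (hB : 0 < B) {b : ℕ} (hb : b < B) :
    zt κ B b ≤ 1 - 2 * κ ^ 2 := by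
  have h1 := Del_pos hκ hB
  have h2 : (b:ℝ) ≤ B := by exact_mod_cast hb.le
  have h3 : (b:ℝ) * Del κ B ≤ B * Del κ B := by gcongr
  have h4 : (B:ℝ) * Del κ B = 2 * (1 - 2 * κ ^ 2) := by
    have : (0:ℝ) < B := by exact_mod_cast hB
    unfold Del
    field_simp
  unfold zt
  linarith

theorem one_sub_zt_sq (hκ : 2 * κ ^ 2 < 1) (hB : 0 < B) {b : ℕ} (hb : b < B) :
    2 * κ ^ 2 ≤ 1 - (zt κ B b) ^ 2 := by
  have h1 := zt_ge hκ hB b
  have h2 := zt_le hκ hB hb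
  have h3 : 0 ≤ κ ^ 2 := sq_nonneg κ
  nlinarith

theorem mm_sq (hκ0 : 0 < κ) (hκ : 2 * κ ^ 2 < 1) (hal : 0 < al) (hB : 0 < B) {b : ℕ}
    (hb : b < B) : (mm κ al B b) ^ 2 = al * (1 - (zt κ B b) ^ 2) := by
  unfold mm
  apply Real.sq_sqrt
  have h1 := one_sub_zt_sq hκ hB hb
  have : 0 < κ ^ 2 := by positivity
  have : 0 ≤ 1 - (zt κ B b) ^ 2 := by linarith
  positivity

theorem mm_pos (hκ0 : 0 < κ) (hκ : 2 * κ ^ 2 < 1) (hal : 0 < al) (hB : 0 < B) {b : ℕ}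
    (hb : b < B) : 0 < mm κ al B b := by
  unfold mm
  apply Real.sqrt_pos.2
  have h1 := one_sub_zt_sq hκ hB hb
  have : 0 < κ ^ 2 := by positivity
  have : 0 < 1 - (zt κ B b) ^ 2 := by linarith
  positivity

theorem rr_pos (hκ0 : 0 < κ) (hκ : 2 * κ ^ 2 < 1) (hal : 0 < al) (hB : 0 < B) {b : ℕ}
    (hb : b < B) : 0 < rr κ al B b := by
  have := mm_pos hκ0 hκ hal hB hb
  have := Del_pos hκ hB
  unfold rr
  positivity

theorem rr_mul_mm (hκ0 : 0 < κ) (hκ : 2 * κ ^ 2 < 1) (hal : 0 < al) (hB : 0 < B) {b : ℕ}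
    (hb : b < B) : rr κ al B b * mm κ al B b = Del κ B / 2 := by
  have := mm_pos hκ0 hκ hal hB hb
  unfold rr
  field_simp

theorem K_lim (hκ0 : 0 < κ) : Tendsto (fun L : ℕ => (KL κ L : ℝ) / L) atTop (𝓝 κ) :=
  floor_tendsto hκ0.le

theorem K2_lim (hκ0 : 0 < κ) :
    Tendsto (fun L : ℕ => (KL κ L : ℝ) ^ 2 / (L:ℝ) ^ 2) atTop (𝓝 (κ ^ 2)) := by
  have := (K_lim hκ0).pow 2
  simpa only [div_pow] using this

theorem M_lim (hκ0 : 0 < κ) (hκ : 2 * κ ^ 2 < 1) (hal : 0 < al) (hB : 0 < B) {b : ℕ}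
    (hb : b < B) :
    Tendsto (fun L : ℕ => (ML κ al B L b : ℝ) / L) atTop (𝓝 (mm κ al B b)) :=
  floor_tendsto (mm_pos hκ0 hκ hal hB hb).le

theorem p_lim (hκ0 : 0 < κ) (hκ : 2 * κ ^ 2 < 1) (hal : 0 < al) (hB : 0 < B) {b : ℕ}
    (hb : b < B) :
    Tendsto (fun L : ℕ => (pL κ al B L b : ℝ) / L) atTop (𝓝 (rr κ al B b)) :=
  floor_tendsto (rr_pos hκ0 hκ hal hB hb).le

theorem pM_lim (hκ0 : 0 < κ) (hκ : 2 * κ ^ 2 < 1) (hal : 0 < al) (hB : 0 < B) {b : ℕ}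
    (hb : b < B) :
    Tendsto (fun L : ℕ => ((pL κ al B L b : ℝ) * ML κ al B L b) / (L:ℝ) ^ 2) atTop
      (𝓝 (Del κ B / 2)) := by
  have h := (p_lim hκ0 hκ hal hB hb).mul (M_lim hκ0 hκ hal hB hb)
  rw [rr_mul_mm hκ0 hκ hal hB hb] at h
  refine h.congr fun L => ?_
  rw [div_mul_div_comm, sq]

theorem P_lim (hκ0 : 0 < κ) (hκ : 2 * κ ^ 2 < 1) (hal : 0 < al) (hB : 0 < B) {b : ℕ}
    (hb : b ≤ B) :
    Tendsto (fun L : ℕ => (Pc (ML κ al B L) (pL κ al B L) b : ℝ) / (L:ℝ) ^ 2) atTop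
      (𝓝 (b * (Del κ B / 2))) := by
  have h : Tendsto (fun L : ℕ => ∑ c ∈ range b, ((pL κ al B L c : ℝ) * ML κ al B L c) /
      (L:ℝ) ^ 2) atTop (𝓝 (∑ c ∈ range b, (Del κ B / 2))) := by
    apply tendsto_finsetSum
    intro c hc
    exact pM_lim hκ0 hκ hal hB (lt_of_lt_of_le (mem_range.1 hc) hb)
  rw [Finset.sum_const, Finset.card_range, nsmul_eq_mul] at h
  refine h.congr fun L => ?_
  unfold Pc
  rw [← Finset.sum_div]
  push_cast
  rfl

theorem N_lim (hκ0 : 0 < κ) (hκ : 2 * κ ^ 2 < 1) (hal : 0 < al) (hB : 0 < B) :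
    Tendsto (fun L : ℕ => (NL κ al B L : ℝ) / (L:ℝ) ^ 2) atTop (𝓝 1) := by
  have h1 := ((K2_lim hκ0).const_mul 2).add (P_lim hκ0 hκ hal hB le_rfl)
  have h2 : 2 * κ ^ 2 + B * (Del κ B / 2) = 1 := by
    have : (0:ℝ) < B := by exact_mod_cast hB
    unfold Del
    field_simp
    ring
  rw [h2] at h1
  refine h1.congr fun L => ?_
  unfold NL
  push_cast
  ring

/-- Height of the boundary of the band. -/
noncomputable def ZL (κ al : ℝ) (B L b : ℕ) : ℝ :=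
  -1 + 2 * ((KL κ L : ℝ) ^ 2 + Pc (ML κ al B L) (pL κ al B L) b) / (NL κ al B L : ℝ)

theorem Z_lim (hκ0 : 0 < κ) (hκ : 2 * κ ^ 2 < 1) (hal : 0 < al) (hB : 0 < B) {b : ℕ}
    (hb : b ≤ B) :
    Tendsto (fun L : ℕ => ZL κ al B L b) atTop (𝓝 (zt κ B b)) := by
  have h1 := ((K2_lim hκ0).add (P_lim hκ0 hκ hal hB hb)).div (N_lim hκ0 hκ hal hB) one_ne_zero
  have h2 := (h1.const_mul 2).const_add (-1)
  have h3 : -1 + 2 * ((κ ^ 2 + b * (Del κ B / 2)) / 1) = zt κ B b := by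
    unfold zt
    ring
  rw [h3] at h2
  refine h2.congr' ?_
  filter_upwards [eventually_gt_atTop 0] with L hL
  have hL' : (0:ℝ) < L := by exact_mod_cast hL
  unfold ZL
  simp only [Pi.div_apply]
  rw [← add_div, div_div_div_cancel_right₀ (by positivity : (L:ℝ) ^ 2 ≠ 0)]
  ring

theorem N_pos_ev (hκ0 : 0 < κ) (hκ : 2 * κ ^ 2 < 1) (hal : 0 < al) (hB : 0 < B) :
    ∀ᶠ L : ℕ in atTop, 0 < NL κ al B L := by
  have h1 := (N_lim hκ0 hκ hal hB).eventually (lt_mem_nhds (by norm_num : (0:ℝ) < 1))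
  filter_upwards [h1] with L hL
  by_contra h
  have h2 : NL κ al B L = 0 := by omega
  rw [h2] at hL
  simp at hL

theorem N_atTop (hκ0 : 0 < κ) (hκ : 2 * κ ^ 2 < 1) (hal : 0 < al) (hB : 0 < B) :
    Tendsto (fun L : ℕ => (NL κ al B L : ℝ)) atTop atTop := by
  have h1 := N_lim hκ0 hκ hal hB
  have h2 : Tendsto (fun L : ℕ => (L:ℝ) ^ 2) atTop atTop :=
    (tendsto_pow_atTop (by norm_num)).comp tendsto_natCast_atTop_atTop
  have h3 := h1.pos_mul_atTop one_pos h2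
  refine h3.congr' ?_
  filter_upwards [eventually_gt_atTop 0] with L hL
  have hL' : (0:ℝ) < L := by exact_mod_cast hL
  field_simp

theorem zm_eq (L b i : ℕ) : zm (KL κ L) (ML κ al B L) (pL κ al B L) (NL κ al B L) b i =
    ZL κ al B L b + (2 * i + 1) * ML κ al B L b / (NL κ al B L : ℝ) := rfl

theorem ZL_succ (L b : ℕ) : ZL κ al B L (b + 1) = ZL κ al B L b +
    2 * pL κ al B L b * ML κ al B L b / (NL κ al B L : ℝ) := by
  unfold ZL
  rw [Pc_succ]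
  push_cast
  ring

theorem Pc_mono (M p : ℕ → ℕ) : Monotone (Pc M p) := by
  apply monotone_nat_of_le_succ
  intro b
  rw [Pc_succ]
  omega

theorem ZL_le_one {L b : ℕ} (hb : b ≤ B) (hN : 0 < NL κ al B L) : ZL κ al B L b ≤ 1 := by
  have hN' : (0:ℝ) < NL κ al B L := by exact_mod_cast hN
  have h1 : 2 * ((KL κ L : ℝ) ^ 2 + Pc (ML κ al B L) (pL κ al B L) b) / (NL κ al B L : ℝ) ≤ 2 := by
    rw [div_le_iff₀ hN']
    have h2 : ((Pc (ML κ al B L) (pL κ al B L) b : ℕ) : ℝ) ≤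
        ((Pc (ML κ al B L) (pL κ al B L) B : ℕ) : ℝ) := by
      exact_mod_cast Pc_mono _ _ hb
    have h3 : (NL κ al B L : ℝ) = 2 * (KL κ L : ℝ) ^ 2 +
        ((Pc (ML κ al B L) (pL κ al B L) B : ℕ) : ℝ) := by
      unfold NL; push_cast; ring
    rw [h3]
    have h4 : (0:ℝ) ≤ (KL κ L : ℝ) ^ 2 := by positivity
    linarith
  unfold ZL
  linarith

theorem zm_bounds {L b i : ℕ} (hi : i < pL κ al B L b) :
    ZL κ al B L b ≤ zm (KL κ L) (ML κ al B L) (pL κ al B L) (NL κ al B L) b i ∧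
    zm (KL κ L) (ML κ al B L) (pL κ al B L) (NL κ al B L) b i ≤ ZL κ al B L (b + 1) := by
  rw [zm_eq, ZL_succ]
  have hi' : (i:ℝ) + 1 ≤ pL κ al B L b := by exact_mod_cast hi
  constructor
  · have : 0 ≤ (2 * (i:ℝ) + 1) * ML κ al B L b / (NL κ al B L : ℝ) := by positivity
    linarith
  · have : (2 * (i:ℝ) + 1) * ML κ al B L b / (NL κ al B L : ℝ) ≤
        2 * pL κ al B L b * ML κ al B L b / (NL κ al B L : ℝ) := by
      gcongr
      linarith
    linarith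

theorem ZL_ge (L b : ℕ) : -1 ≤ ZL κ al B L b := by
  unfold ZL
  have : 0 ≤ 2 * ((KL κ L : ℝ) ^ 2 + Pc (ML κ al B L) (pL κ al B L) b) / (NL κ al B L : ℝ) := by
    positivity
  linarith

/-- Uniform closeness of the heights of a band. -/
theorem height_close (hκ0 : 0 < κ) (hκ : 2 * κ ^ 2 < 1) (hal : 0 < al) (hB : 0 < B) {b : ℕ}
    (hb : b < B) : ∃ D : ℕ → ℝ, Tendsto D atTop (𝓝 (Del κ B)) ∧ ∀ L, 0 < NL κ al B L →
      ∀ i < pL κ al B L b, ∀ i' < pL κ al B L b,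
      1 - (zt κ B b) ^ 2 - 2 * D L ≤ 1 -
        zm (KL κ L) (ML κ al B L) (pL κ al B L) (NL κ al B L) b i *
        zm (KL κ L) (ML κ al B L) (pL κ al B L) (NL κ al B L) b i' ∧
      1 - zm (KL κ L) (ML κ al B L) (pL κ al B L) (NL κ al B L) b i *
        zm (KL κ L) (ML κ al B L) (pL κ al B L) (NL κ al B L) b i' ≤
        1 - (zt κ B b) ^ 2 + 2 * D L := by
  refine ⟨fun L => Del κ B + |ZL κ al B L b - zt κ B b| +
    |ZL κ al B L (b + 1) - zt κ B (b + 1)|, ?_, ?_⟩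
  · have h1 := ((Z_lim hκ0 hκ hal hB hb.le).sub_const (zt κ B b)).abs
    have h2 := ((Z_lim hκ0 hκ hal hB (Nat.succ_le_of_lt hb)).sub_const (zt κ B (b + 1))).abs
    rw [sub_self, abs_zero] at h1 h2
    have h3 := (h1.const_add (Del κ B)).add h2
    simpa using h3
  · intro L hN i hi i' hi'
    set z := zm (KL κ L) (ML κ al B L) (pL κ al B L) (NL κ al B L) b i with hz
    set z' := zm (KL κ L) (ML κ al B L) (pL κ al B L) (NL κ al B L) b i' with hz'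
    set ζ := zt κ B b with hζ
    have hD := Del_pos hκ hB
    have hζ1 : zt κ B (b + 1) = ζ + Del κ B := by rw [hζ]; unfold zt; push_cast; ring
    have hb1 := zm_bounds hi
    have hb2 := zm_bounds hi'
    rw [← hz] at hb1
    rw [← hz'] at hb2
    have hlo := ZL_ge (κ := κ) (al := al) (B := B) L b
    have hhi := ZL_le_one (κ := κ) (al := al) (Nat.succ_le_of_lt hb) hN
    have a1 := abs_le.1 (le_refl |ZL κ al B L b - ζ|)
    have a2 := abs_le.1 (le_refl |ZL κ al B L (b + 1) - zt κ B (b + 1)|)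
    have n1 := abs_nonneg (ZL κ al B L b - ζ)
    have n2 := abs_nonneg (ZL κ al B L (b + 1) - zt κ B (b + 1))
    set D := Del κ B + |ZL κ al B L b - ζ| + |ZL κ al B L (b + 1) - zt κ B (b + 1)| with hDdef
    have c1 : |z - ζ| ≤ D := by
      rw [abs_le]
      constructor
      · linarith [a1.1, hb1.1]
      · linarith [a2.2, hb1.2]
    have c2 : |z' - ζ| ≤ D := by
      rw [abs_le]
      constructor
      · linarith [a1.1, hb2.1]
      · linarith [a2.2, hb2.2]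
    have z1 : |z| ≤ 1 := by
      rw [abs_le]; constructor
      · linarith [hb1.1]
      · exact hb1.2.trans hhi
    have ζ1 : |ζ| ≤ 1 := by
      rw [abs_le]
      have := zt_ge hκ hB b
      have := zt_le hκ hB hb
      have : 0 ≤ κ ^ 2 := sq_nonneg κ
      constructor <;> linarith
    have hkey : |z * z' - ζ ^ 2| ≤ 2 * D := by
      have e : z * z' - ζ ^ 2 = z * (z' - ζ) + ζ * (z - ζ) := by ring
      rw [e]
      refine (abs_add_le _ _).trans ?_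
      rw [abs_mul, abs_mul]
      have := mul_le_mul z1 c2 (abs_nonneg _) (by norm_num)
      have := mul_le_mul ζ1 c1 (abs_nonneg _) (by norm_num)
      linarith
    have := abs_le.1 hkey
    constructor <;> linarith [this.1, this.2]

theorem low_ev (hκ0 : 0 < κ) (hκ : 2 * κ ^ 2 < 1) (hal : 0 < al) (hB : 0 < B) {b : ℕ}
    (hb : b < B) {a : ℝ} (ha : 0 < a)
    (h : a * (1 - (zt κ B b) ^ 2 + 2 * Del κ B) < al * (1 - (zt κ B b) ^ 2)) :
    ∀ᶠ L : ℕ in atTop, ∀ i < pL κ al B L b, ∀ i' < pL κ al B L b,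
      (NL κ al B L : ℝ) * a * (1 - zm (KL κ L) (ML κ al B L) (pL κ al B L) (NL κ al B L) b i *
        zm (KL κ L) (ML κ al B L) (pL κ al B L) (NL κ al B L) b i') ≤
        (ML κ al B L b : ℝ) ^ 2 := by
  obtain ⟨D, hD1, hD2⟩ := height_close hκ0 hκ hal hB hb
  have h1 : Tendsto (fun L : ℕ => (NL κ al B L : ℝ) / (L:ℝ) ^ 2 *
      (a * (1 - (zt κ B b) ^ 2 + 2 * D L))) atTop
      (𝓝 (1 * (a * (1 - (zt κ B b) ^ 2 + 2 * Del κ B)))) :=
    (N_lim hκ0 hκ hal hB).mul (((hD1.const_mul 2).const_add _).const_mul a)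
  have h2 : Tendsto (fun L : ℕ => ((ML κ al B L b : ℝ) / (L:ℝ)) ^ 2) atTop
      (𝓝 (al * (1 - (zt κ B b) ^ 2))) := by
    rw [← mm_sq hκ0 hκ hal hB hb]
    exact (M_lim hκ0 hκ hal hB hb).pow 2
  rw [one_mul] at h1
  filter_upwards [h1.eventually_lt h2 h, eventually_gt_atTop 0, N_pos_ev hκ0 hκ hal hB] with
    L hL hL0 hN i hi i' hi'
  have hL' : (0:ℝ) < L := by exact_mod_cast hL0
  have h3 := (hD2 L hN i hi i' hi').2
  have h4 : (NL κ al B L : ℝ) * a * (1 - (zt κ B b) ^ 2 + 2 * D L) ≤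
      (ML κ al B L b : ℝ) ^ 2 := by
    rw [div_pow, div_mul_eq_mul_div, div_lt_div_iff_of_pos_right (by positivity)] at hL
    linarith
  refine le_trans ?_ h4
  gcongr

theorem up_ev (hκ0 : 0 < κ) (hκ : 2 * κ ^ 2 < 1) (hal : 0 < al) (hB : 0 < B) {b : ℕ}
    (hb : b < B) {c : ℝ} (hc : 0 < c)
    (h : al * (1 - (zt κ B b) ^ 2) < c * (1 - (zt κ B b) ^ 2 - 2 * Del κ B)) :
    ∀ᶠ L : ℕ in atTop, ∀ i < pL κ al B L b, ∀ i' < pL κ al B L b,
      (ML κ al B L b : ℝ) ^ 2 ≤ (NL κ al B L : ℝ) * c *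
      (Real.sqrt (1 - (zm (KL κ L) (ML κ al B L) (pL κ al B L) (NL κ al B L) b i) ^ 2) *
       Real.sqrt (1 - (zm (KL κ L) (ML κ al B L) (pL κ al B L) (NL κ al B L) b i') ^ 2)) := by
  obtain ⟨D, hD1, hD2⟩ := height_close hκ0 hκ hal hB hb
  have h1 : Tendsto (fun L : ℕ => (NL κ al B L : ℝ) / (L:ℝ) ^ 2 *
      (c * (1 - (zt κ B b) ^ 2 - 2 * D L))) atTop
      (𝓝 (1 * (c * (1 - (zt κ B b) ^ 2 - 2 * Del κ B)))) :=
    (N_lim hκ0 hκ hal hB).mul (((hD1.const_mul 2).const_sub _).const_mul c)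
  have h2 : Tendsto (fun L : ℕ => ((ML κ al B L b : ℝ) / (L:ℝ)) ^ 2) atTop
      (𝓝 (al * (1 - (zt κ B b) ^ 2))) := by
    rw [← mm_sq hκ0 hκ hal hB hb]
    exact (M_lim hκ0 hκ hal hB hb).pow 2
  rw [one_mul] at h1
  filter_upwards [h2.eventually_lt h1 h, eventually_gt_atTop 0, N_pos_ev hκ0 hκ hal hB] with
    L hL hL0 hN i hi i' hi'
  have hL' : (0:ℝ) < L := by exact_mod_cast hL0
  have hN' : (0:ℝ) < NL κ al B L := by exact_mod_cast hN
  have h4 : (ML κ al B L b : ℝ) ^ 2 ≤ (NL κ al B L : ℝ) * c *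
      (1 - (zt κ B b) ^ 2 - 2 * D L) := by
    rw [div_pow, div_mul_eq_mul_div, div_lt_div_iff_of_pos_right (by positivity)] at hL
    linarith
  have hq0 : 0 ≤ 1 - (zt κ B b) ^ 2 - 2 * D L := by
    by_contra hq
    push Not at hq
    have : (NL κ al B L : ℝ) * c * (1 - (zt κ B b) ^ 2 - 2 * D L) < 0 :=
      mul_neg_of_pos_of_neg (by positivity) hq
    have : (0:ℝ) ≤ (ML κ al B L b : ℝ) ^ 2 := by positivity
    linarith
  have h5 := (hD2 L hN i hi i hi).1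
  have h6 := (hD2 L hN i' hi' i' hi').1
  rw [← sq] at h5 h6
  have h7 : 1 - (zt κ B b) ^ 2 - 2 * D L ≤
      Real.sqrt (1 - (zm (KL κ L) (ML κ al B L) (pL κ al B L) (NL κ al B L) b i) ^ 2) *
      Real.sqrt (1 - (zm (KL κ L) (ML κ al B L) (pL κ al B L) (NL κ al B L) b i') ^ 2) := by
    calc 1 - (zt κ B b) ^ 2 - 2 * D L = Real.sqrt (1 - (zt κ B b) ^ 2 - 2 * D L) *
          Real.sqrt (1 - (zt κ B b) ^ 2 - 2 * D L) := (Real.mul_self_sqrt hq0).symm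
      _ ≤ _ := mul_le_mul (Real.sqrt_le_sqrt h5) (Real.sqrt_le_sqrt h6) (Real.sqrt_nonneg _)
          (Real.sqrt_nonneg _)
  refine h4.trans ?_
  gcongr

end

end Pool.Agent.Lib.MP_b06be4_an.Upper
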