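import Pool.Agent.Lib.MP_b06be4_an.Energy

/-!
From banded configurations to finite sets of unit vectors; removing points.
-/

open Real Finset

namespace Pool.Agent.Lib.MP_b06be4_an.Upper

/-- `T` is a set of `N` unit vectors of energy at most `C`. -/
def Conf (N : ℕ) (C : ℝ) : Prop :=
  ∃ T : Finset (EuclideanSpace ℝ (Fin 3)), T.card = N ∧ (∀ x ∈ T, ‖x‖ = 1) ∧
    ∑ x ∈ T, ∑ y ∈ T, 1 / ‖x - y‖ ^ 2 ≤ C

theorem Conf.mono {N : ℕ} {C C' : ℝ} (h : Conf N C) (hC : C ≤ C') : Conf N C' := by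
  obtain ⟨T, h1, h2, h3⟩ := h
  exact ⟨T, h1, h2, h3.trans hC⟩

/-- Removing one point. -/
theorem exists_erase {E : Type*} [DecidableEq E] (g : E → E → ℝ) (hg : ∀ x y, g x y = g y x)
    (h0 : ∀ x, g x x = 0) (hpos : ∀ x y, 0 ≤ g x y) (T : Finset E) {n : ℕ} (hT : T.card = n + 1)
    (hn : 0 < n) :
    ∃ x ∈ T, (∑ y ∈ T.erase x, ∑ w ∈ T.erase x, g y w) ≤
      ((n:ℝ) / ((n + 1 : ℕ) : ℝ)) ^ 2 * ∑ y ∈ T, ∑ w ∈ T, g y w := by
  set S := ∑ y ∈ T, ∑ w ∈ T, g y w with hS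
  have hS0 : 0 ≤ S := Finset.sum_nonneg fun y _ => Finset.sum_nonneg fun w _ => hpos y w
  have hne : T.Nonempty := by
    rw [← Finset.card_pos, hT]; omega
  have h1 : ∑ x ∈ T, (S / (n + 1)) ≤ ∑ x ∈ T, ∑ y ∈ T, g x y := by
    rw [Finset.sum_const, hT, nsmul_eq_mul, ← hS]
    push_cast
    field_simp
    exact le_rfl
  obtain ⟨x, hx, hx1⟩ := Finset.exists_le_of_sum_le hne h1
  refine ⟨x, hx, ?_⟩
  have h2 : ∀ y, ∑ w ∈ T.erase x, g y w = ∑ w ∈ T, g y w - g y x := by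
    intro y
    rw [← Finset.sum_erase_add T _ hx]; ring
  have h3 : ∑ y ∈ T.erase x, ∑ w ∈ T.erase x, g y w = S - 2 * ∑ y ∈ T, g x y := by
    rw [Finset.sum_congr rfl fun y _ => h2 y, Finset.sum_sub_distrib]
    have h4 : ∑ y ∈ T.erase x, ∑ w ∈ T, g y w = S - ∑ w ∈ T, g x w := by
      rw [hS, ← Finset.sum_erase_add T _ hx]; ring
    have h5 : ∑ y ∈ T.erase x, g y x = ∑ y ∈ T, g x y := by
      have : ∑ y ∈ T, g x y = ∑ y ∈ T, g y x := Finset.sum_congr rfl fun y _ => hg x y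
      rw [this, ← Finset.sum_erase_add T _ hx, h0]; ring
    rw [h4, h5]
    ring
  rw [h3]
  have hn' : (0:ℝ) < n := by exact_mod_cast hn
  have h6 : S - 2 * ∑ y ∈ T, g x y ≤ S - 2 * (S / (n + 1)) := by linarith
  refine h6.trans ?_
  push_cast
  have h7 : S - 2 * (S / (n + 1)) = ((n:ℝ) - 1) / (n + 1) * S := by field_simp; ring
  rw [h7]
  apply mul_le_mul_of_nonneg_right _ hS0
  rw [div_pow, div_le_div_iff₀ (by positivity) (by positivity)]
  nlinarith

/-- Removing points. -/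
theorem Conf.down {N N' : ℕ} {C : ℝ} (hN : 0 < N) (hNN : N ≤ N') (h : Conf N' C) :
    Conf N (((N:ℝ) / N') ^ 2 * C) := by
  classical
  induction N', hNN using Nat.le_induction generalizing C with
  | base =>
    have : (N:ℝ) ≠ 0 := by exact_mod_cast hN.ne'
    rw [div_self this]
    simpa using h
  | succ m hm ih =>
    obtain ⟨T, hT1, hT2, hT3⟩ := h
    obtain ⟨x, hx, hx1⟩ := exists_erase (fun x y : EuclideanSpace ℝ (Fin 3) => 1 / ‖x - y‖ ^ 2)
      (fun x y => by rw [norm_sub_rev]) (fun x => by simp) (fun x y => by positivity) T hT1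
      (by omega)
    have hm' : (0:ℝ) < m := by
      have : 0 < m := by omega
      exact_mod_cast this
    have h1 : Conf m (((m:ℝ) / ((m + 1 : ℕ) : ℝ)) ^ 2 * C) := by
      refine ⟨T.erase x, ?_, ?_, ?_⟩
      · rw [Finset.card_erase_of_mem hx, hT1]; simp
      · intro y hy
        exact hT2 y (Finset.mem_of_mem_erase hy)
      · refine hx1.trans ?_
        gcongr
    have h2 := ih h1
    refine h2.mono (le_of_eq ?_)
    push_cast
    field_simp

variable {M p : ℕ → ℕ} {N : ℝ}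

theorem pt_two (φ z : ℝ) : pt φ z 2 = z := by
  simp [pt]

theorem zr_strict {n : ℕ} (hN : 0 < N) (hM : ∀ b < n, 0 < M b) {b b' i i' : ℕ}
    (hb : b < n) (hb' : b' < n) (hi : i < p b) (hi' : i' < p b')
    (h : zr M p N b i = zr M p N b' i') : b = b' ∧ i = i' := by
  have hbb : b = b' := by
    rcases lt_trichotomy b b' with h1 | h1 | h1
    · have h2 := zr_lt (M := M) (p := p) hN (hM b hb) hi
      have h3 := Zb_mono (M := M) (p := p) hN (Nat.succ_le_of_lt h1)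
      have h4 := zr_gt (M := M) (p := p) hN (hM b' hb') i'
      have h5 : Zb M p N (b + 1) ≤ Zb M p N b' := h3
      linarith
    · exact h1
    · have h2 := zr_lt (M := M) (p := p) hN (hM b' hb') hi'
      have h3 := Zb_mono (M := M) (p := p) hN (Nat.succ_le_of_lt h1)
      have h4 := zr_gt (M := M) (p := p) hN (hM b hb) i
      have h5 : Zb M p N (b' + 1) ≤ Zb M p N b := h3
      linarith
  subst hbb
  refine ⟨rfl, ?_⟩
  have hMb : (0:ℝ) < M b := by exact_mod_cast hM b hb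
  unfold zr at h
  have h1 : (2 * (i:ℝ) + 1) * M b / N = (2 * (i':ℝ) + 1) * M b / N := by linarith
  have h2 : (i:ℝ) = i' := by
    field_simp at h1
    linarith
  exact_mod_cast h2

theorem XX_inj {n : ℕ} (hN : 0 < N) (h : N = Pc M p n) (hM : ∀ b < n, 0 < M b) (θ : ℕ → ℝ)
    {b b' i i' j j' : ℕ} (hb : b < n) (hb' : b' < n) (hi : i < p b) (hi' : i' < p b')
    (hj : j < M b) (hj' : j' < M b') (hX : XX M p N θ b i j = XX M p N θ b' i' j') :
    b = b' ∧ i = i' ∧ j = j' := by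
  have h1 : zr M p N b i = zr M p N b' i' := by
    have := congrArg (fun v : EuclideanSpace ℝ (Fin 3) => v 2) hX
    simp only [XX, pt_two] at this
    exact this
  obtain ⟨rfl, rfl⟩ := zr_strict hN hM hb hb' hi hi' h1
  refine ⟨rfl, rfl, ?_⟩
  have hMb := hM b hb
  have hMb' : (0:ℝ) < M b := by exact_mod_cast hMb
  have hz := zr_mem hN h hb hMb hi
  have hz1 : 0 < 1 - (zr M p N b i) ^ 2 := by nlinarith [hz.1, hz.2]
  have h2 : ‖XX M p N θ b i j - XX M p N θ b i j'‖ ^ 2 = 0 := by rw [hX]; simp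
  unfold XX at h2
  rw [dist_sq_same (by linarith)] at h2
  have h3 : 1 - Real.cos (θ b + π * i / M b + 2 * π * j / M b -
      (θ b + π * i / M b + 2 * π * j' / M b)) = 0 := by
    rcases mul_eq_zero.1 h2 with h4 | h4
    · nlinarith
    · exact h4
  have h4 : Real.cos (θ b + π * i / M b + 2 * π * j / M b -
      (θ b + π * i / M b + 2 * π * j' / M b)) = 1 := by linarith
  rw [Real.cos_eq_one_iff] at h4
  obtain ⟨k, hk⟩ := h4
  have hpi := Real.pi_pos
  have h5 : (k:ℝ) * M b = j - j' := by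
    have h6 : (k:ℝ) * (2 * π) * M b = 2 * π * (j - j') := by
      rw [hk]; field_simp; ring
    have h7 : (2 * π) * ((k:ℝ) * M b - (j - j')) = 0 := by linarith
    rcases mul_eq_zero.1 h7 with h8 | h8
    · linarith
    · linarith
  have h6 : k * (M b : ℤ) = j - j' := by exact_mod_cast h5
  have hk0 : k = 0 := by
    by_contra hk0
    rcases lt_or_gt_of_ne hk0 with h7 | h7
    · have : k * (M b : ℤ) ≤ -1 * M b := by
        apply mul_le_mul_of_nonneg_right (by omega) (by positivity)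
      omega
    · have : 1 * (M b : ℤ) ≤ k * M b := by
        apply mul_le_mul_of_nonneg_right (by omega) (by positivity)
      omega
  rw [hk0, zero_mul] at h6
  omega

/-- The energy bound for banded configurations. -/
theorem conf_of_bands {n : ℕ} (hNpos : 0 < Pc M p n) (hM : ∀ b < n, 0 < M b)
    (a c : ℕ → ℝ) (ha : ∀ b < n, 0 < a b)
    (hlow : ∀ b < n, ∀ i < p b, ∀ i' < p b,
      (Pc M p n : ℝ) * a b * (1 - zr M p (Pc M p n) b i * zr M p (Pc M p n) b i') ≤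
        (M b : ℝ) ^ 2)
    (hup : ∀ b < n, ∀ i < p b, ∀ i' < p b, (M b : ℝ) ^ 2 ≤ (Pc M p n : ℝ) * c b *
      (Real.sqrt (1 - (zr M p (Pc M p n) b i) ^ 2) *
        Real.sqrt (1 - (zr M p (Pc M p n) b i') ^ 2))) :
    Conf (Pc M p n) (1 + ∑ b ∈ range n, (M b : ℝ) * ((Pc M p n : ℝ) / 4) *
      (p b * (c b / 3 + Real.log ((Pc M p n : ℝ) / (4 * a b))) +
        2 * ∑ i ∈ range (p b), GG (a b) (c b) i)) := by
  classical
  obtain ⟨N, hN⟩ : ∃ N : ℝ, N = Pc M p n := ⟨_, rfl⟩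
  rw [← hN] at hlow hup ⊢
  have hN0 : 0 < N := by rw [hN]; exact_mod_cast hNpos
  obtain ⟨θ, hθ⟩ := energy_le hN0 hN hM a c ha hlow hup
  set I : Finset (Σ _ : ℕ, ℕ × ℕ) := (range n).sigma (fun b => range (p b) ×ˢ range (M b)) with hI
  have hmem : ∀ s ∈ I, s.1 < n ∧ s.2.1 < p s.1 ∧ s.2.2 < M s.1 := by
    intro s hs
    rw [hI, Finset.mem_sigma, Finset.mem_product] at hs
    simpa only [mem_range] using hs
  set f : (Σ _ : ℕ, ℕ × ℕ) → EuclideanSpace ℝ (Fin 3) := fun s => XX M p N θ s.1 s.2.1 s.2.2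
    with hf
  have hinj : Set.InjOn f (I : Set (Σ _ : ℕ, ℕ × ℕ)) := by
    intro s hs s' hs' hss
    have h1 := hmem s (Finset.mem_coe.1 hs)
    have h2 := hmem s' (Finset.mem_coe.1 hs')
    obtain ⟨e1, e2, e3⟩ := XX_inj hN0 hN hM θ h1.1 h2.1 h1.2.1 h2.2.1 h1.2.2 h2.2.2 hss
    obtain ⟨s1, s2, s3⟩ := s
    obtain ⟨t1, t2, t3⟩ := s'
    simp only at e1 e2 e3
    subst e1; subst e2; subst e3
    rfl
  refine ⟨I.image f, ?_, ?_, ?_⟩
  · rw [Finset.card_image_of_injOn hinj, hI, Finset.card_sigma]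
    simp only [Finset.card_product, Finset.card_range]
    rfl
  · intro x hx
    rw [Finset.mem_image] at hx
    obtain ⟨s, hs, rfl⟩ := hx
    have h1 := hmem s hs
    have hz := zr_mem hN0 hN h1.1 (hM _ h1.1) h1.2.1
    apply norm_pt
    nlinarith [hz.1, hz.2]
  · refine le_trans (le_of_eq ?_) hθ
    rw [Finset.sum_image hinj]
    have h1 : ∀ s ∈ I, ∑ y ∈ I.image f, 1 / ‖f s - y‖ ^ 2 =
        ∑ b' ∈ range n, ∑ i' ∈ range (p b'), ∑ j' ∈ range (M b'),
          1 / ‖f s - XX M p N θ b' i' j'‖ ^ 2 := by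
      intro s _
      rw [Finset.sum_image hinj, hI, Finset.sum_sigma]
      refine Finset.sum_congr rfl fun b' _ => ?_
      rw [Finset.sum_product]
    rw [Finset.sum_congr rfl h1, hI, Finset.sum_sigma]
    refine Finset.sum_congr rfl fun b _ => ?_
    rw [Finset.sum_product]
    unfold TT
    calc ∑ i ∈ range (p b), ∑ j ∈ range (M b), ∑ b' ∈ range n, ∑ i' ∈ range (p b'),
          ∑ j' ∈ range (M b'), 1 / ‖f ⟨b, (i, j)⟩ - XX M p N θ b' i' j'‖ ^ 2
        = ∑ i ∈ range (p b), ∑ b' ∈ range n, ∑ j ∈ range (M b), ∑ i' ∈ range (p b'),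
          ∑ j' ∈ range (M b'), 1 / ‖f ⟨b, (i, j)⟩ - XX M p N θ b' i' j'‖ ^ 2 := by
          refine Finset.sum_congr rfl fun i _ => ?_
          rw [Finset.sum_comm]
      _ = _ := by rw [Finset.sum_comm]

end Pool.Agent.Lib.MP_b06be4_an.Upper
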