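import Pool.Agent.Lib.MP_b06be4_an.Limit

/-!
The energy of the banded configurations, in the limit.
-/

open Real Finset Filter Topology

namespace Pool.Agent.Lib.MP_b06be4_an.Upper

/-- The energy constant of the bands. -/
noncomputable def Phi (a c : ℝ) : ℝ :=
  (c / 3 - Real.log (4 * a)) / 4 + (Real.eulerMascheroniConstant + SS a c) / 2

theorem R_identity {B : ℕ} {N K a c : ℝ} {M p : ℕ → ℕ} (hN0 : 0 < N) (ha : 0 < a)
    (hN : N = 2 * K ^ 2 + ∑ b ∈ range B, (p b : ℝ) * M b) (hp : ∀ b ∈ range B, 0 < p b) :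
    1 + K ^ 2 * (N / 2) * (2 / 3 + Real.log N + Real.log 2) + ∑ b ∈ range B, (M b : ℝ) * (N / 4) *
      (p b * (c / 3 + Real.log (N / (4 * a))) + 2 * ∑ i ∈ range (p b), GG a c i) =
    1 + N * (K ^ 2 * ((2 / 3 + Real.log 2) / 2) + ∑ b ∈ range B, ((p b : ℝ) * M b) *
      ((c / 3 - Real.log (4 * a)) / 4 + ((p b : ℝ)⁻¹ * ∑ i ∈ range (p b), GG a c i) / 2)) +
      1 / 4 * N ^ 2 * Real.log N := by
  have hlog : Real.log (N / (4 * a)) = Real.log N - Real.log (4 * a) :=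
    Real.log_div hN0.ne' (by positivity)
  have e : ∀ b ∈ range B, (M b : ℝ) * (N / 4) *
      (p b * (c / 3 + Real.log (N / (4 * a))) + 2 * ∑ i ∈ range (p b), GG a c i) =
      N * (((p b : ℝ) * M b) * ((c / 3 - Real.log (4 * a)) / 4 +
        ((p b : ℝ)⁻¹ * ∑ i ∈ range (p b), GG a c i) / 2)) +
        ((p b : ℝ) * M b) * (N / 4 * Real.log N) := by
    intro b hb
    have hpb : (p b : ℝ) ≠ 0 := by
      have := hp b hb
      positivity
    rw [hlog]
    field_simp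
    ring
  rw [Finset.sum_congr rfl e, Finset.sum_add_distrib, ← Finset.mul_sum, ← Finset.sum_mul]
  have h2 : ∑ b ∈ range B, (p b : ℝ) * M b = N - 2 * K ^ 2 := by linarith
  rw [h2]
  ring

theorem propA {κ al : ℝ} {B : ℕ} (hκ0 : 0 < κ) (hκ : 2 * κ ^ 2 < 1) (hal : 0 < al) (hB : 0 < B)
    {a c : ℝ} (ha : 0 < a) (hc : 0 < c)
    (hlow : ∀ b < B, a * (1 - (zt κ B b) ^ 2 + 2 * Del κ B) < al * (1 - (zt κ B b) ^ 2))
    (hup : ∀ b < B, al * (1 - (zt κ B b) ^ 2) < c * (1 - (zt κ B b) ^ 2 - 2 * Del κ B))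
    {ε : ℝ} (hε : 0 < ε) :
    ∀ᶠ L : ℕ in atTop, Conf (NL κ al B L) ((NL κ al B L : ℝ) ^ 2 *
      (1 / 4 * Real.log (NL κ al B L) + (κ ^ 2 * ((2 / 3 + Real.log 2) / 2) +
        (1 - 2 * κ ^ 2) * Phi a c) + ε)) := by
  have e1 : ∀ᶠ L : ℕ in atTop, ∀ b ∈ range B, ∀ i < pL κ al B L b, ∀ i' < pL κ al B L b,
      (NL κ al B L : ℝ) * a * (1 - zm (KL κ L) (ML κ al B L) (pL κ al B L) (NL κ al B L) b i *
        zm (KL κ L) (ML κ al B L) (pL κ al B L) (NL κ al B L) b i') ≤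
        (ML κ al B L b : ℝ) ^ 2 :=
    (Filter.eventually_all_finset (range B)).2 fun b hb =>
      low_ev hκ0 hκ hal hB (mem_range.1 hb) ha (hlow b (mem_range.1 hb))
  have e2 : ∀ᶠ L : ℕ in atTop, ∀ b ∈ range B, ∀ i < pL κ al B L b, ∀ i' < pL κ al B L b,
      (ML κ al B L b : ℝ) ^ 2 ≤ (NL κ al B L : ℝ) * c *
      (Real.sqrt (1 - (zm (KL κ L) (ML κ al B L) (pL κ al B L) (NL κ al B L) b i) ^ 2) *
       Real.sqrt (1 - (zm (KL κ L) (ML κ al B L) (pL κ al B L) (NL κ al B L) b i') ^ 2)) :=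
    (Filter.eventually_all_finset (range B)).2 fun b hb =>
      up_ev hκ0 hκ hal hB (mem_range.1 hb) hc (hup b (mem_range.1 hb))
  have e3 : ∀ᶠ L : ℕ in atTop, ∀ b ∈ range B, 0 < ML κ al B L b :=
    (Filter.eventually_all_finset (range B)).2 fun b hb =>
      (floor_atTop (mm_pos hκ0 hκ hal hB (mem_range.1 hb))).eventually_gt_atTop 0
  have e4 : ∀ᶠ L : ℕ in atTop, ∀ b ∈ range B, 0 < pL κ al B L b :=
    (Filter.eventually_all_finset (range B)).2 fun b hb =>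
      (floor_atTop (rr_pos hκ0 hκ hal hB (mem_range.1 hb))).eventually_gt_atTop 0
  -- the limit of the bound
  have hlim : Tendsto (fun L : ℕ => 1 / (NL κ al B L : ℝ) ^ 2 +
      ((KL κ L : ℝ) ^ 2 * ((2 / 3 + Real.log 2) / 2) + ∑ b ∈ range B,
        ((pL κ al B L b : ℝ) * ML κ al B L b) *
        ((c / 3 - Real.log (4 * a)) / 4 + ((pL κ al B L b : ℝ)⁻¹ *
          ∑ i ∈ range (pL κ al B L b), GG a c i) / 2)) / (NL κ al B L : ℝ)) atTop
      (𝓝 (κ ^ 2 * ((2 / 3 + Real.log 2) / 2) + (1 - 2 * κ ^ 2) * Phi a c)) := by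
    have l1 : Tendsto (fun L : ℕ => 1 / (NL κ al B L : ℝ) ^ 2) atTop (𝓝 0) := by
      have := ((tendsto_pow_atTop (two_ne_zero)).comp (N_atTop hκ0 hκ hal hB))
      exact tendsto_const_nhds.div_atTop this
    have l2 : Tendsto (fun L : ℕ => ((KL κ L : ℝ) ^ 2 / (L:ℝ) ^ 2) * ((2 / 3 + Real.log 2) / 2) +
        ∑ b ∈ range B, (((pL κ al B L b : ℝ) * ML κ al B L b) / (L:ℝ) ^ 2) *
        ((c / 3 - Real.log (4 * a)) / 4 + ((pL κ al B L b : ℝ)⁻¹ *
          ∑ i ∈ range (pL κ al B L b), GG a c i) / 2)) atTop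
        (𝓝 (κ ^ 2 * ((2 / 3 + Real.log 2) / 2) + ∑ b ∈ range B, (Del κ B / 2) * Phi a c)) := by
      apply ((K2_lim hκ0).mul_const _).add
      apply tendsto_finsetSum
      intro b hb
      have hb' := mem_range.1 hb
      apply (pM_lim hκ0 hκ hal hB hb').mul
      unfold Phi
      apply Tendsto.const_add
      apply Tendsto.div_const
      exact GG_avg ha hc (floor_atTop (rr_pos hκ0 hκ hal hB hb'))
    have h3 : ∑ b ∈ range B, (Del κ B / 2) * Phi a c = (1 - 2 * κ ^ 2) * Phi a c := by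
      rw [Finset.sum_const, Finset.card_range, nsmul_eq_mul]
      have : (0:ℝ) < B := by exact_mod_cast hB
      unfold Del
      field_simp
    rw [h3] at l2
    have l3 := l1.add (l2.div (N_lim hκ0 hκ hal hB) one_ne_zero)
    rw [zero_add, div_one] at l3
    refine l3.congr' ?_
    filter_upwards [eventually_gt_atTop 0] with L hL
    have hL' : (0:ℝ) < L := by exact_mod_cast hL
    simp only [Pi.div_apply]
    congr 1
    have e5 : ((KL κ L : ℝ) ^ 2 / (L:ℝ) ^ 2) * ((2 / 3 + Real.log 2) / 2) +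
        ∑ b ∈ range B, (((pL κ al B L b : ℝ) * ML κ al B L b) / (L:ℝ) ^ 2) *
        ((c / 3 - Real.log (4 * a)) / 4 + ((pL κ al B L b : ℝ)⁻¹ *
          ∑ i ∈ range (pL κ al B L b), GG a c i) / 2) =
        ((KL κ L : ℝ) ^ 2 * ((2 / 3 + Real.log 2) / 2) + ∑ b ∈ range B,
        ((pL κ al B L b : ℝ) * ML κ al B L b) *
        ((c / 3 - Real.log (4 * a)) / 4 + ((pL κ al B L b : ℝ)⁻¹ *
          ∑ i ∈ range (pL κ al B L b), GG a c i) / 2)) / (L:ℝ) ^ 2 := by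
      have e7 : ∀ x y z : ℝ, (x + y) / z = x / z + y / z := fun x y z => add_div x y z
      rw [e7 _ (∑ b ∈ range B, _), Finset.sum_div]
      congr 1
      · ring
      · refine Finset.sum_congr rfl fun b _ => ?_
        ring
    rw [e5, div_div_div_cancel_right₀ (by positivity : (L:ℝ) ^ 2 ≠ 0)]
  have e6 := hlim.eventually (gt_mem_nhds (lt_add_of_pos_right _ hε))
  filter_upwards [e1, e2, e3, e4, e6, N_pos_ev hκ0 hκ hal hB] with L h1 h2 h3 h4 h6 h7
  have hN' : (0:ℝ) < NL κ al B L := by exact_mod_cast h7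
  have hconf := conf_caps (KL κ L) B (ML κ al B L) (pL κ al B L) h7
    (fun b hb => h3 b (mem_range.2 hb)) ha (c := c) (N := (NL κ al B L : ℝ)) rfl
    (fun b hb => h1 b (mem_range.2 hb)) (fun b hb => h2 b (mem_range.2 hb))
  refine hconf.mono ?_
  have hNsum : (NL κ al B L : ℝ) = 2 * (KL κ L : ℝ) ^ 2 + ∑ b ∈ range B,
      (pL κ al B L b : ℝ) * ML κ al B L b := by
    unfold NL Pc
    push_cast
    ring
  rw [R_identity hN' ha hNsum h4]
  have h8 := mul_lt_mul_of_pos_left h6 (by positivity : (0:ℝ) < (NL κ al B L : ℝ) ^ 2)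
  rw [mul_add, mul_one_div_cancel (by positivity)] at h8
  have h9 : (NL κ al B L : ℝ) ^ 2 * (((KL κ L : ℝ) ^ 2 * ((2 / 3 + Real.log 2) / 2) +
      ∑ b ∈ range B, ((pL κ al B L b : ℝ) * ML κ al B L b) *
        ((c / 3 - Real.log (4 * a)) / 4 + ((pL κ al B L b : ℝ)⁻¹ *
          ∑ i ∈ range (pL κ al B L b), GG a c i) / 2)) / (NL κ al B L : ℝ)) =
      (NL κ al B L : ℝ) * ((KL κ L : ℝ) ^ 2 * ((2 / 3 + Real.log 2) / 2) +
      ∑ b ∈ range B, ((pL κ al B L b : ℝ) * ML κ al B L b) *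
        ((c / 3 - Real.log (4 * a)) / 4 + ((pL κ al B L b : ℝ)⁻¹ *
          ∑ i ∈ range (pL κ al B L b), GG a c i) / 2)) := by
    field_simp
  rw [h9] at h8
  linarith

end Pool.Agent.Lib.MP_b06be4_an.Upper
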