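import Pool.Agent.Lib.MP_b06be4_an.PropA

/-!
Choice of the parameters, and all large numbers of points.
-/

open Real Finset Filter Topology

namespace Pool.Agent.Lib.MP_b06be4_an.Upper

theorem Phi_tendsto {al : ℝ} (hal : 0 < al) :
    Tendsto (fun η : ℝ => Phi (al - η) (al + η)) (𝓝[>] 0) (𝓝 (Phi al al)) := by
  unfold Phi
  have ht : Tendsto (fun η : ℝ => al - η) (𝓝[>] 0) (𝓝 al) := by
    have : Tendsto (fun η : ℝ => al - η) (𝓝 0) (𝓝 (al - 0)) := tendsto_const_nhds.sub tendsto_id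
    rw [sub_zero] at this
    exact this.mono_left nhdsWithin_le_nhds
  have ht2 : Tendsto (fun η : ℝ => al + η) (𝓝[>] 0) (𝓝 al) := by
    have : Tendsto (fun η : ℝ => al + η) (𝓝 0) (𝓝 (al + 0)) := tendsto_const_nhds.add tendsto_id
    rw [add_zero] at this
    exact this.mono_left nhdsWithin_le_nhds
  apply Tendsto.add
  · apply Tendsto.div_const
    apply (ht2.div_const 3).sub
    exact (Real.continuousAt_log (by positivity : (4:ℝ) * al ≠ 0)).tendsto.comp (ht.const_mul 4)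
  · apply Tendsto.div_const
    exact (SS_tendsto hal).const_add _

theorem exists_params {al : ℝ} (hal : 0 < al) {ε : ℝ} (hε : 0 < ε) :
    ∃ (κ a c : ℝ) (B : ℕ), 0 < κ ∧ 2 * κ ^ 2 < 1 ∧ 0 < B ∧ 0 < a ∧ 0 < c ∧
    (∀ b < B, a * (1 - (zt κ B b) ^ 2 + 2 * Del κ B) < al * (1 - (zt κ B b) ^ 2)) ∧
    (∀ b < B, al * (1 - (zt κ B b) ^ 2) < c * (1 - (zt κ B b) ^ 2 - 2 * Del κ B)) ∧
    κ ^ 2 * ((2 / 3 + Real.log 2) / 2) + (1 - 2 * κ ^ 2) * Phi a c < Phi al al + ε := by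
  have h1 := (Phi_tendsto hal).eventually (gt_mem_nhds (show Phi al al < Phi al al + ε / 2 by
    linarith))
  have h2 : ∀ᶠ η : ℝ in 𝓝[>] 0, η < al / 2 :=
    (eventually_lt_nhds (by positivity : (0:ℝ) < al / 2)).filter_mono nhdsWithin_le_nhds
  obtain ⟨η, ⟨hη1, hη2⟩, hη3⟩ := ((h1.and h2).and self_mem_nhdsWithin).exists
  have hη0 : 0 < η := hη3
  set Y := Phi (al - η) (al + η) with hY
  have h3 : Tendsto (fun κ : ℝ => κ ^ 2 * ((2 / 3 + Real.log 2) / 2) + (1 - 2 * κ ^ 2) * Y)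
      (𝓝[>] 0) (𝓝 Y) := by
    have hc : Continuous (fun κ : ℝ => κ ^ 2 * ((2 / 3 + Real.log 2) / 2) +
        (1 - 2 * κ ^ 2) * Y) := by fun_prop
    have := hc.tendsto 0
    simp only [ne_eq, OfNat.ofNat_ne_zero, not_false_eq_true, zero_pow, zero_mul, mul_zero,
      sub_zero, one_mul, zero_add] at this
    exact this.mono_left nhdsWithin_le_nhds
  have h4 := h3.eventually (gt_mem_nhds (show Y < Y + ε / 2 by linarith))
  have h5 : ∀ᶠ κ : ℝ in 𝓝[>] 0, κ < 1 / 2 :=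
    (eventually_lt_nhds (by positivity : (0:ℝ) < 1 / 2)).filter_mono nhdsWithin_le_nhds
  obtain ⟨κ, ⟨hκ1, hκ2⟩, hκ3⟩ := ((h4.and h5).and self_mem_nhdsWithin).exists
  have hκ0 : 0 < κ := hκ3
  have hκ : 2 * κ ^ 2 < 1 := by nlinarith
  obtain ⟨B, hB⟩ := exists_nat_gt ((al + η) * (2 * (1 - 2 * κ ^ 2)) / (κ ^ 2 * η))
  have hB0 : (0:ℝ) < B := lt_of_le_of_lt
    (by have : 0 < 1 - 2 * κ ^ 2 := by linarith
        positivity) hB
  have hBpos : 0 < B := by exact_mod_cast hB0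
  have hDel : (al + η) * Del κ B < κ ^ 2 * η := by
    rw [div_lt_iff₀ (by positivity)] at hB
    unfold Del
    rw [← mul_div_assoc, div_lt_iff₀ hB0]
    linarith
  have hD0 := Del_pos hκ hBpos
  refine ⟨κ, al - η, al + η, B, hκ0, hκ, hBpos, by linarith, by linarith, ?_, ?_, by linarith⟩
  · intro b hb
    have hq := one_sub_zt_sq hκ hBpos hb
    nlinarith [mul_le_mul_of_nonneg_left hq hη0.le]
  · intro b hb
    have hq := one_sub_zt_sq hκ hBpos hb
    nlinarith [mul_le_mul_of_nonneg_left hq hη0.le]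

theorem propB {al : ℝ} (hal : 0 < al) {ε : ℝ} (hε : 0 < ε) :
    ∀ᶠ n : ℕ in atTop, Conf n ((n:ℝ) ^ 2 * (1 / 4 * Real.log n + Phi al al + ε)) := by
  obtain ⟨κ, a, c, B, hκ0, hκ, hB, ha, hc, hlow, hup, hC⟩ :=
    exists_params hal (by positivity : 0 < ε / 4)
  have hA := propA hκ0 hκ hal hB ha hc hlow hup (by positivity : 0 < ε / 4)
  set s := Real.exp (ε / 2) with hs
  have hs0 : 0 < s := Real.exp_pos _
  have hs1 : 1 < s := Real.one_lt_exp_iff.2 (by positivity)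
  -- L(n)
  have hsq : Tendsto (fun n : ℕ => Real.sqrt (n:ℝ)) atTop atTop :=
    Real.tendsto_sqrt_atTop.comp tendsto_natCast_atTop_atTop
  have hL1 : Tendsto (fun n : ℕ => ((⌈s * Real.sqrt (n:ℝ)⌉₊ : ℕ) : ℝ) / Real.sqrt (n:ℝ)) atTop
      (𝓝 s) := (tendsto_nat_ceil_mul_div_atTop hs0.le).comp hsq
  have hL2 : Tendsto (fun n : ℕ => ⌈s * Real.sqrt (n:ℝ)⌉₊) atTop atTop :=
    tendsto_nat_ceil_atTop.comp (hsq.const_mul_atTop hs0)
  have hN1 : Tendsto (fun n : ℕ => (NL κ al B ⌈s * Real.sqrt (n:ℝ)⌉₊ : ℝ) / n) atTop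
      (𝓝 (s ^ 2)) := by
    have h1 := ((N_lim hκ0 hκ hal hB).comp hL2).mul (hL1.pow 2)
    rw [one_mul] at h1
    refine h1.congr' ?_
    filter_upwards [eventually_gt_atTop 0] with n hn
    have hn' : (0:ℝ) < n := by exact_mod_cast hn
    have hsn : 0 < Real.sqrt (n:ℝ) := Real.sqrt_pos.2 hn'
    have hL0 : (0:ℝ) < ((⌈s * Real.sqrt (n:ℝ)⌉₊ : ℕ) : ℝ) := by
      have : 0 < ⌈s * Real.sqrt (n:ℝ)⌉₊ := Nat.ceil_pos.2 (by positivity)
      exact_mod_cast this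
    simp only [Function.comp]
    rw [div_pow, Real.sq_sqrt hn'.le]
    field_simp
  have hs2 : s ^ 2 = Real.exp ε := by
    rw [hs, ← Real.exp_nat_mul]
    congr 1
    push_cast
    ring
  have h1 := hN1.eventually (lt_mem_nhds (show (1:ℝ) < s ^ 2 by nlinarith))
  have h2 := hN1.eventually (gt_mem_nhds (show s ^ 2 < Real.exp (2 * ε) by
    rw [hs2]; exact Real.exp_lt_exp.2 (by linarith)))
  filter_upwards [h1, h2, hL2.eventually hA, eventually_gt_atTop 0] with n hn1 hn2 hn3 hn4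
  have hn' : (0:ℝ) < n := by exact_mod_cast hn4
  set N := NL κ al B ⌈s * Real.sqrt (n:ℝ)⌉₊ with hNdef
  rw [lt_div_iff₀ hn', one_mul] at hn1
  have hle : n ≤ N := by
    have : (n:ℝ) < N := hn1
    exact_mod_cast this.le
  have hN0 : (0:ℝ) < N := hn'.trans hn1
  refine (hn3.down hn4 hle).mono ?_
  have hlog : Real.log N ≤ Real.log n + 2 * ε := by
    have h5 : Real.log ((N:ℝ) / n) ≤ 2 * ε := by
      rw [← Real.log_exp (2 * ε)]
      exact Real.log_le_log (by positivity) hn2.le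
    rw [Real.log_div hN0.ne' hn'.ne'] at h5
    linarith
  have h6 : ((n:ℝ) / N) ^ 2 * ((N:ℝ) ^ 2 * (1 / 4 * Real.log N +
      (κ ^ 2 * ((2 / 3 + Real.log 2) / 2) + (1 - 2 * κ ^ 2) * Phi a c) + ε / 4)) =
      (n:ℝ) ^ 2 * (1 / 4 * Real.log N +
      (κ ^ 2 * ((2 / 3 + Real.log 2) / 2) + (1 - 2 * κ ^ 2) * Phi a c) + ε / 4) := by
    field_simp
  rw [h6]
  apply mul_le_mul_of_nonneg_left _ (by positivity)
  linarith

/-- In terms of families of points. -/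
theorem Conf.fin {n : ℕ} {C : ℝ} (h : Conf n C) :
    ∃ x : Fin n → EuclideanSpace ℝ (Fin 3), Function.Injective x ∧ (∀ i, ‖x i‖ = 1) ∧
      ∑ i, ∑ j, (if i = j then (0:ℝ) else 1 / ‖x i - x j‖ ^ 2) ≤ C := by
  obtain ⟨T, h1, h2, h3⟩ := h
  set e : Fin n ≃ T := (Fintype.equivFinOfCardEq (by rw [Fintype.card_coe, h1])).symm with he
  refine ⟨fun i => (e i : EuclideanSpace ℝ (Fin 3)), ?_, ?_, ?_⟩
  · intro i j hij
    exact e.injective (Subtype.ext hij)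
  · intro i
    exact h2 _ (e i).2
  · refine le_trans (le_of_eq ?_) h3
    have h4 : ∀ i j : Fin n, (if i = j then (0:ℝ) else
        1 / ‖(e i : EuclideanSpace ℝ (Fin 3)) - e j‖ ^ 2) =
        1 / ‖(e i : EuclideanSpace ℝ (Fin 3)) - e j‖ ^ 2 := by
      intro i j
      split_ifs with hij
      · subst hij; simp
      · rfl
    simp only [h4]
    rw [Equiv.sum_comp e (fun y : T => ∑ j : Fin n, 1 / ‖(y : EuclideanSpace ℝ (Fin 3)) -
      e j‖ ^ 2)]
    rw [← Finset.sum_coe_sort T (fun x => ∑ y ∈ T, 1 / ‖x - y‖ ^ 2)]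
    refine Finset.sum_congr rfl fun x _ => ?_
    rw [Equiv.sum_comp e (fun y : T => 1 / ‖(x : EuclideanSpace ℝ (Fin 3)) - y‖ ^ 2)]
    rw [← Finset.sum_coe_sort T (fun y => 1 / ‖(x : EuclideanSpace ℝ (Fin 3)) - y‖ ^ 2)]

/-- The constant for the hexagonal lattice. -/
theorem Phi_hex : Phi (Real.sqrt 3 * π / 2) (Real.sqrt 3 * π / 2) =
    Real.eulerMascheroniConstant / 2 - 1 / 4 * Real.log (2 * Real.sqrt 3 * π) +
      Real.sqrt 3 * π / 24 + ∑' k : ℕ, (-1 : ℝ) ^ (k + 1) /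
        (((k : ℝ) + 1) * (Real.exp (Real.sqrt 3 * π * ((k : ℝ) + 1)) - (-1) ^ (k + 1))) := by
  have hal : 0 < Real.sqrt 3 * π / 2 := by positivity
  have h1 : SS (Real.sqrt 3 * π / 2) (Real.sqrt 3 * π / 2) / 2 = ∑' k : ℕ, (-1 : ℝ) ^ (k + 1) /
        (((k : ℝ) + 1) * (Real.exp (Real.sqrt 3 * π * ((k : ℝ) + 1)) - (-1) ^ (k + 1))) := by
    unfold SS
    rw [← tsum_div_const]
    refine tsum_congr fun k => ?_
    unfold gg FF
    have e1 : 2 * ((k + 1 : ℕ) : ℝ) * (Real.sqrt 3 * π / 2) =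
        Real.sqrt 3 * π * ((k : ℝ) + 1) := by push_cast; ring
    rw [e1]
    have hk : (0:ℝ) < (k:ℝ) + 1 := by positivity
    push_cast
    split_ifs with he
    · have h2 : 1 < Real.exp (Real.sqrt 3 * π * ((k : ℝ) + 1)) :=
        Real.one_lt_exp_iff.2 (by positivity)
      have h3 : Real.exp (Real.sqrt 3 * π * ((k : ℝ) + 1)) - 1 ≠ 0 := by linarith
      rw [he.neg_one_pow]
      field_simp
      ring
    · have ho : Odd (k + 1) := Nat.not_even_iff_odd.1 he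
      have h3 : Real.exp (Real.sqrt 3 * π * ((k : ℝ) + 1)) + 1 ≠ 0 := by positivity
      rw [ho.neg_one_pow, sub_neg_eq_add]
      field_simp
      ring
  unfold Phi
  rw [add_div Real.eulerMascheroniConstant, h1]
  have e2 : 4 * (Real.sqrt 3 * π / 2) = 2 * Real.sqrt 3 * π := by ring
  rw [e2]
  ring

end Pool.Agent.Lib.MP_b06be4_an.Upper
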