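import Pool.Agent.Lib.MP_b06be4_an.RowTools

/-!
Energy between two rows, and self energy of a row.
-/

open Real Finset

namespace Pool.Agent.Lib.MP_b06be4_an.Upper

/-- Self energy of `M` equally spaced points, seen from the point number `j₀`. -/
theorem self_sum_le' {M : ℕ} (hM : 0 < M) {j₀ : ℕ} (hj₀ : j₀ < M) :
    ∑ j ∈ range M, 1 / (1 - Real.cos (2 * π * j₀ / M - 2 * π * j / M)) ≤ (M : ℝ) ^ 2 / 6 := by
  have hM1 : (0:ℝ) < M := by exact_mod_cast hM
  -- reindex by `j ↦ (j₀ + k) mod M`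
  have h1 : ∀ j, j < M → ∃ k, k < M ∧ (j₀ + k) % M = j := by
    intro j hj
    refine ⟨(M - j₀ + j) % M, Nat.mod_lt _ hM, ?_⟩
    rw [Nat.add_mod_mod, ← add_assoc, show j₀ + (M - j₀) = M by omega, Nat.add_mod_left,
      Nat.mod_eq_of_lt hj]
  have hinj : Set.InjOn (fun k => (j₀ + k) % M) (range M : Set ℕ) := by
    apply Finset.injOn_of_surjOn_of_card_le _ _ (t := range M)
    · intro j hj
      rw [mem_coe, mem_range] at hj
      obtain ⟨k, hk, hk2⟩ := h1 j hj
      exact ⟨k, mem_coe.2 (mem_range.2 hk), hk2⟩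
    · simp
    · intro k _
      exact mem_coe.2 (mem_range.2 (Nat.mod_lt _ hM))
  have himg : (range M).image (fun k => (j₀ + k) % M) = range M := by
    apply Finset.eq_of_subset_of_card_le
    · intro x hx
      rw [mem_image] at hx
      obtain ⟨k, _, rfl⟩ := hx
      exact mem_range.2 (Nat.mod_lt _ hM)
    · rw [Finset.card_image_of_injOn hinj]
  have h2 : ∑ j ∈ range M, 1 / (1 - Real.cos (2 * π * j₀ / M - 2 * π * j / M)) =
      ∑ k ∈ range M, 1 / (1 - Real.cos (2 * π * k / M)) := by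
    conv_lhs => rw [← himg]
    rw [Finset.sum_image hinj]
    refine Finset.sum_congr rfl fun k _ => ?_
    congr 2
    have h3 : ((j₀ + k : ℕ) : ℝ) = M * ((j₀ + k) / M : ℕ) + ((j₀ + k) % M : ℕ) := by
      exact_mod_cast (Nat.div_add_mod (j₀ + k) M).symm
    have h4 : (((j₀ + k) % M : ℕ) : ℝ) = j₀ + k - M * ((j₀ + k) / M : ℕ) := by
      push_cast at h3 ⊢
      linarith
    rw [h4]
    have h5 : 2 * π * (j₀:ℝ) / M - 2 * π * ((j₀:ℝ) + k - M * ((j₀ + k) / M : ℕ)) / M =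
        -(2 * π * k / M) + ((j₀ + k) / M : ℕ) * (2 * π) := by
      field_simp
      ring
    rw [h5, Real.cos_add_nat_mul_two_pi, Real.cos_neg]
  rw [h2]
  have h3 := self_sum_le hM
  rw [← Finset.sum_erase_add _ _ (mem_range.2 hM)]
  simpa using h3

/-- Energy between two rows with the same number of points. -/
theorem row_row {M : ℕ} (hM : 0 < M) {z z' : ℝ} (hz : z ∈ Set.Ioo (-1:ℝ) 1)
    (hz' : z' ∈ Set.Ioo (-1:ℝ) 1) (h : z' < z) (φ φ' : ℝ) :
    ∑ j ∈ range M, ∑ j' ∈ range M,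
      1 / ‖pt (φ + 2 * π * j / M) z - pt (φ' + 2 * π * j' / M) z'‖ ^ 2 =
    (M:ℝ) ^ 2 / (2 * (z - z')) * (Real.sinh (M * (Real.artanh z - Real.artanh z')) /
      (Real.cosh (M * (Real.artanh z - Real.artanh z')) - Real.cos (M * (φ - φ')))) := by
  have hM1 : (0:ℝ) < M := by exact_mod_cast hM
  set t := Real.artanh z - Real.artanh z' with ht
  have h1 : 0 < Real.sqrt (1 - z ^ 2) := Real.sqrt_pos.2 (by nlinarith [hz.1, hz.2])
  have h2 : 0 < Real.sqrt (1 - z' ^ 2) := Real.sqrt_pos.2 (by nlinarith [hz'.1, hz'.2])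
  have h3 := tau_sinh hz hz'
  rw [← ht] at h3
  have hsinh : 0 < Real.sinh t := by
    by_contra h4
    push Not at h4
    have : Real.sqrt (1 - z ^ 2) * Real.sqrt (1 - z' ^ 2) * Real.sinh t ≤ 0 :=
      mul_nonpos_of_nonneg_of_nonpos (by positivity) h4
    linarith
  have ht0 : 0 < t := Real.sinh_pos_iff.1 hsinh
  rw [Finset.sum_comm]
  have hrow : ∀ j' ∈ range M, ∑ j ∈ range M,
      1 / ‖pt (φ + 2 * π * j / M) z - pt (φ' + 2 * π * j' / M) z'‖ ^ 2 =
      M / (2 * (z - z')) * (Real.sinh (M * t) /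
      (Real.cosh (M * t) - Real.cos (M * (φ - φ')))) := by
    intro j' _
    have h5 := sum_inv_cosh_sub_cos hM ht0 (φ - φ' - 2 * π * j' / M)
    have h6 : ∑ j ∈ range M,
        1 / ‖pt (φ + 2 * π * j / M) z - pt (φ' + 2 * π * j' / M) z'‖ ^ 2 =
        1 / (2 * Real.sqrt (1 - z ^ 2) * Real.sqrt (1 - z' ^ 2)) *
        ∑ j ∈ range M, 1 / (Real.cosh t -
          Real.cos (φ - φ' - 2 * π * j' / M + 2 * π * j / M)) := by
      rw [Finset.mul_sum]
      refine Finset.sum_congr rfl fun j _ => ?_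
      rw [dist_sq_tau hz hz', one_div_mul_one_div]
      congr 4
      ring
    rw [h6, h5]
    have h7 : Real.cos (M * (φ - φ' - 2 * π * j' / M)) = Real.cos (M * (φ - φ')) := by
      rw [show (M:ℝ) * (φ - φ' - 2 * π * j' / M) = M * (φ - φ') - j' * (2 * π) by
        field_simp]
      exact Real.cos_sub_nat_mul_two_pi _ _
    rw [h7, ← h3]
    have h8 := cosh_sub_cos_pos (by positivity : 0 < M * t) (M * (φ - φ'))
    field_simp
  rw [Finset.sum_congr rfl hrow, Finset.sum_const, Finset.card_range, nsmul_eq_mul]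
  have : z - z' ≠ 0 := (sub_pos.2 h).ne'
  ring

/-- The local interaction factor. -/
noncomputable def FF (a c : ℝ) (m : ℕ) : ℝ :=
  if Even m then 1 + 2 / (Real.exp (2 * m * a) - 1) else 1 - 2 / (Real.exp (2 * m * c) + 1)

theorem sinh_div_cosh_sub_one {x : ℝ} (hx : 0 < x) :
    Real.sinh x / (Real.cosh x - 1) = 1 + 2 / (Real.exp x - 1) := by
  have h1 : 1 < Real.exp x := Real.one_lt_exp_iff.2 hx
  have h2 : Real.exp (-x) = 1 / Real.exp x := by rw [Real.exp_neg, one_div]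
  have h3 : Real.exp x - 1 ≠ 0 := by linarith
  have h4 : 0 < Real.exp x := Real.exp_pos x
  have h5 : Real.cosh x - 1 = (Real.exp x - 1) ^ 2 / (2 * Real.exp x) := by
    rw [Real.cosh_eq, h2]; field_simp; ring
  have h6 : Real.sinh x = (Real.exp x - 1) * (Real.exp x + 1) / (2 * Real.exp x) := by
    rw [Real.sinh_eq, h2]; field_simp; ring
  rw [h5, h6]
  field_simp
  ring

theorem sinh_div_cosh_add_one {x : ℝ} :
    Real.sinh x / (Real.cosh x - -1) = 1 - 2 / (Real.exp x + 1) := by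
  have h2 : Real.exp (-x) = 1 / Real.exp x := by rw [Real.exp_neg, one_div]
  have h4 : 0 < Real.exp x := Real.exp_pos x
  have h5 : Real.cosh x - -1 = (Real.exp x + 1) ^ 2 / (2 * Real.exp x) := by
    rw [Real.cosh_eq, h2]; field_simp; ring
  have h6 : Real.sinh x = (Real.exp x - 1) * (Real.exp x + 1) / (2 * Real.exp x) := by
    rw [Real.sinh_eq, h2]; field_simp; ring
  rw [h5, h6]
  field_simp
  ring

/-- Bounds for the hyperbolic distance between two rows. -/
theorem tau_bounds {z z' : ℝ} (hz : z ∈ Set.Ioo (-1:ℝ) 1) (hz' : z' ∈ Set.Ioo (-1:ℝ) 1)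
    (h : z' < z) :
    (z - z') / (1 - z * z') ≤ Real.artanh z - Real.artanh z' ∧
      Real.artanh z - Real.artanh z' ≤ (z - z') / (Real.sqrt (1 - z ^ 2) *
        Real.sqrt (1 - z' ^ 2)) := by
  set t := Real.artanh z - Real.artanh z' with ht
  have h1 : 0 < Real.sqrt (1 - z ^ 2) := Real.sqrt_pos.2 (by nlinarith [hz.1, hz.2])
  have h2 : 0 < Real.sqrt (1 - z' ^ 2) := Real.sqrt_pos.2 (by nlinarith [hz'.1, hz'.2])
  have h3 := tau_sinh hz hz'
  have h4 := tau_cosh hz hz'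
  rw [← ht] at h3 h4
  have hsinh : 0 < Real.sinh t := by
    by_contra h4
    push Not at h4
    have : Real.sqrt (1 - z ^ 2) * Real.sqrt (1 - z' ^ 2) * Real.sinh t ≤ 0 :=
      mul_nonpos_of_nonneg_of_nonpos (by positivity) h4
    linarith
  have ht0 : 0 < t := Real.sinh_pos_iff.1 hsinh
  have hc := Real.cosh_pos t
  constructor
  · rw [← h3, ← h4]
    rw [mul_div_mul_left _ _ (by positivity : Real.sqrt (1 - z ^ 2) * Real.sqrt (1 - z' ^ 2) ≠ 0)]
    rw [div_le_iff₀ hc]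
    exact sinh_le_mul_cosh ht0.le
  · rw [← h3, mul_div_cancel_left₀ _
      (by positivity : Real.sqrt (1 - z ^ 2) * Real.sqrt (1 - z' ^ 2) ≠ 0)]
    exact Real.self_le_sinh_iff.2 ht0.le

/-- Energy between two rows of the same band. -/
theorem row_row_le {M m : ℕ} (hM : 0 < M) (hm : 0 < m) {N a c z z' : ℝ} (hN : 0 < N) (ha : 0 < a)
    (hz : z ∈ Set.Ioo (-1:ℝ) 1) (hz' : z' ∈ Set.Ioo (-1:ℝ) 1) (h : z - z' = 2 * m * M / N)
    (hlow : N * a * (1 - z * z') ≤ (M:ℝ) ^ 2)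
    (hup : (M:ℝ) ^ 2 ≤ N * c * (Real.sqrt (1 - z ^ 2) * Real.sqrt (1 - z' ^ 2)))
    (φ φ' : ℝ) (hφ : (M:ℝ) * (φ - φ') = m * π) :
    ∑ j ∈ range M, ∑ j' ∈ range M,
      1 / ‖pt (φ + 2 * π * j / M) z - pt (φ' + 2 * π * j' / M) z'‖ ^ 2 ≤
    M * (N / 4) * (FF a c m / m) := by
  have hM1 : (0:ℝ) < M := by exact_mod_cast hM
  have hm1 : (0:ℝ) < m := by exact_mod_cast hm
  have hlt : z' < z := by
    have : 0 < 2 * m * M / N := by positivity
    linarith
  rw [row_row hM hz hz' hlt, hφ]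
  set t := Real.artanh z - Real.artanh z' with ht
  obtain ⟨hb1, hb2⟩ := tau_bounds hz hz' hlt
  rw [← ht] at hb1 hb2
  have h1 : 0 < Real.sqrt (1 - z ^ 2) := Real.sqrt_pos.2 (by nlinarith [hz.1, hz.2])
  have h2 : 0 < Real.sqrt (1 - z' ^ 2) := Real.sqrt_pos.2 (by nlinarith [hz'.1, hz'.2])
  have h3 : 0 < 1 - z * z' := by
    have := hz.1; have := hz.2; have := hz'.1; have := hz'.2
    nlinarith
  have hlo : 2 * m * a ≤ M * t := by
    have h4 : 2 * m * a ≤ M * ((z - z') / (1 - z * z')) := by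
      rw [h, ← mul_div_assoc, le_div_iff₀ h3]
      have : (M:ℝ) * (2 * m * M / N) = 2 * m * M ^ 2 / N := by ring
      rw [this, le_div_iff₀ hN]
      nlinarith [mul_le_mul_of_nonneg_left hlow (by positivity : (0:ℝ) ≤ 2 * m)]
    nlinarith [mul_le_mul_of_nonneg_left hb1 hM1.le]
  have hhi : M * t ≤ 2 * m * c := by
    have h4 : M * ((z - z') / (Real.sqrt (1 - z ^ 2) * Real.sqrt (1 - z' ^ 2))) ≤ 2 * m * c := by
      rw [h, ← mul_div_assoc, div_le_iff₀ (by positivity)]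
      have : (M:ℝ) * (2 * m * M / N) = 2 * m * M ^ 2 / N := by ring
      rw [this, div_le_iff₀ hN]
      nlinarith [mul_le_mul_of_nonneg_left hup (by positivity : (0:ℝ) ≤ 2 * m)]
    nlinarith [mul_le_mul_of_nonneg_left hb2 hM1.le]
  have hpos : 0 < M * t := lt_of_lt_of_le (by positivity) hlo
  have hpre : (M:ℝ) ^ 2 / (2 * (z - z')) = M * (N / 4) * (1 / m) := by
    rw [h]
    field_simp
    ring
  have hkey : Real.sinh (M * t) / (Real.cosh (M * t) - Real.cos (m * π)) ≤ FF a c m := by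
    rw [Real.cos_nat_mul_pi]
    unfold FF
    split_ifs with he
    · rw [he.neg_one_pow, sinh_div_cosh_sub_one hpos]
      have h5 : 1 < Real.exp (2 * m * a) := Real.one_lt_exp_iff.2 (by positivity)
      have h6 : Real.exp (2 * m * a) ≤ Real.exp (M * t) := Real.exp_le_exp.2 hlo
      have h7 : 2 / (Real.exp (M * t) - 1) ≤ 2 / (Real.exp (2 * m * a) - 1) := by
        apply div_le_div_of_nonneg_left (by norm_num) (by linarith) (by linarith)
      linarith
    · have ho : Odd m := Nat.not_even_iff_odd.1 he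
      rw [ho.neg_one_pow, sinh_div_cosh_add_one]
      have h6 : Real.exp (M * t) ≤ Real.exp (2 * m * c) := Real.exp_le_exp.2 hhi
      have h7 : 2 / (Real.exp (2 * m * c) + 1) ≤ 2 / (Real.exp (M * t) + 1) := by
        have := Real.exp_pos (M * t)
        apply div_le_div_of_nonneg_left (by norm_num) (by linarith) (by linarith)
      linarith
  rw [hpre]
  calc M * (N / 4) * (1 / m) * (Real.sinh (M * t) / (Real.cosh (M * t) - Real.cos (m * π)))
      ≤ M * (N / 4) * (1 / m) * FF a c m := by gcongr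
    _ = M * (N / 4) * (FF a c m / m) := by ring

/-- Self energy of a row. -/
theorem row_self_le {M : ℕ} (hM : 0 < M) {N c z : ℝ} (hN : 0 < N)
    (hz : z ∈ Set.Ioo (-1:ℝ) 1) (hup : (M:ℝ) ^ 2 ≤ N * c * (1 - z ^ 2)) (φ : ℝ) :
    ∑ j ∈ range M, ∑ j' ∈ range M,
      1 / ‖pt (φ + 2 * π * j / M) z - pt (φ + 2 * π * j' / M) z‖ ^ 2 ≤ M * (N / 4) * (c / 3) := by
  have hM1 : (0:ℝ) < M := by exact_mod_cast hM
  have hz1 : 0 < 1 - z ^ 2 := by nlinarith [hz.1, hz.2]
  have h1 : ∀ j ∈ range M, ∑ j' ∈ range M,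
      1 / ‖pt (φ + 2 * π * j / M) z - pt (φ + 2 * π * j' / M) z‖ ^ 2 ≤
      1 / (2 * (1 - z ^ 2)) * ((M:ℝ) ^ 2 / 6) := by
    intro j hj
    have h2 := self_sum_le' hM (mem_range.1 hj)
    have h3 : ∑ j' ∈ range M,
        1 / ‖pt (φ + 2 * π * j / M) z - pt (φ + 2 * π * j' / M) z‖ ^ 2 =
        1 / (2 * (1 - z ^ 2)) *
        ∑ j' ∈ range M, 1 / (1 - Real.cos (2 * π * j / M - 2 * π * j' / M)) := by
      rw [Finset.mul_sum]
      refine Finset.sum_congr rfl fun j' _ => ?_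
      rw [dist_sq_same (by linarith), one_div_mul_one_div]
      congr 4
      ring
    rw [h3]
    gcongr
  have h2 := Finset.sum_le_sum h1
  rw [Finset.sum_const, Finset.card_range, nsmul_eq_mul] at h2
  refine h2.trans ?_
  have h3 : 1 / (2 * (1 - z ^ 2)) * ((M:ℝ) ^ 2 / 6) ≤ N / 4 * (c / 3) := by
    rw [div_mul_eq_mul_div, one_mul, div_le_iff₀ (by positivity)]
    nlinarith
  calc (M:ℝ) * (1 / (2 * (1 - z ^ 2)) * ((M:ℝ) ^ 2 / 6)) ≤ M * (N / 4 * (c / 3)) := by gcongr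
    _ = _ := by ring

end Pool.Agent.Lib.MP_b06be4_an.Upper
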