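import Mathlib

/-!
Trigonometric sums for equally spaced points on circles of latitude.
-/

open Real Finset

namespace Pool.Agent.Lib.MP_b06be4_an.Upper

/-- `∑_{j<M} 1/(1 - w ζ^j) = M/(1 - w^M)` for the `M`-th roots of unity. -/
theorem sum_inv_one_sub {M : ℕ} (hM : 0 < M) (w : ℂ) (hw : w ^ M ≠ 1) :
    ∑ j ∈ range M, 1 / (1 - w * Complex.exp (2 * π * Complex.I / M) ^ j) = M / (1 - w ^ M) := by
  set ζ : ℂ := Complex.exp (2 * π * Complex.I / M) with hζ
  have hprim : IsPrimitiveRoot ζ M := Complex.isPrimitiveRoot_exp M hM.ne'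
  have hζM : ζ ^ M = 1 := hprim.pow_eq_one
  have h1 : (1 : ℂ) - w ^ M ≠ 0 := sub_ne_zero.2 (Ne.symm hw)
  have hu : ∀ j, (w * ζ ^ j) ^ M = w ^ M := by
    intro j
    rw [mul_pow, ← pow_mul, mul_comm j M, pow_mul, hζM, one_pow, mul_one]
  have h2 : ∀ j, (1 : ℂ) - w * ζ ^ j ≠ 0 := by
    intro j h
    have h3 : w * ζ ^ j = 1 := (sub_eq_zero.1 h).symm
    apply hw
    rw [← hu j, h3, one_pow]
  have h3 : ∀ j, 1 / (1 - w * ζ ^ j) = ∑ n ∈ range M, w ^ n * (ζ ^ n) ^ j / (1 - w ^ M) := by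
    intro j
    have h4 := geom_sum_mul_neg (w * ζ ^ j) M
    rw [hu j] at h4
    rw [← Finset.sum_div, div_eq_div_iff (h2 j) h1, one_mul, ← h4]
    congr 1
    refine Finset.sum_congr rfl fun n _ => ?_
    rw [mul_pow, ← pow_mul, ← pow_mul, mul_comm j n]
  simp_rw [h3]
  rw [Finset.sum_comm]
  have h5 : ∀ n ∈ range M, ∑ j ∈ range M, w ^ n * (ζ ^ n) ^ j / (1 - w ^ M)
      = if n = 0 then M / (1 - w ^ M) else 0 := by
    intro n hn
    rw [← Finset.sum_div, ← Finset.mul_sum]
    split_ifs with h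
    · subst h
      simp
    · have h6 : ζ ^ n ≠ 1 := hprim.pow_ne_one_of_pos_of_lt h (mem_range.1 hn)
      rw [geom_sum_eq h6, ← pow_mul, mul_comm n M, pow_mul, hζM, one_pow, sub_self, zero_div,
        mul_zero, zero_div]
  rw [Finset.sum_congr rfl h5, Finset.sum_ite_eq' (range M) 0]
  simp [hM]

theorem cosh_sub_cos_pos {t : ℝ} (ht : 0 < t) (a : ℝ) : 0 < Real.cosh t - Real.cos a := by
  have h1 : 1 < Real.cosh t := Real.one_lt_cosh.2 ht.ne'
  have h2 := Real.cos_le_one a
  linarith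

theorem re_inv_one_sub {t : ℝ} (ht : 0 < t) (a : ℝ) :
    (1 / (1 - Complex.exp (-t + a * Complex.I))).re =
      (1 + Real.sinh t / (Real.cosh t - Real.cos a)) / 2 := by
  have h0 := cosh_sub_cos_pos ht a
  have he : Complex.exp (-t + a * Complex.I) =
      ((Real.exp (-t) * Real.cos a : ℝ) : ℂ) + ((Real.exp (-t) * Real.sin a : ℝ) : ℂ) *
        Complex.I := by
    rw [Complex.exp_add, Complex.exp_mul_I]
    push_cast
    ring
  rw [he, one_div, Complex.inv_re]
  have hre0 : ∀ x y : ℝ, (1 - ((x : ℂ) + (y : ℂ) * Complex.I)).re = 1 - x := by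
    intro x y; simp
  have him0 : ∀ x y : ℝ, (1 - ((x : ℂ) + (y : ℂ) * Complex.I)).im = -y := by
    intro x y; simp
  have hre : (1 - (((Real.exp (-t) * Real.cos a : ℝ) : ℂ) +
      ((Real.exp (-t) * Real.sin a : ℝ) : ℂ) * Complex.I)).re = 1 - Real.exp (-t) * Real.cos a :=
    hre0 _ _
  have hn : Complex.normSq (1 - (((Real.exp (-t) * Real.cos a : ℝ) : ℂ) +
      ((Real.exp (-t) * Real.sin a : ℝ) : ℂ) * Complex.I)) =
      2 * Real.exp (-t) * (Real.cosh t - Real.cos a) := by
    rw [Complex.normSq_apply]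
    have h1 : (1 - (((Real.exp (-t) * Real.cos a : ℝ) : ℂ) +
      ((Real.exp (-t) * Real.sin a : ℝ) : ℂ) * Complex.I)).im = - (Real.exp (-t) * Real.sin a) :=
      him0 _ _
    rw [hre, h1]
    have h2 := Real.sin_sq_add_cos_sq a
    have h3 : Real.exp (-t) * Real.exp t = 1 := by rw [← Real.exp_add]; simp
    rw [Real.cosh_eq]
    linear_combination Real.exp (-t) ^ 2 * h2 - h3
  rw [hre, hn]
  have hpos := Real.exp_pos (-t)
  have h3 : Real.exp (-t) * Real.exp t = 1 := by rw [← Real.exp_add]; simp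
  rw [div_eq_div_iff (by positivity) (by norm_num)]
  rw [show (1 + Real.sinh t / (Real.cosh t - Real.cos a)) * (2 * Real.exp (-t) *
    (Real.cosh t - Real.cos a)) = 2 * Real.exp (-t) * (Real.cosh t - Real.cos a + Real.sinh t) by
    field_simp]
  rw [Real.cosh_eq, Real.sinh_eq]
  linear_combination -2 * h3

/-- The sum over equally spaced points. -/
theorem sum_inv_cosh_sub_cos {M : ℕ} (hM : 0 < M) {t : ℝ} (ht : 0 < t) (a : ℝ) :
    ∑ j ∈ range M, 1 / (Real.cosh t - Real.cos (a + 2 * π * j / M)) =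
      M * Real.sinh (M * t) / (Real.sinh t * (Real.cosh (M * t) - Real.cos (M * a))) := by
  have hM0 : (M : ℝ) ≠ 0 := by exact_mod_cast hM.ne'
  have hM1 : (0:ℝ) < M := by exact_mod_cast hM
  have hMt : 0 < M * t := by positivity
  have hs : 0 < Real.sinh t := Real.sinh_pos_iff.2 ht
  set w : ℂ := Complex.exp (-t + a * Complex.I) with hw
  have hwM : w ^ M = Complex.exp (-((M * t : ℝ) : ℂ) + ((M * a : ℝ) : ℂ) * Complex.I) := by
    rw [hw, ← Complex.exp_nat_mul]
    congr 1
    push_cast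
    ring
  have hne : w ^ M ≠ 1 := by
    intro h
    have h1 := congrArg (fun z : ℂ => ‖z‖) h
    simp only [norm_one] at h1
    rw [hwM, Complex.norm_exp] at h1
    simp at h1
    rcases h1 with h1 | h1
    · omega
    · linarith
  have h1 := congrArg Complex.re (sum_inv_one_sub hM w hne)
  rw [Complex.re_sum] at h1
  have h2 : ∀ j ∈ range M, (1 / (1 - w * Complex.exp (2 * π * Complex.I / M) ^ j)).re =
      (1 + Real.sinh t / (Real.cosh t - Real.cos (a + 2 * π * j / M))) / 2 := by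
    intro j _
    have h3 : w * Complex.exp (2 * π * Complex.I / M) ^ j =
        Complex.exp (-(t:ℂ) + ((a + 2 * π * j / M : ℝ) : ℂ) * Complex.I) := by
      rw [hw, ← Complex.exp_nat_mul, ← Complex.exp_add]
      congr 1
      push_cast
      ring
    rw [h3]
    exact re_inv_one_sub ht _
  rw [Finset.sum_congr rfl h2] at h1
  have h4 : ((M : ℂ) / (1 - w ^ M)).re = M * ((1 + Real.sinh (M * t) /
      (Real.cosh (M * t) - Real.cos (M * a))) / 2) := by
    rw [← re_inv_one_sub hMt (M * a), hwM]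
    have : (M : ℂ) / (1 - Complex.exp (-((M * t : ℝ) : ℂ) + ((M * a : ℝ) : ℂ) * Complex.I)) =
      ((M : ℝ) : ℂ) * (1 / (1 - Complex.exp (-((M * t : ℝ) : ℂ) + ((M * a : ℝ) : ℂ) *
        Complex.I))) := by
      push_cast
      ring
    rw [this, Complex.re_ofReal_mul]
  rw [h4] at h1
  have h5 : ∑ j ∈ range M, (1 + Real.sinh t / (Real.cosh t - Real.cos (a + 2 * π * j / M))) / 2 =
      (M + Real.sinh t * ∑ j ∈ range M, 1 / (Real.cosh t - Real.cos (a + 2 * π * j / M))) / 2 := by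
    rw [← Finset.sum_div, Finset.sum_add_distrib, Finset.mul_sum]
    simp only [Finset.sum_const, Finset.card_range, nsmul_eq_mul, mul_one, mul_one_div]
  rw [h5] at h1
  have h6 := cosh_sub_cos_pos hMt (M * a)
  rw [eq_div_iff (by positivity)]
  have h7 : Real.sinh t * ∑ j ∈ range M, 1 / (Real.cosh t - Real.cos (a + 2 * π * j / M)) =
      M * (Real.sinh (M * t) / (Real.cosh (M * t) - Real.cos (M * a))) := by linarith
  calc (∑ j ∈ range M, 1 / (Real.cosh t - Real.cos (a + 2 * π * j / M))) *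
        (Real.sinh t * (Real.cosh (M * t) - Real.cos (M * a)))
      = (Real.sinh t * ∑ j ∈ range M, 1 / (Real.cosh t - Real.cos (a + 2 * π * j / M))) *
        (Real.cosh (M * t) - Real.cos (M * a)) := by ring
    _ = M * Real.sinh (M * t) := by
        rw [h7]
        field_simp

end Pool.Agent.Lib.MP_b06be4_an.Upper
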