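import Pool.Agent.Lib.MP_b06be4_an.RowSum

/-!
Self energy of a row, averaging over rotations, geometry of points on circles of latitude.
-/

open Real Finset

namespace Pool.Agent.Lib.MP_b06be4_an.Upper

theorem sinh_le_mul_cosh {x : ℝ} (hx : 0 ≤ x) : Real.sinh x ≤ x * Real.cosh x := by
  have hmono : MonotoneOn (fun x : ℝ => x * Real.cosh x - Real.sinh x) (Set.Ici 0) := by
    apply monotoneOn_of_deriv_nonneg (convex_Ici 0)
    · exact ((continuous_id.mul Real.continuous_cosh).sub Real.continuous_sinh).continuousOn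
    · exact ((differentiable_id.mul Real.differentiable_cosh).sub
        Real.differentiable_sinh).differentiableOn
    · intro y hy
      rw [interior_Ici] at hy
      have hy' : 0 < y := hy
      have h1 : HasDerivAt (fun x : ℝ => x * Real.cosh x - Real.sinh x)
          ((1 * Real.cosh y + y * Real.sinh y) - Real.cosh y) y :=
        ((hasDerivAt_id y).mul (Real.hasDerivAt_cosh y)).sub (Real.hasDerivAt_sinh y)
      rw [h1.deriv]
      have := Real.sinh_pos_iff.2 hy'
      nlinarith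
  have := hmono (Set.mem_Ici.2 le_rfl) (Set.mem_Ici.2 hx) hx
  simp only [Real.sinh_zero, zero_mul, sub_zero] at this
  linarith

theorem mul_cosh_le {x : ℝ} (hx : 0 ≤ x) :
    x * Real.cosh x ≤ (1 + x ^ 2 / 3) * Real.sinh x := by
  have hmono : MonotoneOn (fun x : ℝ => (1 + x ^ 2 / 3) * Real.sinh x - x * Real.cosh x)
      (Set.Ici 0) := by
    apply monotoneOn_of_deriv_nonneg (convex_Ici 0)
    · apply Continuous.continuousOn
      have := Real.continuous_cosh
      have := Real.continuous_sinh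
      fun_prop
    · apply Differentiable.differentiableOn
      have := Real.differentiable_cosh
      have := Real.differentiable_sinh
      fun_prop
    · intro y hy
      rw [interior_Ici] at hy
      have hy' : 0 < y := hy
      have h1 : HasDerivAt (fun x : ℝ => (1 + x ^ 2 / 3) * Real.sinh x - x * Real.cosh x)
          (((2 * y / 3) * Real.sinh y + (1 + y ^ 2 / 3) * Real.cosh y) -
            (1 * Real.cosh y + y * Real.sinh y)) y := by
        refine HasDerivAt.sub ?_ ((hasDerivAt_id y).mul (Real.hasDerivAt_cosh y))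
        have h2 : HasDerivAt (fun x : ℝ => 1 + x ^ 2 / 3) (2 * y / 3) y := by
          have := ((hasDerivAt_pow 2 y).div_const 3).const_add 1
          simpa using this
        exact h2.mul (Real.hasDerivAt_sinh y)
      rw [h1.deriv]
      have := sinh_le_mul_cosh hy'.le
      nlinarith
  have := hmono (Set.mem_Ici.2 le_rfl) (Set.mem_Ici.2 hx) hx
  simp only [Real.sinh_zero, zero_mul, mul_zero, sub_zero] at this
  linarith

/-- Self energy of `M` equally spaced points. -/
theorem self_sum_le {M : ℕ} (hM : 0 < M) :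
    ∑ j ∈ (range M).erase 0, 1 / (1 - Real.cos (2 * π * j / M)) ≤ (M : ℝ) ^ 2 / 6 := by
  have hM1 : (0:ℝ) < M := by exact_mod_cast hM
  have hne : ∀ j ∈ (range M).erase 0, 1 - Real.cos (2 * π * j / M) ≠ 0 := by
    intro j hj h
    rw [mem_erase, mem_range] at hj
    have h1 : Real.cos (2 * π * j / M) = 1 := by linarith
    rw [Real.cos_eq_one_iff] at h1
    obtain ⟨n, hn⟩ := h1
    have h2 : (n : ℝ) * M = j := by
      have h3 : (n : ℝ) * (2 * π) * M = 2 * π * j := by
        rw [hn]; field_simp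
      have hpi := Real.pi_pos
      have : (2 * π) * ((n : ℝ) * M - j) = 0 := by linarith
      rcases mul_eq_zero.1 this with h4 | h4
      · linarith
      · linarith
    have h3 : n * (M : ℤ) = j := by exact_mod_cast h2
    have hjpos : 0 < j := Nat.pos_of_ne_zero hj.1
    have h4 : 0 < n := by
      by_contra h5
      push Not at h5
      have : n * (M : ℤ) ≤ 0 := mul_nonpos_of_nonpos_of_nonneg h5 (by positivity)
      omega
    have h5 : (M : ℤ) ≤ n * M := by nlinarith
    omega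
  have hlim : Filter.Tendsto (fun t : ℝ => ∑ j ∈ (range M).erase 0,
      1 / (Real.cosh t - Real.cos (2 * π * j / M))) (nhdsWithin 0 (Set.Ioi 0))
      (nhds (∑ j ∈ (range M).erase 0, 1 / (1 - Real.cos (2 * π * j / M)))) := by
    apply tendsto_finsetSum
    intro j hj
    have h1 : Filter.Tendsto (fun t : ℝ => Real.cosh t - Real.cos (2 * π * j / M))
        (nhds 0) (nhds (1 - Real.cos (2 * π * j / M))) := by
      have := (Real.continuous_cosh.tendsto 0).sub_const (Real.cos (2 * π * j / M))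
      simpa using this
    have h2 := (tendsto_const_nhds (x := (1:ℝ))).div h1 (hne j hj)
    exact h2.mono_left nhdsWithin_le_nhds
  refine le_of_tendsto hlim ?_
  filter_upwards [self_mem_nhdsWithin] with t ht
  have ht' : 0 < t := ht
  have h1 := sum_inv_cosh_sub_cos hM ht' 0
  simp only [zero_add, mul_zero, Real.cos_zero] at h1
  have h2 : ∑ j ∈ range M, 1 / (Real.cosh t - Real.cos (2 * π * j / M)) =
      ∑ j ∈ (range M).erase 0, 1 / (Real.cosh t - Real.cos (2 * π * j / M)) +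
        1 / (Real.cosh t - 1) := by
    rw [← Finset.sum_erase_add _ _ (mem_range.2 hM)]
    simp
  have h3 : ∑ j ∈ (range M).erase 0, 1 / (Real.cosh t - Real.cos (2 * π * j / M)) =
      M * Real.sinh (M * t) / (Real.sinh t * (Real.cosh (M * t) - 1)) - 1 / (Real.cosh t - 1) := by
    linarith
  rw [h3]
  set s := t / 2 with hs
  have hs0 : 0 < s := by positivity
  have hts : t = 2 * s := by rw [hs]; ring
  have e1 : Real.sinh t = 2 * Real.sinh s * Real.cosh s := by rw [hts, Real.sinh_two_mul]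
  have e2 : Real.cosh t - 1 = 2 * Real.sinh s ^ 2 := by
    rw [hts, Real.cosh_two_mul, Real.cosh_sq]; ring
  have e3 : Real.sinh (M * t) = 2 * Real.sinh (M * s) * Real.cosh (M * s) := by
    rw [hts, show (M:ℝ) * (2 * s) = 2 * (M * s) by ring, Real.sinh_two_mul]
  have e4 : Real.cosh (M * t) - 1 = 2 * Real.sinh (M * s) ^ 2 := by
    rw [hts, show (M:ℝ) * (2 * s) = 2 * (M * s) by ring, Real.cosh_two_mul, Real.cosh_sq]; ring
  have hMs : 0 < M * s := by positivity
  have hA := Real.sinh_pos_iff.2 hs0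
  have hB := Real.sinh_pos_iff.2 hMs
  have hC := Real.cosh_pos s
  have hD := Real.cosh_pos (M * s)
  rw [e1, e2, e3, e4]
  have h5 : M * (2 * Real.sinh (M * s) * Real.cosh (M * s)) /
      (2 * Real.sinh s * Real.cosh s * (2 * Real.sinh (M * s) ^ 2)) =
      (M * Real.cosh (M * s) / Real.sinh (M * s)) / (2 * Real.sinh s * Real.cosh s) := by
    field_simp
  rw [h5]
  have h6 : M * Real.cosh (M * s) / Real.sinh (M * s) ≤ 1 / s + M ^ 2 * s / 3 := by
    rw [div_le_iff₀ hB]
    have := mul_cosh_le hMs.le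
    have h7 : M * Real.cosh (M * s) = (M * s * Real.cosh (M * s)) / s := by field_simp
    rw [h7, div_le_iff₀ hs0]
    calc M * s * Real.cosh (M * s) ≤ (1 + (M * s) ^ 2 / 3) * Real.sinh (M * s) := this
      _ = (1 / s + M ^ 2 * s / 3) * Real.sinh (M * s) * s := by field_simp
  have h7 : s ≤ Real.sinh s := Real.self_le_sinh_iff.2 hs0.le
  have h8 : 1 ≤ Real.cosh s := Real.one_le_cosh s
  have h9 := sinh_le_mul_cosh hs0.le
  have h10 : (M * Real.cosh (M * s) / Real.sinh (M * s)) / (2 * Real.sinh s * Real.cosh s) ≤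
      (1 / s + M ^ 2 * s / 3) / (2 * Real.sinh s * Real.cosh s) := by gcongr
  have h11 : (1 / s + M ^ 2 * s / 3) / (2 * Real.sinh s * Real.cosh s) =
      1 / (2 * Real.sinh s * (s * Real.cosh s)) +
      (M:ℝ) ^ 2 / 6 * (s / (Real.sinh s * Real.cosh s)) := by field_simp; ring
  have h12 : 1 / (2 * Real.sinh s * (s * Real.cosh s)) ≤ 1 / (2 * Real.sinh s ^ 2) := by
    apply one_div_le_one_div_of_le (by positivity)
    nlinarith
  have h13 : s / (Real.sinh s * Real.cosh s) ≤ 1 := by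
    rw [div_le_one (by positivity)]
    nlinarith
  have h14 : (M:ℝ) ^ 2 / 6 * (s / (Real.sinh s * Real.cosh s)) ≤ (M:ℝ) ^ 2 / 6 * 1 := by
    gcongr
  linarith

/-- Averaging over rotations. -/
theorem exists_rotation {ι : Type*} (S : Finset ι) (D t φ : ι → ℝ) (hD : ∀ s ∈ S, 0 < D s)
    (ht : ∀ s ∈ S, 0 < t s) {ε : ℝ} (hε : 0 < ε) :
    ∃ θ : ℝ, ∑ s ∈ S, 1 / (D s * (Real.cosh (t s) - Real.cos (θ + φ s))) ≤
      (1 + ε) * ∑ s ∈ S, 1 / (D s * Real.sinh (t s)) := by
  classical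
  -- a common lower bound for the `t s`
  obtain ⟨t₀, ht₀, hmin⟩ : ∃ t₀ : ℝ, 0 < t₀ ∧ ∀ s ∈ S, t₀ ≤ t s := by
    rcases S.eq_empty_or_nonempty with h | h
    · exact ⟨1, one_pos, by simp [h]⟩
    · obtain ⟨s₀, hs₀, h0⟩ := S.exists_min_image t h
      exact ⟨t s₀, ht s₀ hs₀, h0⟩
  obtain ⟨L, hL⟩ := exists_nat_gt (Real.sqrt (2 / ε) / t₀)
  have hL0 : (0:ℝ) < L := lt_of_le_of_lt (by positivity) hL
  have hLpos : 0 < L := by exact_mod_cast hL0
  have hkey : ∀ s ∈ S, ∀ a : ℝ, Real.sinh (L * t s) / (Real.cosh (L * t s) - Real.cos a) ≤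
      1 + ε := by
    intro s hs a
    have h1 : Real.sqrt (2 / ε) < L * t s := by
      rw [div_lt_iff₀ ht₀] at hL
      have := hmin s hs
      nlinarith
    have hx : 0 < L * t s := lt_of_le_of_lt (Real.sqrt_nonneg _) h1
    have h2 : 2 / ε < (L * t s) ^ 2 := by
      have := Real.sqrt_lt_sqrt_iff (x := 2 / ε) (y := (L * t s) ^ 2) (by positivity)
      rw [Real.sqrt_sq hx.le] at this
      exact this.1 h1
    have h3 : 1 + (L * t s) ^ 2 / 2 ≤ Real.cosh (L * t s) := by
      have h4 := Real.self_le_sinh_iff.2 (by positivity : 0 ≤ (L * t s) / 2)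
      have h5 : Real.cosh (L * t s) = 1 + 2 * Real.sinh ((L * t s) / 2) ^ 2 := by
        conv_lhs => rw [show L * t s = 2 * ((L * t s) / 2) by ring]
        rw [Real.cosh_two_mul, Real.cosh_sq]; ring
      rw [h5]
      nlinarith
    have h6 : Real.sinh (L * t s) ≤ Real.cosh (L * t s) := by
      rw [Real.sinh_eq, Real.cosh_eq]
      have := Real.exp_pos (-(L * t s))
      linarith
    have h7 := cosh_sub_cos_pos hx a
    rw [div_le_iff₀ h7]
    have h8 := Real.cos_le_one a
    have h9 : 1 < ε * (Real.cosh (L * t s) - 1) := by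
      have h10 : 1 / ε < Real.cosh (L * t s) - 1 := by
        have : 2 / ε = 2 * (1 / ε) := by ring
        linarith
      rw [div_lt_iff₀ hε] at h10
      linarith
    nlinarith
  have hsum : ∑ k ∈ range L, ∑ s ∈ S, 1 / (D s * (Real.cosh (t s) -
      Real.cos (2 * π * k / L + φ s))) ≤
      ∑ k ∈ range L, (1 + ε) * ∑ s ∈ S, 1 / (D s * Real.sinh (t s)) := by
    rw [Finset.sum_comm, Finset.sum_const, Finset.card_range, nsmul_eq_mul, Finset.mul_sum,
      Finset.mul_sum]
    refine Finset.sum_le_sum fun s hs => ?_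
    have h1 := sum_inv_cosh_sub_cos hLpos (ht s hs) (φ s)
    have h2 : ∑ k ∈ range L, 1 / (D s * (Real.cosh (t s) - Real.cos (2 * π * k / L + φ s))) =
        (1 / D s) * ∑ k ∈ range L, 1 / (Real.cosh (t s) - Real.cos (φ s + 2 * π * k / L)) := by
      rw [Finset.mul_sum]
      refine Finset.sum_congr rfl fun k _ => ?_
      rw [add_comm (φ s), one_div_mul_one_div]
    rw [h2, h1]
    have hDs := hD s hs
    have hss := Real.sinh_pos_iff.2 (ht s hs)
    have h3 := hkey s hs (L * φ s)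
    have h4 := cosh_sub_cos_pos (by have := ht s hs; positivity : 0 < L * t s) (L * φ s)
    calc (1 / D s) * (L * Real.sinh (L * t s) / (Real.sinh (t s) *
          (Real.cosh (L * t s) - Real.cos (L * φ s))))
        = (Real.sinh (L * t s) / (Real.cosh (L * t s) - Real.cos (L * φ s))) *
          (L * (1 / (D s * Real.sinh (t s)))) := by field_simp
      _ ≤ (1 + ε) * (L * (1 / (D s * Real.sinh (t s)))) := by gcongr
      _ = L * ((1 + ε) * (1 / (D s * Real.sinh (t s)))) := by ring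
  obtain ⟨k, _, hk⟩ := Finset.exists_le_of_sum_le (by simpa using hLpos.ne') hsum
  exact ⟨2 * π * k / L, hk⟩

/-! ### Geometry -/

/-- The point of height `z` and longitude `φ`. -/
noncomputable def pt (φ z : ℝ) : EuclideanSpace ℝ (Fin 3) :=
  !₂[Real.sqrt (1 - z ^ 2) * Real.cos φ, Real.sqrt (1 - z ^ 2) * Real.sin φ, z]

theorem norm_pt {φ z : ℝ} (hz : z ^ 2 ≤ 1) : ‖pt φ z‖ = 1 := by
  have h1 : ‖pt φ z‖ ^ 2 = 1 := by
    rw [EuclideanSpace.norm_sq_eq]
    simp only [pt, Fin.sum_univ_three, Real.norm_eq_abs, sq_abs]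
    have h2 := Real.sq_sqrt (by linarith : 0 ≤ 1 - z ^ 2)
    have h3 := Real.sin_sq_add_cos_sq φ
    simp
    linear_combination (Real.cos φ ^ 2 + Real.sin φ ^ 2) * h2 + (1 - z ^ 2) * h3
  nlinarith [norm_nonneg (pt φ z)]

theorem dist_sq_pt {φ z φ' z' : ℝ} (hz : z ^ 2 ≤ 1) (hz' : z' ^ 2 ≤ 1) :
    ‖pt φ z - pt φ' z'‖ ^ 2 = 2 - 2 * z * z' -
      2 * Real.sqrt (1 - z ^ 2) * Real.sqrt (1 - z' ^ 2) * Real.cos (φ - φ') := by
  rw [EuclideanSpace.norm_sq_eq]
  simp only [pt, Fin.sum_univ_three, Real.norm_eq_abs, sq_abs]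
  have h2 := Real.sq_sqrt (by linarith : 0 ≤ 1 - z ^ 2)
  have h2' := Real.sq_sqrt (by linarith : 0 ≤ 1 - z' ^ 2)
  have h3 := Real.sin_sq_add_cos_sq φ
  have h3' := Real.sin_sq_add_cos_sq φ'
  rw [Real.cos_sub]
  simp
  linear_combination (Real.cos φ ^ 2 + Real.sin φ ^ 2) * h2 + (1 - z ^ 2) * h3 +
    (Real.cos φ' ^ 2 + Real.sin φ' ^ 2) * h2' + (1 - z' ^ 2) * h3'

theorem dist_sq_same {φ z φ' : ℝ} (hz : z ^ 2 ≤ 1) :
    ‖pt φ z - pt φ' z‖ ^ 2 = 2 * (1 - z ^ 2) * (1 - Real.cos (φ - φ')) := by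
  rw [dist_sq_pt hz hz]
  have h2 := Real.mul_self_sqrt (by linarith : 0 ≤ 1 - z ^ 2)
  linear_combination (-2 * Real.cos (φ - φ')) * h2

theorem tau_cosh {z z' : ℝ} (hz : z ∈ Set.Ioo (-1:ℝ) 1) (hz' : z' ∈ Set.Ioo (-1:ℝ) 1) :
    Real.sqrt (1 - z ^ 2) * Real.sqrt (1 - z' ^ 2) *
      Real.cosh (Real.artanh z - Real.artanh z') = 1 - z * z' := by
  have h1 : 0 < Real.sqrt (1 - z ^ 2) := Real.sqrt_pos.2 (by nlinarith [hz.1, hz.2])
  have h2 : 0 < Real.sqrt (1 - z' ^ 2) := Real.sqrt_pos.2 (by nlinarith [hz'.1, hz'.2])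
  rw [Real.cosh_sub, Real.cosh_artanh hz, Real.cosh_artanh hz', Real.sinh_artanh hz,
    Real.sinh_artanh hz']
  field_simp

theorem tau_sinh {z z' : ℝ} (hz : z ∈ Set.Ioo (-1:ℝ) 1) (hz' : z' ∈ Set.Ioo (-1:ℝ) 1) :
    Real.sqrt (1 - z ^ 2) * Real.sqrt (1 - z' ^ 2) *
      Real.sinh (Real.artanh z - Real.artanh z') = z - z' := by
  have h1 : 0 < Real.sqrt (1 - z ^ 2) := Real.sqrt_pos.2 (by nlinarith [hz.1, hz.2])
  have h2 : 0 < Real.sqrt (1 - z' ^ 2) := Real.sqrt_pos.2 (by nlinarith [hz'.1, hz'.2])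
  rw [Real.sinh_sub, Real.cosh_artanh hz, Real.cosh_artanh hz', Real.sinh_artanh hz,
    Real.sinh_artanh hz']
  field_simp

theorem dist_sq_tau {φ z φ' z' : ℝ} (hz : z ∈ Set.Ioo (-1:ℝ) 1) (hz' : z' ∈ Set.Ioo (-1:ℝ) 1) :
    ‖pt φ z - pt φ' z'‖ ^ 2 = (2 * Real.sqrt (1 - z ^ 2) * Real.sqrt (1 - z' ^ 2)) *
      (Real.cosh (Real.artanh z - Real.artanh z') - Real.cos (φ - φ')) := by
  rw [dist_sq_pt (by nlinarith [hz.1, hz.2]) (by nlinarith [hz'.1, hz'.2])]
  have := tau_cosh hz hz'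
  linear_combination -2 * this

end Pool.Agent.Lib.MP_b06be4_an.Upper
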