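import Pool.Agent.Lib.MP_b06be4_an.Caps

/-!
The limit of the local sums.
-/

open Real Finset Filter Topology

namespace Pool.Agent.Lib.MP_b06be4_an.Upper

/-- Terms of the series. -/
noncomputable def gg (a c : ℝ) (k : ℕ) : ℝ := (FF a c (k + 1) - 1) / ((k + 1 : ℕ) : ℝ)

/-- The series. -/
noncomputable def SS (a c : ℝ) : ℝ := ∑' k, gg a c k

theorem gg_bound {a₀ a c : ℝ} (h0 : 0 < a₀) (ha : a₀ ≤ a) (hc : a₀ ≤ c) (k : ℕ) :
    ‖gg a c k‖ ≤ 1 / a₀ * (1 / ((k + 1 : ℕ) : ℝ) ^ 2) := by
  have ha0 : 0 < a := h0.trans_le ha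
  have hc0 : 0 < c := h0.trans_le hc
  have hk : (0:ℝ) < ((k + 1 : ℕ) : ℝ) := by positivity
  set m : ℝ := ((k + 1 : ℕ) : ℝ) with hm
  have hkey : |FF a c (k + 1) - 1| ≤ 1 / (a₀ * m) := by
    unfold FF
    rw [← hm]
    split_ifs
    · have h1 : 2 * m * a ≤ Real.exp (2 * m * a) - 1 := by
        have := Real.add_one_le_exp (2 * m * a); linarith
      have h2 : 0 < 2 * m * a := by positivity
      rw [add_sub_cancel_left, abs_of_pos (by apply div_pos (by norm_num); linarith)]
      rw [div_le_div_iff₀ (by linarith) (by positivity)]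
      nlinarith
    · have h1 : 2 * m * c + 1 ≤ Real.exp (2 * m * c) := Real.add_one_le_exp (2 * m * c)
      have h2 : 0 < 2 * m * c := by positivity
      rw [show (1:ℝ) - 2 / (Real.exp (2 * m * c) + 1) - 1 = -(2 / (Real.exp (2 * m * c) + 1)) by
        ring, abs_neg, abs_of_pos (by apply div_pos (by norm_num); linarith)]
      rw [div_le_div_iff₀ (by linarith) (by positivity)]
      nlinarith
  unfold gg
  rw [norm_div, Real.norm_eq_abs, Real.norm_eq_abs, abs_of_pos hk, div_le_iff₀ hk]
  refine hkey.trans (le_of_eq ?_)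
  field_simp

theorem summable_bound (a₀ : ℝ) : Summable (fun k : ℕ => 1 / a₀ * (1 / ((k + 1 : ℕ) : ℝ) ^ 2)) := by
  apply Summable.mul_left
  have h := (Real.summable_one_div_nat_pow (p := 2)).2 (by norm_num)
  exact (summable_nat_add_iff 1).2 h

theorem gg_summable {a c : ℝ} (ha : 0 < a) (hc : 0 < c) : Summable (gg a c) := by
  have h0 : 0 < min a c := lt_min ha hc
  exact Summable.of_norm_bounded (summable_bound (min a c))
    (fun k => gg_bound h0 (min_le_left _ _) (min_le_right _ _) k)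

theorem log_half_tendsto :
    Tendsto (fun m : ℕ => Real.log (m + 1 / 2) - Real.log m) atTop (𝓝 0) := by
  have h1 : Tendsto (fun m : ℕ => (1:ℝ) + (1 / 2) / (m:ℝ)) atTop (𝓝 (1 + 0)) :=
    tendsto_const_nhds.add (tendsto_const_div_atTop_nhds_zero_nat (1 / 2 : ℝ))
  rw [add_zero] at h1
  have h2 := (Real.continuousAt_log (one_ne_zero)).tendsto.comp h1
  rw [Real.log_one] at h2
  refine h2.congr' ?_
  filter_upwards [eventually_gt_atTop 0] with m hm
  have hm' : (0:ℝ) < m := by exact_mod_cast hm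
  simp only [Function.comp]
  rw [← Real.log_div (by positivity) hm'.ne']
  congr 1
  field_simp

theorem GG_tendsto {a c : ℝ} (ha : 0 < a) (hc : 0 < c) :
    Tendsto (GG a c) atTop (𝓝 (Real.eulerMascheroniConstant + SS a c)) := by
  have h1 := Real.tendsto_harmonic_sub_log
  have h2 := log_half_tendsto
  have h3 := (gg_summable ha hc).hasSum.tendsto_sum_nat
  have h4 := (h1.sub h2).add h3
  rw [sub_zero] at h4
  refine h4.congr ?_
  intro m
  unfold GG HH
  have e1 : ((harmonic m : ℚ) : ℝ) = ∑ k ∈ range m, 1 / ((k + 1 : ℕ) : ℝ) := by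
    unfold harmonic
    push_cast
    refine Finset.sum_congr rfl fun k _ => ?_
    rw [one_div]
  have e2 : ∑ k ∈ range m, FF a c (k + 1) / ((k + 1 : ℕ) : ℝ) =
      ∑ k ∈ range m, 1 / ((k + 1 : ℕ) : ℝ) + ∑ k ∈ range m, gg a c k := by
    rw [← Finset.sum_add_distrib]
    refine Finset.sum_congr rfl fun k _ => ?_
    unfold gg
    ring
  rw [e1, e2]
  ring

theorem SS_tendsto {al : ℝ} (hal : 0 < al) :
    Tendsto (fun η : ℝ => SS (al - η) (al + η)) (𝓝[>] 0) (𝓝 (SS al al)) := by
  unfold SS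
  apply tendsto_tsum_of_dominated_convergence (summable_bound (al / 2))
  · intro k
    unfold gg
    apply Tendsto.div_const
    apply Tendsto.sub_const
    have ht : Tendsto (fun η : ℝ => al - η) (𝓝[>] 0) (𝓝 al) := by
      have : Tendsto (fun η : ℝ => al - η) (𝓝 0) (𝓝 (al - 0)) := tendsto_const_nhds.sub tendsto_id
      rw [sub_zero] at this
      exact this.mono_left nhdsWithin_le_nhds
    have ht2 : Tendsto (fun η : ℝ => al + η) (𝓝[>] 0) (𝓝 al) := by
      have : Tendsto (fun η : ℝ => al + η) (𝓝 0) (𝓝 (al + 0)) := tendsto_const_nhds.add tendsto_id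
      rw [add_zero] at this
      exact this.mono_left nhdsWithin_le_nhds
    have hk : (0:ℝ) < ((k + 1 : ℕ) : ℝ) := by positivity
    unfold FF
    split_ifs with he
    · apply Tendsto.const_add
      apply Tendsto.div tendsto_const_nhds
      · apply Tendsto.sub_const
        exact (Real.continuous_exp.tendsto _).comp (ht.const_mul _)
      · have : 1 < Real.exp (2 * ((k + 1 : ℕ) : ℝ) * al) := Real.one_lt_exp_iff.2 (by positivity)
        linarith
    · apply Tendsto.const_sub
      apply Tendsto.div tendsto_const_nhds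
      · apply Tendsto.add_const
        exact (Real.continuous_exp.tendsto _).comp (ht2.const_mul _)
      · positivity
  · have h1 : ∀ᶠ η : ℝ in 𝓝[>] 0, η < al / 2 :=
      (eventually_lt_nhds (by positivity : (0:ℝ) < al / 2)).filter_mono nhdsWithin_le_nhds
    filter_upwards [h1, self_mem_nhdsWithin] with η hη hη0 k
    have hη0' : 0 < η := hη0
    exact gg_bound (by positivity) (by linarith) (by linarith) k

/-- Averages of `GG`. -/
theorem GG_avg {a c : ℝ} (ha : 0 < a) (hc : 0 < c) {q : ℕ → ℕ} (hq : Tendsto q atTop atTop) :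
    Tendsto (fun L => ((q L : ℕ) : ℝ)⁻¹ * ∑ i ∈ range (q L), GG a c i) atTop
      (𝓝 (Real.eulerMascheroniConstant + SS a c)) :=
  (GG_tendsto ha hc).cesaro.comp hq

end Pool.Agent.Lib.MP_b06be4_an.Upper
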