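import Mathlib

/-!
Averaging over directions in `ℝ³`: the pushforward of the volume of the unit ball under
`w ↦ w / ‖w‖` is rotation invariant, hence the mean of `cos ⟪ω, v⟫` is `sinc ‖v‖`.
Consequence: for unit vectors `x i`, `N² sinc(k)² ≤ ∑ i j, sinc (k ‖x i - x j‖)`.
-/

open MeasureTheory Real
open scoped RealInnerProductSpace

namespace Pool.Agent.Lib.MP_b06be4_an

/-- three dimensional Euclidean space -/
abbrev E3 := EuclideanSpace ℝ (Fin 3)

/-- volume restricted to the closed unit ball -/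
noncomputable def muB : Measure E3 := volume.restrict (Metric.closedBall 0 1)

instance : IsFiniteMeasure muB := by
  unfold muB
  exact ⟨by
    rw [Measure.restrict_apply_univ]
    exact (isCompact_closedBall (0:E3) 1).measure_lt_top⟩

/-- direction of a vector -/
noncomputable def dir (w : E3) : E3 := (‖w‖⁻¹) • w

lemma measurable_dir : Measurable dir := by
  unfold dir
  exact (measurable_norm.inv).smul measurable_id

lemma norm_dir {w : E3} (hw : w ≠ 0) : ‖dir w‖ = 1 := by
  unfold dir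
  rw [norm_smul, norm_inv, norm_norm, inv_mul_cancel₀ (norm_ne_zero_iff.mpr hw)]

lemma norm_dir_le (w : E3) : ‖dir w‖ ≤ 1 := by
  by_cases hw : w = 0
  · simp [dir, hw]
  · exact (norm_dir hw).le

lemma dir_map (g : E3 ≃ₗᵢ[ℝ] E3) (w : E3) : dir (g w) = g (dir w) := by
  simp [dir]

lemma muB_preserving (g : E3 ≃ₗᵢ[ℝ] E3) : MeasurePreserving g muB muB := by
  have h := (g.measurePreserving).restrict_preimage (s := Metric.closedBall (0:E3) 1)
    Metric.isClosed_closedBall.measurableSet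
  have hpre : g ⁻¹' (Metric.closedBall (0:E3) 1) = Metric.closedBall (0:E3) 1 := by
    ext w; simp
  rw [hpre] at h
  exact h

lemma abs_inner_dir_le (w v : E3) : |⟪dir w, v⟫| ≤ ‖v‖ := by
  calc |⟪dir w, v⟫| ≤ ‖dir w‖ * ‖v‖ := abs_real_inner_le_norm _ _
    _ ≤ 1 * ‖v‖ := by gcongr; exact norm_dir_le w
    _ = ‖v‖ := one_mul _

lemma measurable_inner_dir (v : E3) : Measurable fun w => ⟪dir w, v⟫ :=
  measurable_dir.inner measurable_const

lemma integrable_of_bdd {f : E3 → ℝ} (hf : Measurable f) (C : ℝ) (h : ∀ w, |f w| ≤ C) :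
    Integrable f muB :=
  Integrable.of_bound hf.aestronglyMeasurable C (Filter.Eventually.of_forall fun w => by
    simpa using h w)

lemma integrable_inner_pow (v u : E3) (a b : ℕ) :
    Integrable (fun w => ⟪dir w, v⟫ ^ a * ⟪dir w, u⟫ ^ b) muB := by
  refine integrable_of_bdd (((measurable_inner_dir v).pow_const a).mul
    ((measurable_inner_dir u).pow_const b)) (‖v‖ ^ a * ‖u‖ ^ b) fun w => ?_
  rw [abs_mul, abs_pow, abs_pow]
  gcongr
  · exact abs_inner_dir_le w v
  · exact abs_inner_dir_le w u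

/-- directional moments -/
noncomputable def mom (k : ℕ) (v : E3) : ℝ := ∫ w, ⟪dir w, v⟫ ^ k ∂muB

lemma mom_map (k : ℕ) (g : E3 ≃ₗᵢ[ℝ] E3) (v : E3) : mom k (g v) = mom k v := by
  unfold mom
  have h := (muB_preserving g).integral_comp' (f := g.toHomeomorph.toMeasurableEquiv)
    (fun w => ⟪dir w, g v⟫ ^ k)
  rw [← h]
  congr 1
  ext w
  have : (g.toHomeomorph.toMeasurableEquiv) w = g w := rfl
  rw [this, dir_map, LinearIsometryEquiv.inner_map_map]

lemma mom_eq_of_norm_eq (k : ℕ) {v u : E3} (h : ‖v‖ = ‖u‖) : mom k v = mom k u := by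
  have h1 := Submodule.reflection_sub h
  rw [← h1]
  exact (mom_map k _ v).symm

lemma mom_smul (k : ℕ) (c : ℝ) (v : E3) : mom k (c • v) = c ^ k * mom k v := by
  unfold mom
  rw [← integral_const_mul]
  congr 1
  ext w
  rw [inner_smul_right, mul_pow]

/-- basis vectors -/
noncomputable def e (i : Fin 3) : E3 := EuclideanSpace.single i 1

lemma norm_e (i : Fin 3) : ‖e i‖ = 1 := by simp [e]

lemma mom_eq (k : ℕ) (v : E3) : mom k v = ‖v‖ ^ k * mom k (e 0) := by
  have h : ‖v‖ = ‖(‖v‖) • e 0‖ := by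
    rw [norm_smul, norm_e, mul_one, norm_norm]
  rw [mom_eq_of_norm_eq k h, mom_smul]

lemma norm_e_add (t : ℝ) (j : Fin 3) (hj : j ≠ 0) : ‖e 0 + t • e j‖ ^ 2 = 1 + t ^ 2 := by
  rw [norm_add_sq_real, norm_smul, norm_e, norm_e]
  have : ⟪e 0, t • e j⟫ = 0 := by
    simp [e, inner_smul_right, EuclideanSpace.inner_single_left, hj.symm]
  rw [this]
  simp [Real.norm_eq_abs]

/-- the polynomial identity obtained from rotation invariance -/
lemma mom_poly (n : ℕ) (j : Fin 3) (hj : j ≠ 0) (t : ℝ) :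
    ∑ m ∈ Finset.range (2 * n + 1), (∫ w, ⟪dir w, e j⟫ ^ m * ⟪dir w, e 0⟫ ^ (2 * n - m) ∂muB) *
      ((2 * n).choose m : ℝ) * t ^ m = (1 + t ^ 2) ^ n * mom (2 * n) (e 0) := by
  have h1 : mom (2 * n) (e 0 + t • e j) = (1 + t ^ 2) ^ n * mom (2 * n) (e 0) := by
    rw [mom_eq, pow_mul, norm_e_add t j hj]
  rw [← h1]
  unfold mom
  have h2 : ∀ w, ⟪dir w, e 0 + t • e j⟫ ^ (2 * n) =
      ∑ m ∈ Finset.range (2 * n + 1),
        (⟪dir w, e j⟫ ^ m * ⟪dir w, e 0⟫ ^ (2 * n - m)) * (((2 * n).choose m : ℝ) * t ^ m) := by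
    intro w
    rw [inner_add_right, inner_smul_right, add_comm, add_pow]
    refine Finset.sum_congr rfl fun m _ => ?_
    rw [mul_pow]; ring
  simp_rw [h2]
  rw [integral_finsetSum]
  · refine Finset.sum_congr rfl fun m _ => ?_
    rw [integral_mul_const, mul_assoc]
  · intro m _
    exact (integrable_inner_pow _ _ _ _).mul_const _

lemma mom_second (n : ℕ) (hn : 1 ≤ n) (j : Fin 3) (hj : j ≠ 0) :
    (2 * (n:ℝ) - 1) * ∫ w, ⟪dir w, e j⟫ ^ 2 * ⟪dir w, e 0⟫ ^ (2 * n - 2) ∂muB =
      mom (2 * n) (e 0) := by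
  set c : ℕ → ℝ := fun m => (∫ w, ⟪dir w, e j⟫ ^ m * ⟪dir w, e 0⟫ ^ (2 * n - m) ∂muB) *
      ((2 * n).choose m : ℝ) with hc
  set P : Polynomial ℝ := ∑ m ∈ Finset.range (2 * n + 1), Polynomial.C (c m) * Polynomial.X ^ m
    with hP
  set Q : Polynomial ℝ := Polynomial.expand ℝ 2 ((1 + Polynomial.X) ^ n) *
    Polynomial.C (mom (2 * n) (e 0)) with hQ
  have hPQ : P = Q := by
    apply Polynomial.funext
    intro t
    have h := mom_poly n j hj t
    rw [hP, hQ, Polynomial.eval_finsetSum]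
    simp only [Polynomial.eval_mul, Polynomial.eval_C, Polynomial.eval_pow, Polynomial.eval_X,
      Polynomial.expand_eval, Polynomial.eval_add, Polynomial.eval_one]
    exact h
  have h2 : P.coeff 2 = c 2 := by
    rw [hP, Polynomial.finsetSum_coeff]
    simp only [Polynomial.coeff_C_mul, Polynomial.coeff_X_pow]
    rw [Finset.sum_eq_single 2]
    · simp
    · intro b _ hb
      simp [hb.symm]
    · intro h
      exfalso
      apply h
      rw [Finset.mem_range]; omega
  have h3 : Q.coeff 2 = n * mom (2 * n) (e 0) := by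
    rw [hQ, Polynomial.coeff_mul_C]
    congr 1
    have : (2:ℕ) = 1 * 2 := by norm_num
    nth_rewrite 2 [this]
    rw [Polynomial.coeff_expand_mul (by norm_num), Polynomial.coeff_one_add_X_pow]
    simp
  rw [hPQ, h3] at h2
  simp only [hc] at h2
  have h4 : ((2 * n).choose 2 : ℝ) = n * (2 * n - 1) := by
    rw [Nat.cast_choose_two]; push_cast; ring
  rw [h4] at h2
  have hn0 : (n:ℝ) ≠ 0 := by positivity
  apply mul_left_cancel₀ hn0
  rw [h2]; ring

lemma sum_sq_dir {w : E3} (hw : w ≠ 0) :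
    ⟪dir w, e 1⟫ ^ 2 + ⟪dir w, e 2⟫ ^ 2 = 1 - ⟪dir w, e 0⟫ ^ 2 := by
  have h := norm_dir hw
  have h2 : ‖dir w‖ ^ 2 = 1 := by rw [h]; norm_num
  rw [EuclideanSpace.norm_sq_eq, Fin.sum_univ_three] at h2
  simp only [e, EuclideanSpace.inner_single_right, Real.norm_eq_abs, sq_abs] at h2 ⊢
  simp at h2 ⊢
  linarith

lemma ae_ne_zero : ∀ᵐ w ∂muB, w ≠ 0 := by
  unfold muB
  apply ae_restrict_of_ae
  rw [ae_iff]
  simp

lemma mom_rec (n : ℕ) : (2 * (n:ℝ) + 1) * mom (2 * n) (e 0) = mom 0 (e 0) := by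
  induction n with
  | zero => simp
  | succ n ih =>
    have h1 := mom_second (n + 1) (by omega) 1 (by decide)
    have h2 := mom_second (n + 1) (by omega) 2 (by decide)
    have e1 : 2 * (n + 1) - 2 = 2 * n := by omega
    rw [e1] at h1 h2
    have h3 : (∫ w, ⟪dir w, e 1⟫ ^ 2 * ⟪dir w, e 0⟫ ^ (2 * n) ∂muB) +
        (∫ w, ⟪dir w, e 2⟫ ^ 2 * ⟪dir w, e 0⟫ ^ (2 * n) ∂muB) =
        mom (2 * n) (e 0) - mom (2 * (n + 1)) (e 0) := by
      unfold mom
      rw [← integral_add (integrable_inner_pow _ _ _ _) (integrable_inner_pow _ _ _ _),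
        ← integral_sub]
      · apply integral_congr_ae
        filter_upwards [ae_ne_zero] with w hw
        have := sum_sq_dir hw
        have h5 : ⟪dir w, e 0⟫ ^ (2 * (n + 1)) = ⟪dir w, e 0⟫ ^ 2 * ⟪dir w, e 0⟫ ^ (2 * n) := by
          rw [← pow_add]; congr 1; ring
        rw [h5]
        linear_combination (⟪dir w, e 0⟫ ^ (2 * n)) * this
      · simpa using integrable_inner_pow (e 0) (e 0) (2 * n) 0
      · simpa using integrable_inner_pow (e 0) (e 0) (2 * (n + 1)) 0
    push_cast at h1 h2 ⊢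
    have h4 : (2 * ((n:ℝ) + 1) - 1) * (mom (2 * n) (e 0) - mom (2 * (n + 1)) (e 0)) =
        2 * mom (2 * (n + 1)) (e 0) := by
      rw [← h3]; linarith
    have h5 : (2 * ((n:ℝ) + 1) + 1) * mom (2 * (n + 1)) (e 0) =
        (2 * (n:ℝ) + 1) * mom (2 * n) (e 0) := by
      linarith
    rw [h5, ih]

/-- total mass -/
noncomputable def mass : ℝ := mom 0 (e 0)

lemma mass_pos : 0 < mass := by
  unfold mass mom
  simp only [pow_zero, integral_const, smul_eq_mul, mul_one]
  unfold muB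
  rw [measureReal_restrict_apply_univ]
  have h1 : 0 < (volume : Measure E3) (Metric.closedBall 0 1) :=
    Metric.measure_closedBall_pos _ _ one_pos
  have h2 : (volume : Measure E3) (Metric.closedBall 0 1) < ⊤ :=
    (isCompact_closedBall (0:E3) 1).measure_lt_top
  exact ENNReal.toReal_pos h1.ne' h2.ne

lemma integral_inner_pow_even (n : ℕ) (v : E3) :
    ∫ w, ⟪dir w, v⟫ ^ (2 * n) ∂muB = ‖v‖ ^ (2 * n) * mass / (2 * n + 1) := by
  have h := mom_rec n
  have h1 : ∫ w, ⟪dir w, v⟫ ^ (2 * n) ∂muB = mom (2 * n) v := rfl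
  rw [h1, mom_eq]
  have h3 : (0:ℝ) < 2 * n + 1 := by positivity
  rw [eq_div_iff h3.ne']
  unfold mass
  rw [← h]; ring

/-- the mean of `cos ⟪ω, v⟫` over directions is `sinc ‖v‖` -/
lemma integral_cos_dir (v : E3) : ∫ w, Real.cos ⟪dir w, v⟫ ∂muB = mass * Real.sinc ‖v‖ := by
  set F : ℕ → E3 → ℝ := fun n w => (-1) ^ n * ⟪dir w, v⟫ ^ (2 * n) / ((2 * n).factorial : ℝ)
    with hF
  have hint : ∀ n, Integrable (F n) muB := by
    intro n
    have := (integrable_inner_pow v v (2 * n) 0).const_mul ((-1) ^ n / ((2 * n).factorial : ℝ))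
    refine this.congr (Filter.Eventually.of_forall fun w => ?_)
    simp only [hF, pow_zero, mul_one]
    ring
  have hval : ∀ n, ∫ w, F n w ∂muB =
      (-1) ^ n / ((2 * n).factorial : ℝ) * (‖v‖ ^ (2 * n) * mass / (2 * n + 1)) := by
    intro n
    rw [← integral_inner_pow_even, ← integral_const_mul]
    congr 1
    ext w
    simp only [hF]; ring
  have hnorm : ∀ n, ∫ w, ‖F n w‖ ∂muB =
      ‖v‖ ^ (2 * n) / ((2 * n).factorial : ℝ) * (mass / (2 * n + 1)) := by
    intro n
    have : ∀ w, ‖F n w‖ = 1 / ((2 * n).factorial : ℝ) * ⟪dir w, v⟫ ^ (2 * n) := by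
      intro w
      simp only [hF, norm_div, norm_mul, norm_pow, norm_neg, norm_one, one_pow, one_mul,
        Real.norm_eq_abs]
      rw [← abs_pow, abs_of_nonneg (show 0 ≤ ⟪dir w, v⟫ ^ (2 * n) by
        rw [pow_mul]; positivity), Nat.abs_cast]
      ring
    simp_rw [this]
    rw [integral_const_mul, integral_inner_pow_even]
    ring
  have hsum : Summable fun n => ∫ w, ‖F n w‖ ∂muB := by
    simp_rw [hnorm]
    have h1 : Summable fun n : ℕ => ‖v‖ ^ (2 * n) / ((2 * n).factorial : ℝ) * mass := by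
      have h2 : Summable fun n : ℕ => ‖v‖ ^ n / (n.factorial : ℝ) :=
        Real.summable_pow_div_factorial _
      exact (h2.comp_injective (i := fun n : ℕ => 2 * n)
        (fun a b h => by simpa using h)).mul_right mass
    refine Summable.of_nonneg_of_le (fun n => ?_) (fun n => ?_) h1
    · have := mass_pos; positivity
    · have := mass_pos
      gcongr
      rw [div_le_iff₀ (by positivity)]
      have : (0:ℝ) ≤ n := by positivity
      nlinarith
  have h := hasSum_integral_of_summable_integral_norm hint hsum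
  have h2 : ∀ w, ∑' n, F n w = Real.cos ⟪dir w, v⟫ := fun w =>
    (Real.hasSum_cos ⟪dir w, v⟫).tsum_eq
  simp_rw [h2, hval] at h
  refine h.unique ?_
  by_cases hv : v = 0
  · subst hv
    simp only [norm_zero, Real.sinc_zero, mul_one]
    have : ∀ n : ℕ, (-1) ^ n / ((2 * n).factorial : ℝ) *
        ((0:ℝ) ^ (2 * n) * mass / (2 * n + 1)) = if n = 0 then mass else 0 := by
      intro n
      by_cases hn : n = 0
      · subst hn; simp
      · simp [hn]
    simp_rw [this]
    exact hasSum_ite_eq 0 mass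
  · have hv0 : ‖v‖ ≠ 0 := norm_ne_zero_iff.mpr hv
    rw [Real.sinc_of_ne_zero hv0]
    have h3 := (Real.hasSum_sin ‖v‖).mul_left (mass / ‖v‖)
    have h4 : mass / ‖v‖ * Real.sin ‖v‖ = mass * (Real.sin ‖v‖ / ‖v‖) := by ring
    rw [h4] at h3
    have h5 : (fun n : ℕ => (-1) ^ n / ((2 * n).factorial : ℝ) *
        (‖v‖ ^ (2 * n) * mass / (2 * n + 1))) =
        fun n : ℕ => mass / ‖v‖ * ((-1) ^ n * ‖v‖ ^ (2 * n + 1) / ((2 * n + 1).factorial : ℝ)) := by
      funext n
      rw [Nat.factorial_succ, pow_succ]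
      push_cast
      have : ((2 * n).factorial : ℝ) ≠ 0 := by positivity
      have h6 : (2 * (n:ℝ) + 1) ≠ 0 := by positivity
      field_simp
    rw [h5]
    exact h3

lemma integrable_cos_dir (v : E3) : Integrable (fun w => Real.cos ⟪dir w, v⟫) muB :=
  integrable_of_bdd (Real.measurable_cos.comp (measurable_inner_dir v)) 1
    fun _ => Real.abs_cos_le_one _

/-- the key positive definiteness inequality, with the mean over the sphere subtracted -/
theorem sinc_sum_ge {N : ℕ} (x : Fin N → E3) (hx : ∀ i, ‖x i‖ = 1) (k : ℝ) (hk : 0 ≤ k) :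
    (N:ℝ) ^ 2 * Real.sinc k ^ 2 ≤ ∑ i, ∑ j, Real.sinc (k * ‖x i - x j‖) := by
  have hm := mass_pos
  -- the nonnegative integrand
  set A : E3 → ℝ := fun w => (∑ i, Real.cos ⟪dir w, k • x i⟫) - N * Real.sinc k with hA
  set B : E3 → ℝ := fun w => ∑ i, Real.sin ⟪dir w, k • x i⟫ with hB
  have h0 : 0 ≤ ∫ w, (A w ^ 2 + B w ^ 2) ∂muB := integral_nonneg fun w => by positivity
  have h1 : ∀ w, A w ^ 2 + B w ^ 2 =
      (∑ i, ∑ j, Real.cos ⟪dir w, k • (x i - x j)⟫) -
        2 * (N * Real.sinc k) * (∑ i, Real.cos ⟪dir w, k • x i⟫) + (N * Real.sinc k) ^ 2 := by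
    intro w
    have h2 : (∑ i, ∑ j, Real.cos ⟪dir w, k • (x i - x j)⟫) =
        (∑ i, Real.cos ⟪dir w, k • x i⟫) ^ 2 + (∑ i, Real.sin ⟪dir w, k • x i⟫) ^ 2 := by
      rw [sq, sq, Finset.sum_mul_sum, Finset.sum_mul_sum, ← Finset.sum_add_distrib]
      refine Finset.sum_congr rfl fun i _ => ?_
      rw [← Finset.sum_add_distrib]
      refine Finset.sum_congr rfl fun j _ => ?_
      rw [smul_sub, inner_sub_right, Real.cos_sub]
    rw [h2, hA, hB]
    ring
  simp_rw [h1] at h0
  have i1 : Integrable (fun w => ∑ i, ∑ j, Real.cos ⟪dir w, k • (x i - x j)⟫) muB :=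
    integrable_finsetSum _ fun i _ => integrable_finsetSum _ fun j _ => integrable_cos_dir _
  have i2 : Integrable (fun w => ∑ i, Real.cos ⟪dir w, k • x i⟫) muB :=
    integrable_finsetSum _ fun i _ => integrable_cos_dir _
  have i3 : Integrable (fun w => 2 * (N * Real.sinc k) *
      (∑ i, Real.cos ⟪dir w, k • x i⟫)) muB := i2.const_mul _
  have i4 : Integrable (fun w => (∑ i, ∑ j, Real.cos ⟪dir w, k • (x i - x j)⟫) -
      2 * (N * Real.sinc k) * (∑ i, Real.cos ⟪dir w, k • x i⟫)) muB := i1.sub i3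
  rw [integral_add i4 (integrable_const _),
    integral_sub i1 i3, integral_const_mul, integral_const,
    integral_finsetSum _ fun i _ => integrable_finsetSum _ fun j _ => integrable_cos_dir _,
    integral_finsetSum _ fun i _ => integrable_cos_dir _] at h0
  have h3 : ∀ i, ∫ w, (∑ j, Real.cos ⟪dir w, k • (x i - x j)⟫) ∂muB =
      mass * ∑ j, Real.sinc (k * ‖x i - x j‖) := by
    intro i
    rw [integral_finsetSum _ fun j _ => integrable_cos_dir _, Finset.mul_sum]
    refine Finset.sum_congr rfl fun j _ => ?_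
    rw [integral_cos_dir, norm_smul, Real.norm_eq_abs, abs_of_nonneg hk]
  have h4 : ∀ i, ∫ w, Real.cos ⟪dir w, k • x i⟫ ∂muB = mass * Real.sinc k := by
    intro i
    rw [integral_cos_dir, norm_smul, Real.norm_eq_abs, abs_of_nonneg hk, hx i, mul_one]
  have h5 : muB.real Set.univ = mass := by
    unfold mass mom
    simp
  simp_rw [h3, h4] at h0
  rw [h5, ← Finset.mul_sum, Finset.sum_const, Finset.card_univ, Fintype.card_fin] at h0
  simp only [nsmul_eq_mul, smul_eq_mul] at h0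
  have h6 : 0 ≤ mass * ((∑ i, ∑ j, Real.sinc (k * ‖x i - x j‖)) - (N:ℝ) ^ 2 * Real.sinc k ^ 2) := by
    nlinarith [h0]
  have h7 := nonneg_of_mul_nonneg_right h6 hm
  linarith

end Pool.Agent.Lib.MP_b06be4_an
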