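import Pool.Agent.Lib.MP_b06be4_an.PropB

/-!
# The upper bound with the hexagonal constant written as a series

For every `ε > 0` and every large `N` there are `N` distinct unit vectors in `ℝ³` with
`∑_{i ≠ j} |x_i - x_j|⁻² ≤ (1/4) N² log N + (C' + ε) N²`, where
`C' = γ/2 - (1/4) log (2√3π) + √3π/24 + ∑_{n ≥ 1} (-1)^n / (n (exp(√3πn) - (-1)^n))`.
-/

open Real

namespace Pool.Agent.Lib.MP_b06be4_an.Upper

/-- The hexagonal constant as a series. -/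
noncomputable def hexC : ℝ :=
  Real.eulerMascheroniConstant / 2 - 1 / 4 * Real.log (2 * Real.sqrt 3 * π) +
    Real.sqrt 3 * π / 24 + ∑' k : ℕ, (-1 : ℝ) ^ (k + 1) /
      (((k : ℝ) + 1) * (Real.exp (Real.sqrt 3 * π * ((k : ℝ) + 1)) - (-1) ^ (k + 1)))

theorem upper_series (ε : ℝ) (hε : 0 < ε) : ∃ N₀ : ℕ, ∀ N ≥ N₀,
    ∃ x : Fin N → EuclideanSpace ℝ (Fin 3), Function.Injective x ∧ (∀ i, ‖x i‖ = 1) ∧
      ∑ i, ∑ j, (if i = j then (0:ℝ) else 1 / ‖x i - x j‖ ^ 2) ≤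
        (1 / 4 : ℝ) * (N:ℝ) ^ 2 * Real.log N + (hexC + ε) * (N:ℝ) ^ 2 := by
  have h := propB (al := Real.sqrt 3 * π / 2) (by positivity) hε
  rw [Filter.eventually_atTop] at h
  obtain ⟨N₀, hN₀⟩ := h
  refine ⟨N₀, fun N hN => ?_⟩
  obtain ⟨x, h1, h2, h3⟩ := (hN₀ N hN).fin
  refine ⟨x, h1, h2, h3.trans (le_of_eq ?_)⟩
  rw [Phi_hex, hexC]
  ring

end Pool.Agent.Lib.MP_b06be4_an.Upper
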